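import Pool.Agent.W5h88.NB.Fin

/-!
# Random Euler products: the natural boundary of the generic product
-/

set_option autoImplicit false
set_option linter.unusedSectionVars false
set_option maxHeartbeats 400000

open MeasureTheory ProbabilityTheory Filter Topology Complex Metric

namespace Pool.Agent.W5h88.NB

/-- a holomorphic logarithm of `1` is constant -/
theorem exp_const {f : ℂ → ℂ} {W : Set ℂ} (hW : IsOpen W) (hWc : IsPreconnected W)
    (hf : DifferentiableOn ℂ f W) (h : ∀ z ∈ W, cexp (f z) = 1) : ∃ C, ∀ z ∈ W, f z = C := by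
  rcases W.eq_empty_or_nonempty with rfl | ⟨w, hw⟩
  · exact ⟨0, fun z hz => absurd hz (Set.notMem_empty z)⟩
  have h1 : Set.EqOn (deriv f) 0 W := by
    intro z hz
    have h2 : (fun z => cexp (f z)) =ᶠ[𝓝 z] fun _ => 1 := by
      filter_upwards [hW.mem_nhds hz] with w hw
      exact h w hw
    have h3 := (hf.differentiableAt (hW.mem_nhds hz)).hasDerivAt.cexp
    have h4 := (h3.congr_of_eventuallyEq h2.symm).unique (hasDerivAt_const z (1 : ℂ))
    rcases mul_eq_zero.1 h4 with h5 | h5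
    · exact absurd h5 (Complex.exp_ne_zero _)
    · exact h5
  exact ⟨f w, fun z hz => hW.is_const_of_deriv_eq_zero hWc hf h1 hz hw⟩

/-- the logarithm of a meromorphic function along a horizontal segment -/
theorem mero_log {L H : ℂ → ℂ} {a : ℝ} {w₀ : ℂ} (hw₀ : w₀.re = a)
    (hL : DifferentiableOn ℂ L {s : ℂ | a < s.re}) (hH : MeromorphicAt H w₀)
    (hHL : ∀ᶠ s in 𝓝 w₀, a < s.re → H s = cexp (L s)) :
    ∃ ρ C : ℝ, 0 < ρ ∧ (∀ δ : ℝ, 0 < δ → δ < ρ → |(L (w₀ + δ)).im| ≤ C) ∧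
      ((∀ δ : ℝ, 0 < δ → δ < ρ → (L (w₀ + δ)).re ≤ C) ∨
        ∀ δ : ℝ, 0 < δ → δ < ρ → -C ≤ (L (w₀ + δ)).re) := by
  -- the order is finite
  have hfreq : ∃ᶠ z in 𝓝[≠] w₀, H z ≠ 0 := by
    intro h
    have h1 : Tendsto (fun δ : ℝ => w₀ + δ) (𝓝[>] 0) (𝓝[≠] w₀) := by
      refine tendsto_nhdsWithin_iff.2 ⟨?_, ?_⟩
      · have : Continuous fun δ : ℝ => w₀ + (δ : ℂ) := by fun_prop
        have h2 := this.tendsto 0
        simp only [Complex.ofReal_zero, add_zero] at h2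
        exact h2.mono_left nhdsWithin_le_nhds
      · filter_upwards [self_mem_nhdsWithin] with δ hδ h0
        have hδ' : (0 : ℝ) < δ := hδ
        have h3 : (w₀ + (δ : ℂ)) = w₀ := h0
        have h4 : (δ : ℂ) = 0 := by simpa using h3
        rw [Complex.ofReal_eq_zero] at h4
        exact hδ'.ne' h4
    have h2 := (h1.eventually h).and (((h1.mono_right nhdsWithin_le_nhds).eventually hHL).and
      self_mem_nhdsWithin)
    obtain ⟨δ, h3, h4, h5⟩ := h2.exists
    have hδ' : (0 : ℝ) < δ := h5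
    have h6 : a < (w₀ + (δ : ℂ)).re := by
      rw [Complex.add_re, hw₀, Complex.ofReal_re]
      linarith
    apply h3
    rw [h4 h6]
    exact Complex.exp_ne_zero _
  have hord : meromorphicOrderAt H w₀ ≠ ⊤ := by
    intro h
    rw [meromorphicOrderAt_eq_top_iff] at h
    exact hfreq (h.mono fun z hz h0 => h0 hz)
  obtain ⟨g, hg, hg0, hgH⟩ := (meromorphicOrderAt_ne_top_iff hH).1 hord
  set m : ℤ := (meromorphicOrderAt H w₀).untop₀ with hm
  -- a good ball
  have hgc : ∀ᶠ z in 𝓝 w₀, dist (g z) (g w₀) < ‖g w₀‖ / 2 :=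
    Metric.tendsto_nhds.1 hg.continuousAt _ (by have := norm_pos_iff.2 hg0; positivity)
  obtain ⟨ρ, hρ, hρb⟩ := Metric.eventually_nhds_iff_ball.1
    (hgc.and ((hg.eventually_analyticAt.and hHL).and
      (eventually_nhdsWithin_iff.1 hgH)))
  have hslit : ∀ z ∈ ball w₀ ρ, g z / g w₀ ∈ slitPlane ∧ g z ≠ 0 ∧ ‖Complex.log (g z / g w₀)‖ ≤ 2 := by
    intro z hz
    have h1 := (hρb z hz).1
    have h2 : ‖g z / g w₀ - 1‖ < 1 / 2 := by
      have : g z / g w₀ - 1 = (g z - g w₀) / g w₀ := by field_simp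
      rw [this, norm_div, div_lt_iff₀ (norm_pos_iff.2 hg0), ← dist_eq_norm]
      linarith
    have h3 := (Complex.abs_re_le_norm (g z / g w₀ - 1)).trans_lt h2
    rw [Complex.sub_re, Complex.one_re, abs_lt] at h3
    have h4 : g z / g w₀ ∈ slitPlane := by
      left
      linarith [h3.1]
    refine ⟨h4, ?_, ?_⟩
    · intro h0
      rw [h0, zero_div] at h4
      exact Complex.zero_notMem_slitPlane h4
    · have h5 := Complex.norm_log_one_add_half_le_self (z := g z / g w₀ - 1) h2.le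
      rw [add_sub_cancel] at h5
      refine h5.trans ?_
      linarith
  set h : ℂ → ℂ := fun z => Complex.log (g w₀) + Complex.log (g z / g w₀) with hh
  set W : Set ℂ := ball w₀ ρ ∩ {s : ℂ | a < s.re} with hW
  have hWo : IsOpen W := isOpen_ball.inter (isOpen_re a)
  have hWc : Convex ℝ W := (convex_ball _ _).inter (convex_re a)
  have hsl : ∀ z ∈ W, z - w₀ ∈ slitPlane := by
    intro z hz
    left
    have : a < z.re := hz.2
    rw [Complex.sub_re, hw₀]
    linarith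
  have hfd : DifferentiableOn ℂ (fun z => L z - m * Complex.log (z - w₀) - h z) W := by
    intro z hz
    have h1 : DifferentiableAt ℂ L z := hL.differentiableAt ((isOpen_re a).mem_nhds hz.2)
    have h2 : DifferentiableAt ℂ (fun z => Complex.log (z - w₀)) z :=
      (differentiableAt_id.sub_const w₀).clog (hsl z hz)
    have h3 : DifferentiableAt ℂ h z :=
      (((hρb z hz.1).2.1.1.differentiableAt.div_const _).clog (hslit z hz.1).1).const_add _
    exact ((h1.sub (h2.const_mul _)).sub h3).differentiableWithinAt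
  obtain ⟨C, hC⟩ := exp_const hWo hWc.isPreconnected hfd fun z hz => by
    have hne : z - w₀ ≠ 0 := fun h0 => by
      have := hsl z hz
      rw [h0] at this
      exact Complex.zero_notMem_slitPlane this
    have hne' : z ≠ w₀ := sub_ne_zero.1 hne
    have h1 : H z = cexp (L z) := (hρb z hz.1).2.1.2 hz.2
    have h2 : H z = (z - w₀) ^ m • g z := (hρb z hz.1).2.2 hne'
    have h3 : cexp (h z) = g z := by
      rw [hh]
      simp only
      rw [Complex.exp_add, Complex.exp_log hg0,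
        Complex.exp_log (div_ne_zero (hslit z hz.1).2.1 hg0)]
      field_simp
    rw [Complex.exp_sub, Complex.exp_sub, h3, Complex.exp_int_mul, Complex.exp_log hne, ← h1, h2,
      smul_eq_mul]
    have h4 : (z - w₀) ^ m ≠ 0 := zpow_ne_zero _ hne
    have h5 := (hslit z hz.1).2.1
    field_simp
  set C₁ : ℝ := ‖Complex.log (g w₀)‖ + 2 + ‖C‖ with hC1
  have hmain : ∀ δ : ℝ, 0 < δ → δ < ρ → ∃ e : ℂ, ‖e‖ ≤ C₁ ∧
      L (w₀ + δ) = ((m * Real.log δ : ℝ) : ℂ) + e := by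
    intro δ hδ0 hδ
    have hb : w₀ + (δ : ℂ) ∈ ball w₀ ρ := by
      rw [mem_ball, dist_eq_norm, add_sub_cancel_left, Complex.norm_real, Real.norm_eq_abs,
        abs_of_pos hδ0]
      exact hδ
    have hzW : w₀ + (δ : ℂ) ∈ W := ⟨hb, by
      show a < (w₀ + (δ : ℂ)).re
      rw [Complex.add_re, hw₀, Complex.ofReal_re]
      linarith⟩
    have h1 := hC _ hzW
    refine ⟨h (w₀ + δ) + C, ?_, ?_⟩
    · refine (norm_add_le _ _).trans (add_le_add ?_ le_rfl)
      exact (norm_add_le _ _).trans (add_le_add le_rfl (hslit _ hb).2.2)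
    · have h2 : Complex.log (w₀ + (δ : ℂ) - w₀) = ((Real.log δ : ℝ) : ℂ) := by
        rw [add_sub_cancel_left, Complex.ofReal_log hδ0.le]
      rw [h2] at h1
      push_cast
      linear_combination h1
  refine ⟨min ρ 1, C₁, lt_min hρ one_pos, fun δ h0 hδ => ?_, ?_⟩
  · obtain ⟨e, he1, he2⟩ := hmain δ h0 (hδ.trans_le (min_le_left _ _))
    rw [he2, Complex.add_im, Complex.ofReal_im, zero_add]
    exact (Complex.abs_im_le_norm e).trans he1
  · rcases le_total 0 m with hm0 | hm0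
    · left
      intro δ h0 hδ
      obtain ⟨e, he1, he2⟩ := hmain δ h0 (hδ.trans_le (min_le_left _ _))
      rw [he2, Complex.add_re, Complex.ofReal_re]
      have h1 : Real.log δ ≤ 0 := Real.log_nonpos h0.le (hδ.trans_le (min_le_right _ _)).le
      have h2 : (m : ℝ) * Real.log δ ≤ 0 :=
        mul_nonpos_of_nonneg_of_nonpos (by exact_mod_cast hm0) h1
      have h3 := (Complex.re_le_norm e).trans he1
      linarith
    · right
      intro δ h0 hδ
      obtain ⟨e, he1, he2⟩ := hmain δ h0 (hδ.trans_le (min_le_left _ _))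
      rw [he2, Complex.add_re, Complex.ofReal_re]
      have h1 : Real.log δ ≤ 0 := Real.log_nonpos h0.le (hδ.trans_le (min_le_right _ _)).le
      have h2 : 0 ≤ (m : ℝ) * Real.log δ :=
        mul_nonneg_of_nonpos_of_nonpos (by exact_mod_cast hm0) h1
      have h3 := (abs_le.1 ((Complex.abs_re_le_norm e).trans he1)).1
      linarith

variable {V Ω : Type} [Countable V] [MeasurableSpace Ω] {μ : Measure Ω} [IsProbabilityMeasure μ]

namespace Mdl

variable (M : Mdl V Ω μ)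

theorem lam_split {w : ℂ} (hw : 1 < w.re) (ω : Ω) :
    M.Lam ω w = M.Q 0 w 0 ω + M.D 1 w 0 ω ∧ ‖M.D 1 w 0 ω‖ ≤
      M.B * ∑' p : V × ℕ, Real.exp (-((3 / 4 : ℝ) * M.fr 1 p)) := by
  have hB : ∀ v : V, 0 ≤ M.B := fun v => (abs_nonneg _).trans (M.bd v 0 ω)
  have h1 : M.Lam ω w = M.D 0 w 0 ω := by
    unfold Lam D co ct
    refine tsum_congr fun p => ?_
    simp
  refine ⟨by rw [h1, M.D_succ (by push_cast; linarith)], ?_⟩
  have h2 := M.D_bd (j := 1) (c := w) (y := 1 / 4) (by norm_num) (by linarith)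
    (by push_cast; linarith) 0 ω
  rw [pow_zero, inv_one, mul_one] at h2
  refine h2.trans ?_
  have h34 : Summable fun p : V × ℕ => Real.exp (-((3 / 4 : ℝ) * M.fr 1 p)) :=
    M.sum_exp2 (θ := 3 / 4) (j := 1) (by norm_num) (by norm_num)
  rw [← tsum_mul_left, ← tsum_mul_left]
  refine Summable.tsum_le_tsum (fun p => ?_)
    ((M.sum_exp2 (θ := w.re - 1 / 4) (j := 1) (by linarith) (by push_cast; linarith)).mul_left M.B)
    (h34.mul_left M.B)
  refine mul_le_mul_of_nonneg_left (Real.exp_le_exp.2 ?_) (hB p.1)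
  have := mul_le_mul_of_nonneg_right (show (3 / 4 : ℝ) ≤ w.re - 1 / 4 by linarith) (M.fr_nonneg 1 p)
  linarith

theorem lam_cont [TopologicalSpace Ω] (hcont : ∀ v m, Continuous (M.τ v m)) {w : ℂ}
    (hw : 1 < w.re) : Continuous fun ω => M.Lam ω w := by
  unfold Lam
  refine continuous_tsum (u := fun p => M.B * Real.exp (-(w.re * M.fr 0 p))) (fun p => ?_)
    ((M.sum_exp2 (θ := w.re) (j := 0) (by linarith) (by push_cast; linarith)).mul_left M.B)
    fun p ω => ?_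
  · unfold cf
    exact ((Complex.continuous_ofReal.comp (hcont _ _)).div_const _).mul continuous_const
  · rw [norm_mul, Complex.norm_exp]
    have h1 : (-w * (M.fr 0 p : ℂ)).re = -(w.re * M.fr 0 p) := by simp
    rw [h1]
    exact mul_le_mul_of_nonneg_right (M.cf_bd 0 ω p) (Real.exp_pos _).le

/-- the real linear forms of the main part -/
noncomputable def lin (β : V → ℝ) (δ : ℝ) (ω : Ω) : ℝ :=
  ∑' v, M.τ v 0 ω * (β v * Real.exp (-((1 + δ) * M.l v)))

theorem lin_sum {β : V → ℝ} (hβ : ∀ v, |β v| ≤ 1) {δ : ℝ} (hδ : 0 < δ) (ω : Ω) :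
    Summable fun v => M.τ v 0 ω * (β v * Real.exp (-((1 + δ) * M.l v))) := by
  refine Summable.of_norm_bounded ((M.sum_exp (x := 1 + δ) (by linarith)).mul_left M.B) fun v => ?_
  rw [Real.norm_eq_abs, abs_mul, abs_mul, abs_of_pos (Real.exp_pos _)]
  refine mul_le_mul (M.bd v 0 ω) ?_ (by positivity) ((abs_nonneg _).trans (M.bd v 0 ω))
  exact mul_le_of_le_one_left (Real.exp_pos _).le (hβ v)

/-- large values of the linear forms -/
theorem lin_large {β : V → ℝ} (hβ : ∀ v, |β v| ≤ 1) (hdiv : ¬ Summable fun v => |β v| * (M.q v)⁻¹)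
    {c : ℝ} (hc : 0 < c) (F : Finset V) {ω : Ω}
    (hω : ∀ v, v ∉ F → if 0 ≤ β v then c ≤ M.τ v 0 ω else M.τ v 0 ω ≤ -c) (N η : ℝ) (hη : 0 < η) :
    ∃ δ : ℝ, 0 < δ ∧ δ < η ∧ N < M.lin β δ ω := by
  classical
  have hpos : ∀ v, v ∉ F → c * |β v| ≤ M.τ v 0 ω * β v := by
    intro v hv
    have := hω v hv
    split_ifs at this with h
    · rw [abs_of_nonneg h]
      exact mul_le_mul_of_nonneg_right this h
    · rw [abs_of_neg (not_le.1 h)]
      nlinarith [not_le.1 h]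
  -- a finite set with a large sum
  have hdiv' : ¬ Summable fun v : {v // v ∉ F} => |β v.1| * (M.q v.1)⁻¹ := fun h =>
    hdiv ((F.summable_compl_iff (f := fun v => |β v| * (M.q v)⁻¹)).1 h)
  obtain ⟨T, hT⟩ : ∃ T : Finset {v // v ∉ F}, (N + F.card * M.B + 1) / c <
      ∑ v ∈ T, |β v.1| * (M.q v.1)⁻¹ := by
    by_contra h
    push Not at h
    refine hdiv' (summable_of_sum_le (fun v => ?_) h)
    have := inv_nonneg.2 (M.q_pos v.1).le
    positivity
  rw [div_lt_iff₀ hc] at hT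
  have hcont : Tendsto (fun δ : ℝ => ∑ v ∈ T, |β v.1| * Real.exp (-((1 + δ) * M.l v.1)))
      (𝓝[>] 0) (𝓝 (∑ v ∈ T, |β v.1| * (M.q v.1)⁻¹)) := by
    have h1 : Continuous fun δ : ℝ => ∑ v ∈ T, |β v.1| * Real.exp (-((1 + δ) * M.l v.1)) := by
      fun_prop
    have h2 := h1.tendsto 0
    have h3 : ∀ v : V, Real.exp (-((1 + 0) * M.l v)) = (M.q v)⁻¹ := fun v => by
      rw [add_zero, one_mul, Real.exp_neg]
      unfold l
      rw [Real.exp_log (M.q_pos v)]
    simp only [h3] at h2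
    exact h2.mono_left nhdsWithin_le_nhds
  have hT' : (N + F.card * M.B) / c < ∑ v ∈ T, |β v.1| * (M.q v.1)⁻¹ := by
    rw [div_lt_iff₀ hc]
    linarith
  obtain ⟨δ, h1, h2, h3⟩ := ((hcont.eventually (lt_mem_nhds hT')).and
    ((Ioo_mem_nhdsGT hη : Set.Ioo 0 η ∈ 𝓝[>] (0 : ℝ)))).exists
  refine ⟨δ, h2, h3, ?_⟩
  rw [div_lt_iff₀ hc] at h1
  have hs := M.lin_sum hβ h2 ω
  -- split the sum
  have hsplit := hs.sum_add_tsum_subtype_compl F
  have hF : -(F.card * M.B) ≤ ∑ v ∈ F, M.τ v 0 ω * (β v * Real.exp (-((1 + δ) * M.l v))) := by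
    have h4 : |∑ v ∈ F, M.τ v 0 ω * (β v * Real.exp (-((1 + δ) * M.l v)))| ≤ F.card * M.B := by
      refine (Finset.abs_sum_le_sum_abs _ _).trans ((Finset.sum_le_card_nsmul _ _ M.B fun v _ => ?_).trans
        (le_of_eq (by rw [nsmul_eq_mul])))
      rw [abs_mul, abs_mul, abs_of_pos (Real.exp_pos _)]
      have h8 : |β v| * Real.exp (-((1 + δ) * M.l v)) ≤ 1 := by
        refine mul_le_one₀ (hβ v) (Real.exp_pos _).le (Real.exp_le_one_iff.2 ?_)
        have h9 := M.l_pos v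
        have : 0 ≤ (1 + δ) * M.l v := by positivity
        linarith
      have h10 := M.bd v 0 ω
      calc |M.τ v 0 ω| * (|β v| * Real.exp (-((1 + δ) * M.l v))) ≤ M.B * 1 :=
            mul_le_mul h10 h8 (by positivity) ((abs_nonneg _).trans h10)
        _ = M.B := mul_one _
    linarith [(abs_le.1 h4).1]
  have hcomp : c * ∑ v ∈ T, |β v.1| * Real.exp (-((1 + δ) * M.l v.1)) ≤
      ∑' v : {v // v ∉ F}, M.τ v.1 0 ω * (β v.1 * Real.exp (-((1 + δ) * M.l v.1))) := by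
    have hnn : ∀ v : {v // v ∉ F}, 0 ≤ M.τ v.1 0 ω * (β v.1 * Real.exp (-((1 + δ) * M.l v.1))) := by
      intro v
      have h5 := hpos v.1 v.2
      have h6 : 0 ≤ M.τ v.1 0 ω * β v.1 := le_trans (by positivity) h5
      rw [← mul_assoc]
      positivity
    refine le_trans ?_ ((hs.subtype _).sum_le_tsum T fun v _ => hnn v)
    rw [Finset.mul_sum]
    refine Finset.sum_le_sum fun v _ => ?_
    show _ ≤ M.τ v.1 0 ω * (β v.1 * Real.exp (-((1 + δ) * M.l v.1)))
    rw [← mul_assoc, ← mul_assoc]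
    exact mul_le_mul_of_nonneg_right (hpos v.1 v.2) (Real.exp_pos _).le
  unfold lin
  rw [← hsplit]
  have h7 : c * ∑ v ∈ T, |β v.1| * Real.exp (-((1 + δ) * M.l v.1)) =
      (∑ v ∈ T, |β v.1| * Real.exp (-((1 + δ) * M.l v.1))) * c := mul_comm _ _
  linarith

theorem q_re {t δ : ℝ} (hδ : 0 < δ) (ω : Ω) :
    (M.Q 0 ((((1 : ℝ) : ℂ) + t * I) + δ) 0 ω).re = M.lin (fun v => Real.cos (t * M.l v)) δ ω ∧
    (M.Q 0 ((((1 : ℝ) : ℂ) + t * I) + δ) 0 ω).im = M.lin (fun v => -Real.sin (t * M.l v)) δ ω := by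
  set w : ℂ := (((1 : ℝ) : ℂ) + t * I) + δ with hw
  have hwr : w.re = 1 + δ := by simp [hw]
  have hwi : w.im = t := by simp [hw]
  have hs : Summable fun v => (M.τ v 0 ω : ℂ) / ((0 : ℕ) + 1) * ct (((0 : ℕ) + 1) * M.l v) w 0 :=
    Summable.of_norm_bounded ((M.ctl_summable (j := 0) (c := w) (by rw [hwr]; push_cast; linarith)
      0).mul_left M.B) fun v => term_bd (M.bd v 0 ω) 0 _
  have hterm : ∀ v, (M.τ v 0 ω : ℂ) / ((0 : ℕ) + 1) * ct (((0 : ℕ) + 1) * M.l v) w 0 =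
      (M.τ v 0 ω : ℂ) * cexp (-w * M.l v) := by
    intro v
    unfold ct
    simp
  have hre : ∀ v, (-w * (M.l v : ℂ)).re = -((1 + δ) * M.l v) := fun v => by
    simp [hwr]
  have him : ∀ v, (-w * (M.l v : ℂ)).im = -(t * M.l v) := fun v => by
    simp [hwi]
  constructor
  · unfold Q lin
    rw [← Complex.reCLM_apply, Complex.reCLM.map_tsum hs]
    refine tsum_congr fun v => ?_
    rw [Complex.reCLM_apply, hterm, Complex.re_ofReal_mul, Complex.exp_re, hre, him, Real.cos_neg]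
    ring
  · unfold Q lin
    rw [← Complex.imCLM_apply, Complex.imCLM.map_tsum hs]
    refine tsum_congr fun v => ?_
    rw [Complex.imCLM_apply, hterm, Complex.im_ofReal_mul, Complex.exp_im, hre, him, Real.sin_neg]
    ring

section baire

variable [TopologicalSpace Ω]

/-- every open set contains points whose normalised traces have prescribed signs outside a finite
set and are not small -/
def Ext (c : ℝ) : Prop := ∀ O : Set Ω, IsOpen O → O.Nonempty → ∀ σ : V → Prop,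
  ∃ F : Finset V, ∃ ω ∈ O, ∀ v, v ∉ F → (σ v → c ≤ M.τ v 0 ω) ∧ (¬ σ v → M.τ v 0 ω ≤ -c)

theorem res [BaireSpace Ω] {c : ℝ} (hc : 0 < c) (hext : M.Ext c) {β : V → ℝ}
    (hβ : ∀ v, |β v| ≤ 1) (hdiv : ¬ Summable fun v => |β v| * (M.q v)⁻¹) (f : ℝ → Ω → ℝ)
    (hfc : ∀ δ, 0 < δ → Continuous (f δ)) (C : ℝ) (hf : ∀ δ, 0 < δ → ∀ ω, M.lin β δ ω - C ≤ f δ ω) :
    ∀ᶠ ω in residual Ω, ∀ N : ℕ, ∃ δ : ℝ, 0 < δ ∧ δ < 1 / ((N : ℝ) + 1) ∧ (N : ℝ) < f δ ω := by
  classical
  rw [eventually_countable_forall]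
  intro N
  have h1 : {ω | ∃ δ : ℝ, 0 < δ ∧ δ < 1 / ((N : ℝ) + 1) ∧ (N : ℝ) < f δ ω} =
      ⋃ δ ∈ Set.Ioo (0 : ℝ) (1 / ((N : ℝ) + 1)), {ω | (N : ℝ) < f δ ω} := by
    ext ω
    simp only [Set.mem_iUnion, Set.mem_Ioo, Set.mem_ofPred_eq, exists_prop, and_assoc]
  refine residual_of_dense_open ?_ ?_
  · rw [h1]
    exact isOpen_biUnion fun δ hδ => isOpen_lt continuous_const (hfc δ hδ.1)
  · rw [dense_iff_inter_open]
    intro O hO hOne
    obtain ⟨F, ω, hω, hF⟩ := hext O hO hOne (fun v => 0 ≤ β v)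
    obtain ⟨δ, h2, h3, h4⟩ := M.lin_large hβ hdiv hc F (ω := ω) (fun v hv => by
      split_ifs with h
      · exact (hF v hv).1 h
      · exact (hF v hv).2 h) (N + C) (1 / ((N : ℝ) + 1)) (by positivity)
    refine ⟨ω, hω, δ, h2, h3, ?_⟩
    have := hf δ h2 ω
    linarith

/-- **The generic product has the natural boundary `Re w = 1`.** -/
theorem baire [BaireSpace Ω] (hcont : ∀ v m, Continuous (M.τ v m)) {c : ℝ} (hc : 0 < c)
    (hext : M.Ext c) : ∀ᶠ ω in residual Ω, ∀ τ : ℝ, ¬ ∃ H : ℂ → ℂ,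
      MeromorphicAt H (((1 : ℝ) : ℂ) + τ * I) ∧
      ∀ᶠ w in 𝓝 (((1 : ℝ) : ℂ) + τ * I), (1 : ℝ) < w.re → H w = cexp (M.Lam ω w) := by
  classical
  set C : ℝ := M.B * ∑' p : V × ℕ, Real.exp (-((3 / 4 : ℝ) * M.fr 1 p)) with hC
  have hwre : ∀ t δ : ℝ, ((((1 : ℝ) : ℂ) + t * I) + (δ : ℂ)).re = 1 + δ := fun t δ => by simp
  have hb : ∀ t δ : ℝ, 0 < δ → ∀ ω, ‖M.Lam ω ((((1 : ℝ) : ℂ) + t * I) + δ) -
      M.Q 0 ((((1 : ℝ) : ℂ) + t * I) + δ) 0 ω‖ ≤ C := by
    intro t δ hδ ω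
    obtain ⟨h1, h2⟩ := M.lam_split (w := (((1 : ℝ) : ℂ) + t * I) + δ) (by rw [hwre]; linarith) ω
    rw [h1, add_sub_cancel_left]
    exact h2
  have hLc : ∀ t δ : ℝ, 0 < δ → Continuous fun ω => M.Lam ω ((((1 : ℝ) : ℂ) + t * I) + δ) :=
    fun t δ hδ => M.lam_cont hcont (by rw [hwre]; linarith)
  -- the statement at one point
  have key : ∀ t : ℝ, ∀ᶠ ω in residual Ω, ∀ N : ℕ,
      (∃ δ : ℝ, 0 < δ ∧ δ < 1 / ((N : ℝ) + 1) ∧
        (N : ℝ) < (M.Lam ω ((((1 : ℝ) : ℂ) + t * I) + δ)).im) ∨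
      ((∃ δ : ℝ, 0 < δ ∧ δ < 1 / ((N : ℝ) + 1) ∧
        (N : ℝ) < (M.Lam ω ((((1 : ℝ) : ℂ) + t * I) + δ)).re) ∧
      (∃ δ : ℝ, 0 < δ ∧ δ < 1 / ((N : ℝ) + 1) ∧
        (N : ℝ) < -(M.Lam ω ((((1 : ℝ) : ℂ) + t * I) + δ)).re)) := by
    intro t
    by_cases hsin : Summable fun v => |-Real.sin (t * M.l v)| * (M.q v)⁻¹
    · have hcos : ¬ Summable fun v => |Real.cos (t * M.l v)| * (M.q v)⁻¹ := by
        intro h
        refine M.div (Summable.of_nonneg_of_le (fun v => inv_nonneg.2 (M.q_pos v).le) (fun v => ?_)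
          (hsin.add h))
        rw [← add_mul]
        refine le_mul_of_one_le_left (inv_nonneg.2 (M.q_pos v).le) ?_
        rw [abs_neg]
        have h1 := Real.sin_sq_add_cos_sq (t * M.l v)
        have h2 := Real.abs_sin_le_one (t * M.l v)
        have h3 := Real.abs_cos_le_one (t * M.l v)
        rw [← sq_abs, ← sq_abs (Real.cos _)] at h1
        nlinarith [abs_nonneg (Real.sin (t * M.l v)), abs_nonneg (Real.cos (t * M.l v))]
      have r1 := M.res hc hext (β := fun v => Real.cos (t * M.l v)) (fun v => Real.abs_cos_le_one _)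
        hcos (fun δ ω => (M.Lam ω ((((1 : ℝ) : ℂ) + t * I) + δ)).re)
        (fun δ hδ => Complex.continuous_re.comp (hLc t δ hδ)) C fun δ hδ ω => by
          have h1 := (abs_le.1 ((Complex.abs_re_le_norm _).trans (hb t δ hδ ω))).1
          rw [Complex.sub_re, (M.q_re hδ ω).1] at h1
          linarith
      have hcos' : ¬ Summable fun v => |-Real.cos (t * M.l v)| * (M.q v)⁻¹ := by
        simpa only [abs_neg] using hcos
      have r2 := M.res hc hext (β := fun v => -Real.cos (t * M.l v))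
        (fun v => by rw [abs_neg]; exact Real.abs_cos_le_one _)
        hcos' (fun δ ω => -(M.Lam ω ((((1 : ℝ) : ℂ) + t * I) + δ)).re)
        (fun δ hδ => (Complex.continuous_re.comp (hLc t δ hδ)).neg) C fun δ hδ ω => by
          have h1 := (abs_le.1 ((Complex.abs_re_le_norm _).trans (hb t δ hδ ω))).2
          rw [Complex.sub_re, (M.q_re hδ ω).1] at h1
          have h2 : M.lin (fun v => -Real.cos (t * M.l v)) δ ω =
              -M.lin (fun v => Real.cos (t * M.l v)) δ ω := by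
            unfold lin
            rw [← tsum_neg]
            exact tsum_congr fun v => by ring
          rw [h2]
          linarith
      filter_upwards [r1, r2] with ω h1 h2 N
      exact Or.inr ⟨h1 N, h2 N⟩
    · have r1 := M.res hc hext (β := fun v => -Real.sin (t * M.l v))
        (fun v => by rw [abs_neg]; exact Real.abs_sin_le_one _)
        hsin (fun δ ω => (M.Lam ω ((((1 : ℝ) : ℂ) + t * I) + δ)).im)
        (fun δ hδ => Complex.continuous_im.comp (hLc t δ hδ)) C fun δ hδ ω => by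
          have h1 := (abs_le.1 ((Complex.abs_im_le_norm _).trans (hb t δ hδ ω))).1
          rw [Complex.sub_im, (M.q_re hδ ω).2] at h1
          linarith
      filter_upwards [r1] with ω h1 N
      exact Or.inl (h1 N)
  have key' : ∀ᶠ ω in residual Ω, ∀ t : ℚ, ∀ N : ℕ,
      (∃ δ : ℝ, 0 < δ ∧ δ < 1 / ((N : ℝ) + 1) ∧
        (N : ℝ) < (M.Lam ω ((((1 : ℝ) : ℂ) + (t : ℝ) * I) + δ)).im) ∨
      ((∃ δ : ℝ, 0 < δ ∧ δ < 1 / ((N : ℝ) + 1) ∧
        (N : ℝ) < (M.Lam ω ((((1 : ℝ) : ℂ) + (t : ℝ) * I) + δ)).re) ∧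
      (∃ δ : ℝ, 0 < δ ∧ δ < 1 / ((N : ℝ) + 1) ∧
        (N : ℝ) < -(M.Lam ω ((((1 : ℝ) : ℂ) + (t : ℝ) * I) + δ)).re)) :=
    eventually_countable_forall.2 fun t => key t
  filter_upwards [key'] with ω hω τ
  rintro ⟨H, hH, hHL⟩
  -- a rational point
  set s₀ : ℂ := ((1 : ℝ) : ℂ) + τ * I with hs₀
  have h1 : ∀ᶠ z in 𝓝[≠] s₀, AnalyticAt ℂ H z ∧
      ∀ᶠ w in 𝓝 z, (1 : ℝ) < w.re → H w = cexp (M.Lam ω w) :=
    hH.eventually_analyticAt.and (hHL.eventually_nhds.filter_mono nhdsWithin_le_nhds)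
  obtain ⟨ε, hε, hεb⟩ := Metric.mem_nhdsWithin_iff.1 h1
  obtain ⟨t, ht1, ht2⟩ := exists_rat_btwn (show τ < τ + ε by linarith)
  have hd : (((1 : ℝ) : ℂ) + (t : ℝ) * I) - s₀ = ((t - τ : ℝ) : ℂ) * I := by
    rw [hs₀]
    push_cast
    ring
  obtain ⟨h2, h3⟩ := hεb (show ((1 : ℝ) : ℂ) + (t : ℝ) * I ∈ ball s₀ ε ∩ {s₀}ᶜ from ⟨by
    rw [mem_ball, dist_eq_norm, hd, norm_mul, Complex.norm_I, mul_one, Complex.norm_real,
      Real.norm_eq_abs, abs_of_pos (by linarith)]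
    linarith, by
    intro h0
    have h0' : ((1 : ℝ) : ℂ) + (t : ℝ) * I = s₀ := h0
    rw [h0', sub_self] at hd
    have := congrArg Complex.im hd
    simp only [Complex.zero_im, Complex.mul_im, Complex.ofReal_re, Complex.I_im, mul_one,
      Complex.ofReal_im, Complex.I_re, mul_zero, add_zero] at this
    linarith⟩)
  obtain ⟨ρ, C', hρ, h4, h5⟩ := mero_log (a := 1) (w₀ := ((1 : ℝ) : ℂ) + (t : ℝ) * I) (by simp)
    (M.lam_diff ω) h2.meromorphicAt h3
  obtain ⟨N, hN⟩ := exists_nat_gt (max C' (1 / ρ))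
  have hNC : C' < N := (le_max_left _ _).trans_lt hN
  have hNρ : 1 / ((N : ℝ) + 1) < ρ := by
    have h6 : 1 / ρ < N := (le_max_right _ _).trans_lt hN
    rw [div_lt_iff₀ hρ] at h6
    rw [div_lt_iff₀ (by positivity)]
    nlinarith
  rcases hω t N with ⟨δ, d1, d2, d3⟩ | ⟨⟨δ, d1, d2, d3⟩, ⟨δ', d1', d2', d3'⟩⟩
  · have := (abs_le.1 (h4 δ d1 (d2.trans hNρ))).2
    linarith
  · rcases h5 with h5 | h5
    · have := h5 δ d1 (d2.trans hNρ)
      linarith
    · have := h5 δ' d1' (d2'.trans hNρ)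
      linarith

end baire

end Mdl

end Pool.Agent.W5h88.NB
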