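import Pool.Agent.W5h88.NB.Tay

/-!
# Limits of functions with a bounded meromorphic continuation to a disc
-/

set_option autoImplicit false
set_option linter.unusedSectionVars false
set_option maxHeartbeats 400000

open Filter Topology Complex Metric

namespace Pool.Agent.W5h88.NB

/-- the polynomial function with the coefficients `p` -/
noncomputable def pol {d : ℕ} (p : Fin (d + 1) → ℂ) (s : ℂ) : ℂ := ∑ i, p i * s ^ (i : ℕ)

/-- bounded meromorphic continuation to a disc -/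
def BMC (d : ℕ) (B : ℝ) (c : ℂ) (ρ : ℝ) (L : ℂ → ℂ) : Prop :=
  ∃ (p : Fin (d + 1) → ℂ) (F : ℂ → ℂ), ‖p‖ = 1 ∧ DifferentiableOn ℂ F (ball c ρ) ∧
    (∀ s ∈ ball c ρ, ‖F s‖ ≤ B) ∧ ∀ s ∈ ball c ρ, 3 / 2 < s.re → pol p s * L s = F s

variable {d : ℕ}

theorem pol_diff (p : Fin (d + 1) → ℂ) : Differentiable ℂ (pol p) := by
  unfold pol
  fun_prop

theorem pol_bd (p : Fin (d + 1) → ℂ) {s : ℂ} {R : ℝ} (hs : ‖s‖ ≤ R) :
    ‖pol p s‖ ≤ ‖p‖ * ∑ i : Fin (d + 1), R ^ (i : ℕ) := by
  unfold pol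
  rw [Finset.mul_sum]
  refine (norm_sum_le _ _).trans (Finset.sum_le_sum fun i _ => ?_)
  rw [norm_mul, norm_pow]
  exact mul_le_mul (norm_le_pi_norm p i) (pow_le_pow_left₀ (norm_nonneg _) hs _) (by positivity)
    (norm_nonneg _)

theorem pol_sub (p q : Fin (d + 1) → ℂ) (s : ℂ) : pol p s - pol q s = pol (p - q) s := by
  unfold pol
  rw [← Finset.sum_sub_distrib]
  refine Finset.sum_congr rfl fun i _ => ?_
  rw [Pi.sub_apply]
  ring

theorem pol_finite {p : Fin (d + 1) → ℂ} (hp : ‖p‖ = 1) : {s | pol p s = 0}.Finite := by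
  classical
  set P : Polynomial ℂ := ∑ i : Fin (d + 1), Polynomial.C (p i) * Polynomial.X ^ (i : ℕ) with hP
  have h1 : ∀ s, P.eval s = pol p s := by
    intro s
    rw [hP, Polynomial.eval_finsetSum]
    unfold pol
    simp
  have h2 : P ≠ 0 := by
    intro h0
    have h3 : ∀ i : Fin (d + 1), p i = 0 := by
      intro i
      have h4 := congrArg (fun Q : Polynomial ℂ => Q.coeff i) h0
      simp only [hP, Polynomial.finsetSum_coeff, Polynomial.coeff_C_mul, Polynomial.coeff_X_pow,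
        Polynomial.coeff_zero] at h4
      rw [Finset.sum_eq_single i] at h4
      · simpa using h4
      · intro b _ hb
        rw [if_neg fun h => hb (Fin.ext h.symm), mul_zero]
      · intro h
        exact absurd (Finset.mem_univ i) h
    have h5 : p = 0 := funext h3
    rw [h5, norm_zero] at hp
    exact zero_ne_one hp
  refine (P.roots.toFinset.finite_toSet).subset fun s hs => ?_
  rw [Finset.mem_coe, Multiset.mem_toFinset, Polynomial.mem_roots h2, Polynomial.IsRoot.def, h1]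
  exact hs

/-- limits of functions with a bounded meromorphic continuation -/
theorem limit_ext {c : ℂ} {ρ B σ : ℝ} (hρ : 0 < ρ) (hσ : 3 / 2 < σ) (hc : σ < c.re) {L : ℂ → ℂ}
    (hL : DifferentiableOn ℂ L {s : ℂ | (3 / 2 : ℝ) < s.re}) {Lj : ℕ → ℂ → ℂ}
    (hLj : ∀ j, DifferentiableOn ℂ (Lj j) {s : ℂ | (3 / 2 : ℝ) < s.re})
    (hlim : ∀ ε : ℝ, 0 < ε → ∀ᶠ j in atTop, ∀ s : ℂ, σ ≤ s.re → ‖Lj j s - L s‖ ≤ ε)
    (hj : ∀ j, BMC d B c ρ (Lj j)) :
    ∃ (p : Fin (d + 1) → ℂ) (F : ℂ → ℂ), ‖p‖ = 1 ∧ DifferentiableOn ℂ F (ball c ρ) ∧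
      ∀ s ∈ ball c ρ, 3 / 2 < s.re → pol p s * L s = F s := by
  choose p F hp hF hFB hFe using hj
  obtain ⟨q, hq, φ, hφ, hφq⟩ := (isCompact_sphere (0 : Fin (d + 1) → ℂ) 1).tendsto_subseq
    (x := p) fun j => by rw [mem_sphere_zero_iff_norm]; exact hp j
  rw [mem_sphere_zero_iff_norm] at hq
  have hopen := isOpen_re (3 / 2 : ℝ)
  set G : ℂ → ℂ := fun s => pol q s * L s with hG
  have hGd : DifferentiableOn ℂ G {s : ℂ | (3 / 2 : ℝ) < s.re} :=
    (pol_diff q).differentiableOn.mul hL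
  set Gj : ℕ → ℂ → ℂ := fun j s => pol (p (φ j)) s * Lj (φ j) s with hGj
  have hGjd : ∀ j, DifferentiableOn ℂ (Gj j) {s : ℂ | (3 / 2 : ℝ) < s.re} := fun j =>
    (pol_diff _).differentiableOn.mul (hLj _)
  -- a small disc
  set η : ℝ := min (ρ / 2) (c.re - σ) with hη
  have hη0 : 0 < η := lt_min (by positivity) (by linarith)
  have hηρ : η < ρ := (min_le_left _ _).trans_lt (by linarith)
  have hsub : ∀ s ∈ closedBall c η, σ ≤ s.re := by
    intro s hs
    rw [mem_closedBall, dist_eq_norm] at hs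
    have h1 := (abs_le.1 ((Complex.abs_re_le_norm (s - c)).trans hs)).1
    rw [Complex.sub_re] at h1
    have h2 : η ≤ c.re - σ := min_le_right _ _
    linarith
  have hsub' : closedBall c η ⊆ {s : ℂ | (3 / 2 : ℝ) < s.re} := fun s hs => hσ.trans_le (hsub s hs)
  obtain ⟨CL, hCL⟩ := (isCompact_closedBall c η).exists_bound_of_continuousOn
    (hL.continuousOn.mono hsub')
  have hCL0 : 0 ≤ CL := (norm_nonneg _).trans (hCL c (mem_closedBall_self hη0.le))
  set P₀ : ℝ := ∑ i : Fin (d + 1), (‖c‖ + η) ^ (i : ℕ) with hP0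
  have hP00 : 0 ≤ P₀ := Finset.sum_nonneg fun i _ => by positivity
  have hnorm : ∀ s ∈ closedBall c η, ‖s‖ ≤ ‖c‖ + η := by
    intro s hs
    rw [mem_closedBall, dist_eq_norm] at hs
    have : s = c + (s - c) := by ring
    rw [this]
    exact (norm_add_le _ _).trans (add_le_add le_rfl hs)
  -- uniform convergence on the small disc
  have hunif : ∀ ε : ℝ, 0 < ε → ∀ᶠ j in atTop, ∀ s ∈ closedBall c η, ‖Gj j s - G s‖ ≤ ε := by
    intro ε hε
    set ε' : ℝ := min 1 (ε / (2 * (P₀ + 1) * (CL + 1))) with hε'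
    have hε'0 : 0 < ε' := lt_min one_pos (by positivity)
    have h1 : ∀ᶠ j in atTop, ‖p (φ j) - q‖ < ε' := by
      have := (tendsto_iff_norm_sub_tendsto_zero.1 hφq).eventually (gt_mem_nhds hε'0)
      exact this
    have h2 := hφ.tendsto_atTop.eventually (hlim ε' hε'0)
    filter_upwards [h1, h2] with j h3 h4 s hs
    have h5 := h4 s (hsub s hs)
    have h6 := pol_bd (p (φ j) - q) (hnorm s hs)
    have h7 := pol_bd q (hnorm s hs)
    rw [hq, one_mul] at h7
    have h8 : ‖Lj (φ j) s‖ ≤ CL + 1 := by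
      have h9 : Lj (φ j) s = L s + (Lj (φ j) s - L s) := by ring
      rw [h9]
      exact (norm_add_le _ _).trans (add_le_add (hCL s hs) (h5.trans (min_le_left _ _)))
    have h9 : Gj j s - G s = pol (p (φ j) - q) s * Lj (φ j) s + pol q s * (Lj (φ j) s - L s) := by
      rw [← pol_sub]
      simp only [hGj, hG]
      ring
    rw [h9]
    refine (norm_add_le _ _).trans ?_
    rw [norm_mul, norm_mul]
    have h10 : ‖pol (p (φ j) - q) s‖ * ‖Lj (φ j) s‖ ≤ (ε' * P₀) * (CL + 1) :=
      mul_le_mul (h6.trans (mul_le_mul_of_nonneg_right h3.le hP00)) h8 (norm_nonneg _) (by positivity)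
    have h11 : ‖pol q s‖ * ‖Lj (φ j) s - L s‖ ≤ P₀ * ε' :=
      mul_le_mul h7 h5 (norm_nonneg _) hP00
    have h12 : ε' * (2 * (P₀ + 1) * (CL + 1)) ≤ ε := by
      have : ε' ≤ ε / (2 * (P₀ + 1) * (CL + 1)) := min_le_right _ _
      rwa [le_div_iff₀ (by positivity)] at this
    have h13 : (ε' * P₀) * (CL + 1) + P₀ * ε' ≤ ε' * (2 * (P₀ + 1) * (CL + 1)) := by
      nlinarith [mul_nonneg hε'0.le hP00, mul_nonneg (mul_nonneg hε'0.le hP00) hCL0,
        mul_nonneg hε'0.le hCL0]
    linarith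
  -- the Taylor coefficients
  have hcη : c ∈ {s : ℂ | (3 / 2 : ℝ) < s.re} := hsub' (mem_closedBall_self hη0.le)
  have hcoef : ∀ (k : ℕ) (y : ℝ), 0 < y → y < ρ →
      ‖iteratedDeriv k G c‖ ≤ k.factorial * B / y ^ k := by
    intro k y hy hyρ
    have h1 : ∀ j, ‖iteratedDeriv k (Gj j) c‖ ≤ k.factorial * B / y ^ k := by
      intro j
      have h2 : Gj j =ᶠ[𝓝 c] F (φ j) := by
        filter_upwards [ball_mem_nhds c hρ, hopen.mem_nhds hcη] with s hs1 hs2
        exact hFe (φ j) s hs1 hs2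
      rw [h2.iteratedDeriv_eq]
      have h3 : closedBall c y ⊆ ball c ρ := closedBall_subset_ball hyρ
      refine norm_iteratedDeriv_le_of_forall_mem_sphere_norm_le k hy
        ((hF (φ j)).diffContOnCl_ball h3) fun z hz => hFB _ z (h3 (sphere_subset_closedBall hz))
    have h2 : Tendsto (fun j => iteratedDeriv k (Gj j) c) atTop (𝓝 (iteratedDeriv k G c)) := by
      rw [Metric.tendsto_nhds]
      intro ε hε
      have hk : (0 : ℝ) < k.factorial := by exact_mod_cast Nat.factorial_pos k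
      have h3 := hunif (ε * η ^ k / (2 * k.factorial)) (by positivity)
      filter_upwards [h3] with j h4
      have h5 : DifferentiableOn ℂ (Gj j - G) (closedBall c η) :=
        ((hGjd j).mono hsub').sub (hGd.mono hsub')
      have h6 := norm_iteratedDeriv_le_of_forall_mem_sphere_norm_le k hη0
        (h5.diffContOnCl_ball subset_rfl) fun z hz => h4 z (sphere_subset_closedBall hz)
      have h7 : iteratedDeriv k (Gj j - G) c = iteratedDeriv k (Gj j) c - iteratedDeriv k G c := by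
        refine iteratedDeriv_sub ?_ ?_
        · exact ((hGjd j).analyticAt (hopen.mem_nhds hcη)).contDiffAt
        · exact (hGd.analyticAt (hopen.mem_nhds hcη)).contDiffAt
      rw [dist_eq_norm, ← h7]
      refine h6.trans_lt ?_
      have h8 : (k.factorial : ℝ) * (ε * η ^ k / (2 * k.factorial)) / η ^ k = ε / 2 := by
        have := pow_pos hη0 k
        field_simp
      rw [h8]
      linarith
    exact le_of_tendsto' h2.norm h1
  set D : ℕ → ℂ := fun k => (k.factorial : ℂ)⁻¹ * iteratedDeriv k G c with hD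
  have hH := diff_of_coef (D := D) (r := ρ) (fun y hy hyρ => ⟨B, fun k => by
    have hk : (0 : ℝ) < k.factorial := by exact_mod_cast Nat.factorial_pos k
    have h1 := hcoef k y hy hyρ
    have hyk := pow_pos hy k
    rw [hD]
    simp only
    rw [norm_mul, norm_inv, Complex.norm_natCast]
    calc (k.factorial : ℝ)⁻¹ * ‖iteratedDeriv k G c‖ * y ^ k
        ≤ (k.factorial : ℝ)⁻¹ * (k.factorial * B / y ^ k) * y ^ k := by gcongr
      _ = B := by field_simp⟩) c
  refine ⟨q, fun s => ∑' k, D k * (s - c) ^ k, hq, hH, fun s hs hsr => ?_⟩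
  refine eq_on_convex (isOpen_ball.inter hopen) ((convex_ball c ρ).inter (convex_re (3 / 2)))
    (hGd.mono Set.inter_subset_right) (hH.mono Set.inter_subset_left) (z := c)
    ⟨mem_ball_self hρ, hcη⟩ ?_ ⟨hs, hsr⟩
  filter_upwards [ball_mem_nhds c hη0] with z hz
  have h1 := Complex.hasSum_taylorSeries_on_ball (c := c) (r := η) (f := G)
    (hGd.mono (ball_subset_closedBall.trans hsub')) hz
  refine (h1.tsum_eq.symm.trans (tsum_congr fun k => ?_))
  rw [hD, smul_eq_mul, smul_eq_mul]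
  ring

end Pool.Agent.W5h88.NB
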