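import Pool.Agent.W5h88.NB.Law
import Pool.Agent.W5h88.NB.Cls

/-!
# Bounded meromorphic continuations have density zero
-/

set_option autoImplicit false
set_option linter.unusedSectionVars false
set_option maxHeartbeats 400000

open MeasureTheory ProbabilityTheory Filter Topology Complex Polynomial Metric
open NumberField IsDedekindDomain Pool.Agent.H921R2.TatePole
open Pool.Agent.R409.RA (fieldQuot finiteQuot)

namespace Pool.Agent.W5h88.NB

open Pool.Agent.W5h26.AO Pool.Agent.W5h26.EP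

/-- no meromorphic continuation to a neighbourhood of any point of the line `Re s = b` -/
def NatBd (b : ℝ) (L : ℂ → ℂ) : Prop := ∀ τ : ℝ, ¬ ∃ H : ℂ → ℂ,
  MeromorphicAt H ((b : ℂ) + τ * I) ∧ ∀ᶠ s in 𝓝 ((b : ℂ) + τ * I), b < s.re → H s = L s

theorem natBd_shift {b : ℝ} {L : ℂ → ℂ} (h : NatBd b L) :
    NatBd (b + 1 / 2) fun s => L (s - 1 / 2) := by
  rintro τ ⟨H, hH, hHL⟩
  have e : (((b + 1 / 2 : ℝ) : ℂ) + τ * I) = ((b : ℂ) + τ * I) + 1 / 2 := by
    push_cast
    ring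
  refine h τ ⟨fun w => H (w + 1 / 2), ?_, ?_⟩
  · rw [e] at hH
    exact hH.comp_analyticAt (g := fun w : ℂ => w + 1 / 2) (by fun_prop)
  · have h1 : Tendsto (fun w : ℂ => w + 1 / 2) (𝓝 ((b : ℂ) + τ * I))
        (𝓝 (((b + 1 / 2 : ℝ) : ℂ) + τ * I)) := by
      rw [e]
      exact (continuous_id.add continuous_const).tendsto _
    filter_upwards [h1.eventually hHL] with w hw hwb
    have h2 : b + 1 / 2 < (w + 1 / 2).re := by
      have : (w + 1 / 2).re = w.re + 1 / 2 := by simp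
      rw [this]
      linarith
    rw [hw h2, add_sub_cancel_right]

/-- a natural boundary excludes rational continuations to discs -/
theorem no_ext {b : ℝ} {L : ℂ → ℂ} (h : NatBd b L) {d : ℕ} {c : ℂ} {ρ : ℝ} (hcb : b < c.re)
    (hcρ : c.re - ρ < b) {p : Fin (d + 1) → ℂ} {F : ℂ → ℂ} (hp : ‖p‖ = 1)
    (hF : DifferentiableOn ℂ F (ball c ρ))
    (hLF : ∀ s ∈ ball c ρ, b < s.re → pol p s * L s = F s) : False := by
  set t₀ : ℝ := √(ρ ^ 2 - (c.re - b) ^ 2) with ht0
  have h1 : 0 < ρ ^ 2 - (c.re - b) ^ 2 := by nlinarith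
  have ht00 : 0 < t₀ := Real.sqrt_pos.2 h1
  have hmem : ∀ t : ℝ, 0 < t → t < t₀ → ((b : ℂ) + ((c.im + t : ℝ) : ℂ) * I) ∈ ball c ρ := by
    intro t ht htt
    rw [mem_ball, dist_eq_norm]
    have h2 : ‖((b : ℂ) + ((c.im + t : ℝ) : ℂ) * I) - c‖ ^ 2 < ρ ^ 2 := by
      rw [← Complex.normSq_eq_norm_sq, Complex.normSq_apply]
      simp only [Complex.sub_re, Complex.add_re, Complex.ofReal_re, Complex.mul_re, Complex.I_re,
        mul_zero, Complex.ofReal_im, Complex.I_im, mul_one, sub_self, add_zero, Complex.sub_im,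
        Complex.add_im, Complex.mul_im, zero_add]
      have h3 : t ^ 2 < t₀ ^ 2 := pow_lt_pow_left₀ htt ht.le (by norm_num)
      rw [ht0, Real.sq_sqrt h1.le] at h3
      nlinarith
    exact lt_of_pow_lt_pow_left₀ 2 (by linarith) h2
  obtain ⟨t, ht, htt, htp⟩ : ∃ t : ℝ, 0 < t ∧ t < t₀ ∧
      pol p ((b : ℂ) + ((c.im + t : ℝ) : ℂ) * I) ≠ 0 := by
    by_contra hcon
    push Not at hcon
    have h2 : ((fun t : ℝ => (b : ℂ) + ((c.im + t : ℝ) : ℂ) * I) '' Set.Ioo 0 t₀) ⊆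
        {s | pol p s = 0} := by
      rintro _ ⟨t, ht, rfl⟩
      exact hcon t ht.1 ht.2
    have h3 : Function.Injective fun t : ℝ => (b : ℂ) + ((c.im + t : ℝ) : ℂ) * I := by
      intro t t' htt'
      have := congrArg Complex.im htt'
      simpa using this
    exact (((Set.Ioo_infinite ht00).image h3.injOn).mono h2) (pol_finite hp)
  set s₁ : ℂ := (b : ℂ) + ((c.im + t : ℝ) : ℂ) * I with hs1
  have hs1b := hmem t ht htt
  have hFa : AnalyticAt ℂ F s₁ := hF.analyticAt (isOpen_ball.mem_nhds hs1b)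
  have hpa : AnalyticAt ℂ (pol p) s₁ :=
    ((pol_diff p).differentiableOn (s := Set.univ)).analyticAt univ_mem
  refine h (c.im + t) ⟨fun s => F s / pol p s, (hFa.div hpa htp).meromorphicAt, ?_⟩
  filter_upwards [isOpen_ball.mem_nhds hs1b, hpa.continuousAt.eventually_ne htp] with s h2 h3 h4
  rw [← hLF s h2 h4]
  field_simp

section

variable {K : Type} [Field K] [NumberField K] {r n g : ℕ} {a : (𝓞 K)[X]} {α y : Fin r → 𝓞 K}
  (M : Mdl (HeightOneSpectrum (𝓞 K)) (Pt K n) (mu K n))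

theorem lf_diff (ω : Pt K n) : DifferentiableOn ℂ (LF M ω) {s : ℂ | (3 / 2 : ℝ) < s.re} := by
  intro s hs
  have hs' : (3 / 2 : ℝ) < s.re := hs
  have h1 : (1 : ℝ) < (s - 1 / 2).re := by
    have : (s - 1 / 2).re = s.re - 1 / 2 := by simp
    rw [this]
    linarith
  have h2 : DifferentiableAt ℂ (M.Lam ω) (s - 1 / 2) :=
    (M.lam_diff ω).differentiableAt ((isOpen_re 1).mem_nhds h1)
  have h3 : DifferentiableAt ℂ (fun s : ℂ => M.Lam ω (s - 1 / 2)) s :=
    DifferentiableAt.comp (g := M.Lam ω) (f := fun s : ℂ => s - 1 / 2) s h2 (by fun_prop)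
  exact h3.cexp.differentiableWithinAt

/-- almost everywhere continuation and natural boundary -/
theorem nb_ae : ∀ᵐ ω ∂(mu K n), ∃ L : ℂ → ℂ, DifferentiableOn ℂ L {s : ℂ | (1 : ℝ) < s.re} ∧
    (∀ s : ℂ, 1 < s.re → L s ≠ 0) ∧ (∀ s : ℂ, 3 / 2 < s.re → L s = LF M ω s) ∧ NatBd 1 L := by
  filter_upwards [M.main_ae] with ω hω
  obtain ⟨G, hG, hGe, hGn⟩ := hω
  refine ⟨fun s => cexp (G (s - 1 / 2)), ?_, fun s _ => Complex.exp_ne_zero _, fun s hs => ?_, ?_⟩
  · intro s hs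
    have hs' : (1 : ℝ) < s.re := hs
    have h1 : (1 / 2 : ℝ) < (s - 1 / 2).re := by
      have : (s - 1 / 2).re = s.re - 1 / 2 := by simp
      rw [this]
      linarith
    have h2 : DifferentiableAt ℂ G (s - 1 / 2) := hG.differentiableAt ((isOpen_re _).mem_nhds h1)
    have h3 : DifferentiableAt ℂ (fun s : ℂ => G (s - 1 / 2)) s :=
      DifferentiableAt.comp (g := G) (f := fun s : ℂ => s - 1 / 2) s h2 (by fun_prop)
    exact h3.cexp.differentiableWithinAt
  · have : 1 < (s - 1 / 2).re := by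
      have : (s - 1 / 2).re = s.re - 1 / 2 := by simp
      rw [this]
      linarith
    show cexp (G (s - 1 / 2)) = cexp (M.Lam ω (s - 1 / 2))
    rw [hGe _ this]
  · have h1 : NatBd (1 / 2) fun w => cexp (G w) := hGn
    have h2 := natBd_shift h1
    have e : (1 / 2 + 1 / 2 : ℝ) = 1 := by norm_num
    rw [e] at h2
    exact h2

/-- generic natural boundary -/
theorem nb_res (hcont : ∀ v m, Continuous (M.τ v m)) {c : ℝ} (hc : 0 < c)
    (hext : M.Ext c) : ∀ᶠ ω in residual (Pt K n), NatBd (3 / 2) (LF M ω) := by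
  filter_upwards [M.baire hcont hc hext] with ω hω
  have h1 : NatBd 1 fun w => cexp (M.Lam ω w) := hω
  have h2 := natBd_shift h1
  have e : (1 + 1 / 2 : ℝ) = 3 / 2 := by norm_num
  rw [e] at h2
  exact h2

/-- almost everywhere there is no rational continuation to a disc which meets `Re s < 1` -/
theorem no_ext_ae : ∀ᵐ ω ∂(mu K n), ∀ (d : ℕ) (c : ℂ) (ρ : ℝ), 3 / 2 < c.re → c.re - ρ < 1 →
    ¬ ∃ (p : Fin (d + 1) → ℂ) (F : ℂ → ℂ), ‖p‖ = 1 ∧ DifferentiableOn ℂ F (ball c ρ) ∧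
      ∀ s ∈ ball c ρ, 3 / 2 < s.re → pol p s * LF M ω s = F s := by
  filter_upwards [nb_ae M] with ω hω
  obtain ⟨L, hL, -, hLe, hLn⟩ := hω
  rintro d c ρ hc hρ ⟨p, F, hp, hF, hpF⟩
  refine no_ext hLn (by linarith) hρ hp hF ?_
  have hρ0 : 0 < ρ := by linarith
  intro s hs hs1
  refine eq_on_convex (F := fun s => pol p s * L s) (isOpen_ball.inter (isOpen_re 1))
    ((convex_ball c ρ).inter (convex_re 1))
    (((pol_diff p).differentiableOn.mul hL).mono Set.inter_subset_right)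
    (hF.mono Set.inter_subset_left) (z := c) ⟨mem_ball_self hρ0, by
      show (1 : ℝ) < c.re
      linarith⟩ ?_ ⟨hs, hs1⟩
  filter_upwards [ball_mem_nhds c hρ0, (isOpen_re (3 / 2)).mem_nhds hc] with z hz1 hz2
  rw [hLe z hz2]
  exact hpF z hz1 hz2

theorem mean_mono {A : Type} [AddCommGroup A] (F : Finset A) {f f' : A → ℝ} (h0 : ∀ x, 0 ≤ f x)
    (h : ∀ x, f x ≤ f' x) : ‖mean F fun x => (f x : ℂ)‖ ≤ ‖mean F fun x => (f' x : ℂ)‖ := by
  unfold mean
  rw [← Complex.ofReal_sum, ← Complex.ofReal_sum, norm_div, norm_div]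
  refine div_le_div_of_nonneg_right ?_ (norm_nonneg _)
  rw [Complex.norm_real, Complex.norm_real, Real.norm_eq_abs, Real.norm_eq_abs,
    abs_of_nonneg (Finset.sum_nonneg fun x _ => h0 x),
    abs_of_nonneg (Finset.sum_nonneg fun x _ => (h0 x).trans (h x))]
  exact Finset.sum_le_sum fun x _ => h x

open Classical in
/-- **Bounded meromorphic continuations have density zero.** -/
theorem dens_zero (hτ : ∀ v m ω, M.τ v m ω = tt a α v (ω v) m) (d : ℕ) (B : ℝ) {c : ℂ} {ρ : ℝ}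
    (hc : 3 / 2 < c.re) (hρ : c.re - ρ < 1) {F : ℕ → Finset (Fin n → 𝓞 K)}
    (hF : Pool.Agent.W5h26.AO.IsFolner F) :
    Tendsto (fun j => mean (F j) fun h =>
      if BMC d B c ρ (LF M fun v => rho v n h) then (1 : ℂ) else 0) atTop (𝓝 0) := by
  have hρ0 : 0 < ρ := by linarith
  obtain ⟨σ, hσ1, hσ2⟩ := exists_between hc
  set W : Finset (HeightOneSpectrum (𝓞 K)) → Set (Pt K n) := fun T =>
    T.restrict ⁻¹' {q | ∃ ω', BMC d B c ρ (LF M ω') ∧ T.restrict ω' = q} with hW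
  have hWm : ∀ T, MeasurableSet (W T) := fun T =>
    (Finset.measurable_restrict T) (MeasurableSet.of_discrete)
  obtain ⟨xs, hxm, hxt⟩ := exists_seq_monotone_tendsto_atTop_atTop
    (Finset (HeightOneSpectrum (𝓞 K)))
  have hanti : Antitone fun j => W (xs j) := by
    intro i j hij ω hω
    obtain ⟨ω', h1, h2⟩ := hω
    refine ⟨ω', h1, ?_⟩
    funext v
    exact congrFun h2 ⟨v.1, hxm hij v.2⟩
  have hnull : mu K n (⋂ j, W (xs j)) = 0 := by
    have h1 := no_ext_ae M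
    rw [ae_iff] at h1
    refine measure_mono_null (fun ω hω => ?_) h1
    rw [Set.mem_iInter] at hω
    choose ω' hω1 hω2 using hω
    show ¬ ∀ (d : ℕ) (c : ℂ) (ρ : ℝ), 3 / 2 < c.re → c.re - ρ < 1 →
      ¬ ∃ (p : Fin (d + 1) → ℂ) (F : ℂ → ℂ), ‖p‖ = 1 ∧ DifferentiableOn ℂ F (ball c ρ) ∧
      ∀ s ∈ ball c ρ, 3 / 2 < s.re → pol p s * LF M ω s = F s
    intro h2
    refine h2 d c ρ hc hρ ?_
    refine limit_ext (Lj := fun j => LF M (ω' j)) hρ0 hσ1 hσ2 (lf_diff M ω) (fun j => lf_diff M _)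
      (fun ε hε => ?_) hω1
    obtain ⟨T₀, hT₀⟩ := lf_close M hτ hσ1 hε
    filter_upwards [hxt.eventually (eventually_ge_atTop T₀)] with j hj s hs
    refine hT₀ (xs j) hj _ _ (fun v hv => ?_) s hs
    exact congrFun (hω2 j) ⟨v, hv⟩
  have hlim := tendsto_measure_iInter_atTop (μ := mu K n) (s := fun j => W (xs j))
    (fun j => (hWm _).nullMeasurableSet) hanti ⟨0, measure_ne_top _ _⟩
  rw [hnull] at hlim
  rw [Metric.tendsto_nhds]
  intro ε hε
  have h1 : Tendsto (fun j => (mu K n).real (W (xs j))) atTop (𝓝 0) := by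
    have h7 := (ENNReal.tendsto_toReal ENNReal.zero_ne_top).comp hlim
    rw [ENNReal.toReal_zero] at h7
    exact h7
  obtain ⟨j₀, hj₀⟩ := (h1.eventually (gt_mem_nhds hε)).exists
  set T := xs j₀ with hT
  set ψ : ((v : T) → Fin n → 𝓞 K ⧸ v.1.asIdeal) → ℝ := fun q =>
    if ∃ ω', BMC d B c ρ (LF M ω') ∧ T.restrict ω' = q then 1 else 0 with hψ
  have h2 := mean_periodic hF (rhoT T n) (rhoT_surj T n) fun q => (ψ q : ℂ)
  rw [← int_cyl] at h2
  have h3 : ∫ ω, (ψ (T.restrict ω) : ℂ) ∂(mu K n) = ((mu K n).real (W T) : ℂ) := by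
    have h4 : (fun ω : Pt K n => (ψ (T.restrict ω) : ℂ)) = (W T).indicator fun _ => (1 : ℂ) := by
      funext ω
      by_cases hω : ω ∈ W T
      · have hω' : ∃ ω', BMC d B c ρ (LF M ω') ∧ T.restrict ω' = T.restrict ω := hω
        rw [Set.indicator_of_mem hω, hψ]
        simp only
        rw [if_pos hω', Complex.ofReal_one]
      · have hω' : ¬ ∃ ω', BMC d B c ρ (LF M ω') ∧ T.restrict ω' = T.restrict ω := hω
        rw [Set.indicator_of_notMem hω, hψ]
        simp only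
        rw [if_neg hω', Complex.ofReal_zero]
    rw [h4, integral_indicator_const _ (hWm T), Complex.real_smul, mul_one]
  rw [h3] at h2
  have h4 := h2.norm
  rw [Complex.norm_real, Real.norm_eq_abs, abs_of_nonneg measureReal_nonneg] at h4
  filter_upwards [h4.eventually (gt_mem_nhds hj₀)] with j hj
  rw [dist_zero_right]
  refine lt_of_le_of_lt ?_ hj
  have h5 := mean_mono (F j) (f := fun h : Fin n → 𝓞 K =>
    if BMC d B c ρ (LF M fun v => rho v n h) then (1 : ℝ) else 0)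
    (f' := fun h => ψ (rhoT T n h)) (fun h => by positivity) fun h => by
      simp only [hψ]
      by_cases h6 : BMC d B c ρ (LF M fun v => rho v n h)
      · rw [if_pos h6, if_pos ⟨fun v => rho v n h, h6, rfl⟩]
      · rw [if_neg h6]
        positivity
  refine le_trans (le_of_eq ?_) h5
  congr 2
  funext h
  split_ifs <;> simp

/-- bounded continuation fails for some members, for every disc which meets `Re s < 3 / 2` -/
theorem exists_bad (ha : a.Monic) (hd : a.natDegree = 2 * g + 1) (hn : n + r ≤ 2 * g + 1)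
    (hτ : ∀ v m ω, M.τ v m ω = tt a α v (ω v) m)
    (hs : ∀ᶠ v : HeightOneSpectrum (𝓞 K) in cofinite,
      ∃ h : Fin n → 𝓞 K ⧸ v.asIdeal, tt a α v h 0 ≠ 0)
    (hcont : ∀ v m, Continuous (M.τ v m)) {e : ℝ} (he : 0 < e)
    (hext : M.Ext e) (d : ℕ) (B : ℝ) {c : ℂ} {ρ : ℝ}
    (hc : 3 / 2 < c.re) (hρ : c.re - ρ < 3 / 2) (h₀ : Fin n → 𝓞 K)
    (S : Finset (HeightOneSpectrum (𝓞 K))) :
    ∃ h : Fin n → 𝓞 K, ((mem a α h).map (algebraMap (𝓞 K) K)).Separable ∧
      (∀ v ∈ S, rho v n h = rho v n h₀) ∧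
      ¬ BMC d B c ρ (LF M fun v => rho v n h) := by
  by_contra hcon
  push Not at hcon
  have hρ0 : 0 < ρ := by linarith
  obtain ⟨σ, hσ1, hσ2⟩ := exists_between hc
  have hopen : IsOpen {ω : Pt K n | ∀ v ∈ S, ω v = rho v n h₀} := by
    have h1 : {ω : Pt K n | ∀ v ∈ S, ω v = rho v n h₀} =
        ⋂ v ∈ S, (fun ω : Pt K n => ω v) ⁻¹' {rho v n h₀} := by
      ext ω
      simp
    rw [h1]
    exact isOpen_biInter_finset fun v _ => (isOpen_discrete _).preimage (continuous_apply v)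
  obtain ⟨ω, hωS, hω⟩ := (dense_of_mem_residual (nb_res M hcont he hext)).inter_open_nonempty _
    hopen ⟨fun v => rho v n h₀, fun v _ => rfl⟩
  choose h hh1 hhS hh2 using fun j : ℕ => dense M ha hd hn hτ hs hσ1
    (show (0 : ℝ) < 1 / ((j : ℝ) + 1) by positivity) ω S
  obtain ⟨p, F, hp, hF, hpF⟩ := limit_ext (d := d) (B := B)
    (Lj := fun j => LF M fun v => rho v n (h j)) hρ0 hσ1 hσ2
    (lf_diff M ω) (fun j => lf_diff M _) (fun ε hε => by
      have h1 := tendsto_one_div_add_atTop_nhds_zero_nat (𝕜 := ℝ)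
      filter_upwards [h1.eventually (gt_mem_nhds hε)] with j hj s hs
      exact (hh2 j s hs).trans hj.le) fun j => hcon _ (hh1 j) fun v hv => by
        rw [hhS j v hv]
        exact hωS v hv
  exact no_ext hω hc hρ hp hF hpF

end

end Pool.Agent.W5h88.NB
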