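import Pool.Agent.W5h88.NB.Conc
import Pool.Agent.W5h88.NB.Den
import Pool.Agent.W5h26.CL.Mert

/-!
# The partial products of Birch and Swinnerton-Dyer at the points of the parameter space
-/

set_option autoImplicit false
set_option linter.unusedSectionVars false
set_option maxHeartbeats 400000

open MeasureTheory ProbabilityTheory Filter Topology Polynomial
open NumberField IsDedekindDomain Pool.Agent.H921R2.TatePole
open Pool.Agent.R409.RA (fieldQuot finiteQuot)

namespace Pool.Agent.W5h88.NB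

open Pool.Agent.W5h26.AO Pool.Agent.W5h26.EP Pool.Agent.W5h26.CL

section

variable {K : Type} [Field K] [NumberField K] {n : ℕ}

/-- the density of a set which is defined by finitely many coordinates -/
theorem dens_cyl {A : Set (Pt K n)} {T : Finset (HeightOneSpectrum (𝓞 K))}
    (hA : ∀ ω ω' : Pt K n, (∀ v ∈ T, ω v = ω' v) → ω ∈ A → ω' ∈ A)
    {F : ℕ → Finset (Fin n → 𝓞 K)} (hF : Pool.Agent.W5h26.AO.IsFolner F) :
    Tendsto (fun j => mean (F j) fun h =>
      ((A.indicator (fun _ => (1 : ℝ)) (fun v => rho v n h) : ℝ) : ℂ)) atTop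
      (𝓝 (((mu K n).real A : ℝ) : ℂ)) := by
  classical
  set χ : Pt K n → ℝ := A.indicator fun _ => (1 : ℝ) with hχ
  have hext : ∀ ω : Pt K n, χ ω = χ (extz T (T.restrict ω)) := by
    intro ω
    have h1 : ∀ v ∈ T, ω v = extz T (T.restrict ω) v := fun v hv =>
      (extz_eq T (T.restrict ω) hv).symm
    have h2 : ω ∈ A ↔ extz T (T.restrict ω) ∈ A :=
      ⟨hA _ _ h1, hA _ _ fun v hv => (h1 v hv).symm⟩
    rw [hχ]
    by_cases h : ω ∈ A
    · rw [Set.indicator_of_mem h, Set.indicator_of_mem (h2.1 h)]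
    · rw [Set.indicator_of_notMem h, Set.indicator_of_notMem fun h0 => h (h2.2 h0)]
  have h2 := mean_periodic hF (rhoT T n) (rhoT_surj T n) fun q => (χ (extz T q) : ℂ)
  rw [← int_cyl] at h2
  have h3 : ∫ ω, (χ (extz T (T.restrict ω)) : ℂ) ∂(mu K n) = (((mu K n).real A : ℝ) : ℂ) := by
    have hAm : MeasurableSet A := by
      have : A = T.restrict ⁻¹' {q | extz T q ∈ A} := by
        ext ω
        have h1 : ∀ v ∈ T, ω v = extz T (T.restrict ω) v := fun v hv =>
          (extz_eq T (T.restrict ω) hv).symm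
        exact ⟨hA _ _ h1, hA _ _ fun v hv => (h1 v hv).symm⟩
      rw [this]
      exact (Finset.measurable_restrict T) MeasurableSet.of_discrete
    simp_rw [← hext]
    rw [integral_complex_ofReal, hχ, integral_indicator_const _ hAm, smul_eq_mul, mul_one]
  rw [h3] at h2
  refine h2.congr fun j => ?_
  unfold mean
  congr 1
  refine Finset.sum_congr rfl fun h _ => ?_
  show ((χ (extz T (rhoT T n h)) : ℝ) : ℂ) = ((χ (fun v => rho v n h) : ℝ) : ℂ)
  rw [hext fun v => rho v n h]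
  rfl

open Classical in
/-- sets of density zero -/
theorem dens_zero_of {E : (Fin n → 𝓞 K) → Prop} {θ : ℝ} (hθ1 : θ < 1)
    (h : ∀ J : ℕ, ∃ (A : Set (Pt K n)) (T : Finset (HeightOneSpectrum (𝓞 K))),
      (∀ ω ω' : Pt K n, (∀ v ∈ T, ω v = ω' v) → ω ∈ A → ω' ∈ A) ∧
      (∀ x, E x → (fun v => rho v n x) ∈ A) ∧ (mu K n).real A ≤ θ ^ J)
    {F : ℕ → Finset (Fin n → 𝓞 K)} (hF : Pool.Agent.W5h26.AO.IsFolner F) :
    Tendsto (fun j => mean (F j) fun x => if E x then (1 : ℂ) else 0) atTop (𝓝 0) := by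
  rw [Metric.tendsto_nhds]
  intro ε hε
  obtain ⟨J, hJ⟩ := exists_pow_lt_of_lt_one hε hθ1
  obtain ⟨A, T, h1, h2, h3⟩ := h J
  have h4 := (dens_cyl h1 hF).norm
  rw [Complex.norm_real, Real.norm_eq_abs, abs_of_nonneg measureReal_nonneg] at h4
  filter_upwards [h4.eventually (gt_mem_nhds (h3.trans_lt hJ))] with j hj
  rw [dist_zero_right]
  refine lt_of_le_of_lt ?_ hj
  have h5 := mean_mono (F j) (f := fun x : Fin n → 𝓞 K => if E x then (1 : ℝ) else 0)
    (f' := fun x => A.indicator (fun _ => (1 : ℝ)) fun v => rho v n x)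
    (fun x => by positivity) fun x => by
      by_cases h6 : E x
      · simp only [if_pos h6]
        rw [Set.indicator_of_mem (h2 x h6)]
      · simp only [if_neg h6]
        exact Set.indicator_nonneg (fun _ _ => zero_le_one) _
  refine le_trans (le_of_eq ?_) h5
  congr 2
  funext x
  split_ifs <;> simp

theorem log_near {u : ℝ} (hu : |u| ≤ 1 / 2) : |Real.log (1 + u) - u| ≤ 2 * u ^ 2 := by
  have h1 := abs_le.1 hu
  have h2 : 0 < 1 + u := by linarith
  have h3 := Real.log_le_sub_one_of_pos h2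
  have h4 := Real.log_le_sub_one_of_pos (inv_pos.2 h2)
  rw [Real.log_inv] at h4
  have h5 : (1 + u)⁻¹ - 1 ≤ -u + 2 * u ^ 2 := by
    have h6 : (1 + u)⁻¹ - 1 = -u + u ^ 2 * (1 + u)⁻¹ := by
      field_simp
      ring
    rw [h6]
    have h7 : (1 + u)⁻¹ ≤ 2 := by
      rw [inv_le_comm₀ h2 (by norm_num)]
      linarith
    have h8 : u ^ 2 * (1 + u)⁻¹ ≤ u ^ 2 * 2 := mul_le_mul_of_nonneg_left h7 (sq_nonneg u)
    linarith
  rw [abs_le]
  constructor
  · linarith
  · have : 0 ≤ u ^ 2 := sq_nonneg u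
    linarith

end

section

variable {Ω : Type} [MeasurableSpace Ω] {μ : Measure Ω} [IsProbabilityMeasure μ]

theorem var_near {Z τ : Ω → ℝ} (hZ : Measurable Z) (hτ : Measurable τ) {b C q : ℝ} (hq : 0 < q)
    (hb : ∀ ω, |τ ω| ≤ b) (h : ∀ ω, |Z ω + τ ω / √q| ≤ C / q)
    (hv : 1 / 2 ≤ ∫ ω, (τ ω - ∫ ω', τ ω' ∂μ) ^ 2 ∂μ) (hC : 32 * C ^ 2 ≤ q) :
    1 / 8 * q⁻¹ ≤ ∫ ω, (Z ω - ∫ ω', Z ω' ∂μ) ^ 2 ∂μ := by
  have hsq : 0 < √q := Real.sqrt_pos.2 hq
  set E : Ω → ℝ := fun ω => Z ω + τ ω / √q with hE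
  have hEm : Measurable E := hZ.add (hτ.div_const _)
  have iτ : Integrable τ μ := int_of_bd hτ fun ω => hb ω
  have iE : Integrable E μ := int_of_bd hEm fun ω => h ω
  have hZE : ∀ ω, Z ω = E ω - τ ω / √q := fun ω => by rw [hE]; ring
  have hZi : ∫ ω, Z ω ∂μ = (∫ ω, E ω ∂μ) - (∫ ω, τ ω ∂μ) / √q := by
    simp_rw [hZE]
    rw [integral_sub iE (iτ.div_const _), integral_div]
  set e : ℝ := ∫ ω, E ω ∂μ with he
  set t : ℝ := ∫ ω, τ ω ∂μ with ht
  have heb : |e| ≤ C / q := by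
    have := norm_integral_le_of_norm_le_const (μ := μ) (f := E) (C := C / q)
      (ae_of_all _ fun ω => h ω)
    rwa [probReal_univ, mul_one] at this
  have htb : |t| ≤ b := by
    have := norm_integral_le_of_norm_le_const (μ := μ) (f := τ) (C := b)
      (ae_of_all _ fun ω => hb ω)
    rwa [probReal_univ, mul_one] at this
  have hpt : ∀ ω, (τ ω - t) ^ 2 / (2 * q) - (2 * (C / q)) ^ 2 ≤ (Z ω - ∫ ω', Z ω' ∂μ) ^ 2 := by
    intro ω
    rw [hZi, hZE]
    have h1 : |E ω - e| ≤ 2 * (C / q) := by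
      have := abs_sub (E ω) e
      have h2 := h ω
      linarith
    have h2 : (E ω - e) ^ 2 ≤ (2 * (C / q)) ^ 2 := by
      rw [← sq_abs]
      exact pow_le_pow_left₀ (abs_nonneg _) h1 2
    have h3 : ((τ ω - t) / √q) ^ 2 = (τ ω - t) ^ 2 / q := by
      rw [div_pow, Real.sq_sqrt hq.le]
    have h4 : (E ω - τ ω / √q - (e - t / √q)) ^ 2 = ((E ω - e) - (τ ω - t) / √q) ^ 2 := by ring
    rw [h4]
    have h5 : (τ ω - t) ^ 2 / (2 * q) = ((τ ω - t) / √q) ^ 2 / 2 := by
      rw [h3]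
      ring
    rw [h5]
    nlinarith [sq_nonneg ((E ω - e) * 2 - (τ ω - t) / √q)]
  have i1 : Integrable (fun ω => (τ ω - t) ^ 2 / (2 * q) - (2 * (C / q)) ^ 2) μ := by
    refine Integrable.sub (Integrable.div_const (int_of_bd ((hτ.sub_const t).pow_const 2)
      (C := (2 * b) ^ 2) fun ω => ?_) _) (integrable_const _)
    rw [norm_pow, Real.norm_eq_abs]
    refine pow_le_pow_left₀ (abs_nonneg _) ?_ 2
    have := abs_sub (τ ω) t
    have h2 := hb ω
    linarith
  have hZb : ∀ ω, |Z ω| ≤ C / q + b / √q := by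
    intro ω
    rw [hZE]
    have h1 := abs_sub (E ω) (τ ω / √q)
    have h2 : |τ ω / √q| ≤ b / √q := by
      rw [abs_div, abs_of_pos hsq]
      exact div_le_div_of_nonneg_right (hb ω) hsq.le
    have h3 := h ω
    linarith
  have i2 : Integrable (fun ω => (Z ω - ∫ ω', Z ω' ∂μ) ^ 2) μ := by
    refine int_of_bd ((hZ.sub_const _).pow_const 2) (C := (2 * (C / q + b / √q)) ^ 2) fun ω => ?_
    rw [norm_pow, Real.norm_eq_abs]
    refine pow_le_pow_left₀ (abs_nonneg _) ?_ 2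
    have h1 := abs_sub (Z ω) (∫ ω', Z ω' ∂μ)
    have h2 := hZb ω
    have h3 := norm_integral_le_of_norm_le_const (μ := μ) (f := Z) (C := C / q + b / √q)
      (ae_of_all _ fun ω => hZb ω)
    rw [probReal_univ, mul_one, Real.norm_eq_abs] at h3
    linarith
  have h1 := integral_mono i1 i2 hpt
  rw [integral_sub (Integrable.div_const (int_of_bd ((hτ.sub_const t).pow_const 2)
      (C := (2 * b) ^ 2) fun ω => by
        rw [norm_pow, Real.norm_eq_abs]
        refine pow_le_pow_left₀ (abs_nonneg _) ?_ 2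
        have := abs_sub (τ ω) t
        have h2 := hb ω
        linarith) _) (integrable_const _), integral_div, integral_const, probReal_univ,
    smul_eq_mul, one_mul] at h1
  refine le_trans ?_ h1
  have h2 : 1 / 2 / (2 * q) ≤ (∫ ω, (τ ω - t) ^ 2 ∂μ) / (2 * q) :=
    div_le_div_of_nonneg_right hv (by positivity)
  have h3 : (2 * (C / q)) ^ 2 ≤ 1 / 8 * q⁻¹ := by
    have h4 : (2 * (C / q)) ^ 2 = 4 * C ^ 2 / q * q⁻¹ := by
      field_simp
      ring
    rw [h4]
    refine mul_le_mul_of_nonneg_right ?_ (inv_nonneg.2 hq.le)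
    rw [div_le_iff₀ hq]
    linarith
  have h4 : (1 : ℝ) / 2 / (2 * q) = 1 / 4 * q⁻¹ := by
    field_simp
    norm_num
  rw [h4] at h2
  linarith

end

section

variable {K : Type} [Field K] [NumberField K] {r n g : ℕ} {a : (𝓞 K)[X]} {α : Fin r → 𝓞 K}

open Classical in
/-- the logarithm of the number of points over the norm -/
noncomputable def Zl (a : (𝓞 K)[X]) (α : Fin r → 𝓞 K) (v : HeightOneSpectrum (𝓞 K))
    (h : Fin n → 𝓞 K ⧸ v.asIdeal) : ℝ :=
  if (2 : 𝓞 K) ∉ v.asIdeal ∧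
      (mem (red v a) (fun j => Ideal.Quotient.mk v.asIdeal (α j)) h).Separable then
    Real.log (((nm v : ℝ) - tr (mem (red v a) (fun j => Ideal.Quotient.mk v.asIdeal (α j)) h) 1 + 1) /
      nm v) else 0

theorem zl_near (ha : a.Monic) (hd : a.natDegree = 2 * g + 1) (hn : n + r ≤ 2 * g + 1)
    {v : HeightOneSpectrum (𝓞 K)} (hv : (2 * (2 * (g : ℝ) + 1)) ^ 2 ≤ nm v)
    (h : Fin n → 𝓞 K ⧸ v.asIdeal) :
    |Zl a α v h + tt a α v h 0 / √(nm v : ℝ)| ≤ (2 * (2 * (g : ℝ) + 1) ^ 2 + 1) / nm v := by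
  have hq := nm_pos v
  have hsq := sqrt_pos v
  have hsq2 : √(nm v : ℝ) ^ 2 = nm v := Real.sq_sqrt hq.le
  have hs1 : 1 ≤ √(nm v : ℝ) := Real.one_le_sqrt.2 (nm1 v)
  have htb := tt_bd (α := α) ha hd hn v h 0
  have hg0 : (0 : ℝ) ≤ g := Nat.cast_nonneg g
  set f := mem (red v a) (fun j => Ideal.Quotient.mk v.asIdeal (α j)) h with hf
  by_cases hgood : (2 : 𝓞 K) ∉ v.asIdeal ∧ f.Separable
  · have h1 : tt a α v h 0 = (tr f 1 : ℝ) / √(nm v : ℝ) := by
      unfold tt gtr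
      rw [if_pos ⟨(char_two v).2 hgood.1, hgood.2⟩, hf]
      simp only [zero_add, pow_one]
    have h2 : Zl a α v h = Real.log (1 + (-(tt a α v h 0) / √(nm v : ℝ) + 1 / nm v)) := by
      unfold Zl
      rw [if_pos hgood]
      congr 1
      rw [h1, ← hf, neg_div, div_div, ← sq, hsq2]
      field_simp
      ring
    set u : ℝ := -(tt a α v h 0) / √(nm v : ℝ) + 1 / nm v with hu
    have hub : |u| ≤ (2 * g + 1) / √(nm v : ℝ) := by
      have h3 : |(-(tt a α v h 0) / √(nm v : ℝ))| ≤ 2 * g / √(nm v : ℝ) := by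
        rw [abs_div, abs_neg, abs_of_pos hsq]
        exact div_le_div_of_nonneg_right htb hsq.le
      have h4 : |(1 : ℝ) / nm v| ≤ 1 / √(nm v : ℝ) := by
        rw [abs_of_pos (by positivity)]
        refine one_div_le_one_div_of_le hsq ?_
        nlinarith
      have h5 := abs_add_le (-(tt a α v h 0) / √(nm v : ℝ)) (1 / (nm v : ℝ))
      rw [add_div]
      linarith
    have hsb : 2 * (2 * (g : ℝ) + 1) ≤ √(nm v : ℝ) := Real.le_sqrt_of_sq_le hv
    have hu2 : |u| ≤ 1 / 2 := by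
      refine hub.trans ?_
      rw [div_le_iff₀ hsq]
      linarith
    have h6 := log_near hu2
    have h7 : u ^ 2 ≤ (2 * g + 1) ^ 2 / nm v := by
      have := pow_le_pow_left₀ (abs_nonneg _) hub 2
      rwa [sq_abs, div_pow, hsq2] at this
    have h8 : Zl a α v h + tt a α v h 0 / √(nm v : ℝ) = (Real.log (1 + u) - u) + 1 / nm v := by
      rw [h2, hu]
      ring
    rw [h8]
    refine (abs_add_le _ _).trans ?_
    rw [abs_of_pos (show (0 : ℝ) < 1 / nm v by positivity), add_div, mul_div_assoc]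
    linarith
  · have h1 : tt a α v h 0 = 0 := by
      unfold tt gtr
      rw [if_neg fun h0 => hgood ⟨(char_two v).1 h0.1, h0.2⟩, zero_div]
    have h2 : Zl a α v h = 0 := by
      unfold Zl
      rw [if_neg hgood]
    rw [h1, h2, zero_div, add_zero, abs_zero]
    positivity

/-- the logarithm of the partial product -/
noncomputable def Sx (a : (𝓞 K)[X]) (α : Fin r → 𝓞 K) (ω : Pt K n) (x : ℝ) : ℝ :=
  ∑ v ∈ PX K x, Zl a α v (ω v)

open Classical in
theorem sx_second (ω : Pt K n) {x y z : ℝ} (hxy : x ≤ y) (hyz : y ≤ z) :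
    ∑ v ∈ PX K z \ PX K x, (if (nm v : ℝ) ≤ y then (-1 : ℝ) else 1) * Zl a α v (ω v) =
      Sx a α ω z - 2 * Sx a α ω y + Sx a α ω x := by
  have s1 : PX K x ⊆ PX K y := fun v hv => mem_PX.2 ((mem_PX.1 hv).trans hxy)
  have s2 : PX K y ⊆ PX K z := fun v hv => mem_PX.2 ((mem_PX.1 hv).trans hyz)
  have h1 : PX K z \ PX K x = (PX K z \ PX K y) ∪ (PX K y \ PX K x) := by
    ext v
    simp only [Finset.mem_sdiff, Finset.mem_union]
    constructor
    · rintro ⟨h1, h2⟩
      by_cases h3 : v ∈ PX K y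
      · exact Or.inr ⟨h3, h2⟩
      · exact Or.inl ⟨h1, h3⟩
    · rintro (⟨h1, h2⟩ | ⟨h1, h2⟩)
      · exact ⟨h1, fun h3 => h2 (s1 h3)⟩
      · exact ⟨s2 h1, h2⟩
  have h2 : Disjoint (PX K z \ PX K y) (PX K y \ PX K x) := by
    rw [Finset.disjoint_left]
    intro v hv hv'
    rw [Finset.mem_sdiff] at hv hv'
    exact hv.2 hv'.1
  rw [h1, Finset.sum_union h2]
  have h3 : ∑ v ∈ PX K z \ PX K y, (if (nm v : ℝ) ≤ y then (-1 : ℝ) else 1) * Zl a α v (ω v) =
      Sx a α ω z - Sx a α ω y := by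
    have h4 := Finset.sum_sdiff (f := fun v => Zl a α v (ω v)) s2
    unfold Sx
    rw [← h4, add_sub_cancel_right]
    refine Finset.sum_congr rfl fun v hv => ?_
    rw [Finset.mem_sdiff, mem_PX, mem_PX] at hv
    rw [if_neg hv.2, one_mul]
  have h4 : ∑ v ∈ PX K y \ PX K x, (if (nm v : ℝ) ≤ y then (-1 : ℝ) else 1) * Zl a α v (ω v) =
      -(Sx a α ω y - Sx a α ω x) := by
    have h4 := Finset.sum_sdiff (f := fun v => Zl a α v (ω v)) s1
    unfold Sx
    rw [← h4, add_sub_cancel_right, ← Finset.sum_neg_distrib]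
    refine Finset.sum_congr rfl fun v hv => ?_
    rw [Finset.mem_sdiff, mem_PX, mem_PX] at hv
    rw [if_pos hv.1, neg_one_mul]
  rw [h3, h4]
  ring

end

end Pool.Agent.W5h88.NB
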