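import Pool.Agent.W5h88.NB.Prob

/-!
# Sums over disjoint blocks of independent variables are not concentrated
-/

set_option autoImplicit false
set_option linter.unusedSectionVars false
set_option maxHeartbeats 400000

open MeasureTheory ProbabilityTheory Filter Topology

namespace Pool.Agent.W5h88.NB

variable {V Ω : Type} [MeasurableSpace Ω] {μ : Measure Ω} [IsProbabilityMeasure μ]

/-- the constant -/
noncomputable def kap (C c : ℝ) : ℝ := 3 + (2 * C) ^ 4 / c ^ 2

/-- the loss -/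
noncomputable def eta (C c : ℝ) : ℝ := 1 / (64 * kap C c)

theorem kap_ge (C c : ℝ) : 3 ≤ kap C c := by
  unfold kap
  have : 0 ≤ (2 * C) ^ 4 / c ^ 2 := by positivity
  linarith

theorem eta_pos (C c : ℝ) : 0 < eta C c := by
  unfold eta
  have := kap_ge C c
  positivity

theorem eta_le (C c : ℝ) : eta C c ≤ 1 := by
  unfold eta
  have := kap_ge C c
  rw [div_le_one (by positivity)]
  linarith

theorem block_conc {Z : V → Ω → ℝ} (hZm : ∀ v, Measurable (Z v)) (hind : iIndepFun Z μ)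
    {C c : ℝ} (hC : 0 ≤ C) (hc : 0 < c) {w : V → ℝ} (hw : ∀ v, 0 < w v) {B : Finset V}
    (hB : ∀ v ∈ B, (∀ ω, |Z v ω| ≤ C * √(w v)) ∧
      c * w v ≤ ∫ ω, (Z v ω - ∫ ω', Z v ω' ∂μ) ^ 2 ∂μ)
    {s : V → ℝ} (hs : ∀ v, s v = 1 ∨ s v = -1) {ε : ℝ} (hε : 0 ≤ ε)
    (hV : 16 * ε ^ 2 < c * ∑ v ∈ B, w v) :
    μ.real {ω | |∑ v ∈ B, s v * Z v ω| ≤ ε} ≤ 1 - eta C c := by
  classical
  set κ : ℝ := kap C c with hκ
  have hκ3 : 3 ≤ κ := kap_ge C c
  set m : V → ℝ := fun v => ∫ ω, Z v ω ∂μ with hm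
  set g : V → ℝ → ℂ := fun v x => if v ∈ B then ((s v * (x - m v) : ℝ) : ℂ) else 0 with hg
  set Y : V → Ω → ℂ := fun v ω => g v (Z v ω) with hY
  have hgm : ∀ v, Measurable (g v) := by
    intro v
    by_cases hv : v ∈ B
    · have : g v = fun x => ((s v * (x - m v) : ℝ) : ℂ) := by
        funext x
        simp only [hg, if_pos hv]
      rw [this]
      exact Complex.measurable_ofReal.comp (by fun_prop)
    · have : g v = fun _ => (0 : ℂ) := by
        funext x
        simp only [hg, if_neg hv]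
      rw [this]
      exact measurable_const
  have hYm : ∀ v, Measurable (Y v) := fun v => (hgm v).comp (hZm v)
  have hYi : iIndepFun Y μ := hind.comp g hgm
  have hs2 : ∀ v, s v ^ 2 = 1 := by
    intro v
    rcases hs v with h | h <;> rw [h] <;> norm_num
  have hsa : ∀ v, |s v| = 1 := by
    intro v
    rcases hs v with h | h <;> rw [h] <;> norm_num
  have hZi : ∀ v ∈ B, Integrable (Z v) μ := fun v hv => int_of_bd (hZm v) fun ω => (hB v hv).1 ω
  have hmb : ∀ v ∈ B, |m v| ≤ C * √(w v) := by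
    intro v hv
    have := norm_integral_le_of_norm_le_const (μ := μ) (f := Z v) (C := C * √(w v))
      (ae_of_all _ fun ω => (hB v hv).1 ω)
    rwa [probReal_univ, mul_one] at this
  have hYn : ∀ v ∈ B, ∀ ω, ‖Y v ω‖ = |Z v ω - m v| := by
    intro v hv ω
    show ‖g v (Z v ω)‖ = _
    simp only [hg, if_pos hv]
    rw [Complex.norm_real, Real.norm_eq_abs, abs_mul, hsa, one_mul]
  have hY0 : ∀ v, v ∉ B → ∀ ω, Y v ω = 0 := by
    intro v hv ω
    show g v (Z v ω) = 0
    simp only [hg, if_neg hv]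
  have hYb : ∀ v ω, ‖Y v ω‖ ≤ 2 * C * √(w v) := by
    intro v ω
    by_cases hv : v ∈ B
    · rw [hYn v hv]
      have h1 := abs_sub (Z v ω) (m v)
      have h2 := (hB v hv).1 ω
      have h3 := hmb v hv
      linarith
    · rw [hY0 v hv, norm_zero]
      positivity
  have hYz : ∀ v, ∫ ω, Y v ω ∂μ = 0 := by
    intro v
    by_cases hv : v ∈ B
    · have h1 : Y v = fun ω => ((s v * (Z v ω - m v) : ℝ) : ℂ) := by
        funext ω
        show g v (Z v ω) = _
        simp only [hg, if_pos hv]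
      rw [h1, integral_complex_ofReal, integral_const_mul,
        integral_sub (hZi v hv) (integrable_const _), integral_const, probReal_univ, smul_eq_mul,
        one_mul]
      simp [hm]
    · simp_rw [hY0 v hv, integral_zero]
  have hvar : ∀ v ∈ B, c * w v ≤ ∫ ω, ‖Y v ω‖ ^ 2 ∂μ := by
    intro v hv
    have h1 : ∫ ω, ‖Y v ω‖ ^ 2 ∂μ = ∫ ω, (Z v ω - m v) ^ 2 ∂μ := by
      congr 1
      funext ω
      rw [hYn v hv, sq_abs]
    rw [h1]
    exact (hB v hv).2
  have h4 : ∀ v, ∫ ω, ‖Y v ω‖ ^ 4 ∂μ ≤ κ * (∫ ω, ‖Y v ω‖ ^ 2 ∂μ) ^ 2 := by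
    intro v
    by_cases hv : v ∈ B
    · have h1 : ∫ ω, ‖Y v ω‖ ^ 4 ∂μ ≤ (2 * C * √(w v)) ^ 4 := by
        have h2 : ∫ ω, ‖Y v ω‖ ^ 4 ∂μ ≤ ∫ _ω, (2 * C * √(w v)) ^ 4 ∂μ := by
          refine integral_mono (int_of_bd ((hYm v).norm.pow_const 4) (C := (2 * C * √(w v)) ^ 4)
            fun ω => ?_) (integrable_const _) fun ω => ?_
          · rw [norm_pow, norm_norm]
            exact pow_le_pow_left₀ (norm_nonneg _) (hYb v ω) 4
          · exact pow_le_pow_left₀ (norm_nonneg _) (hYb v ω) 4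
        rwa [integral_const, probReal_univ, smul_eq_mul, one_mul] at h2
      have h3 : (2 * C * √(w v)) ^ 4 = (2 * C) ^ 4 * w v ^ 2 := by
        rw [mul_pow]
        congr 1
        have : √(w v) ^ 4 = (√(w v) ^ 2) ^ 2 := by ring
        rw [this, Real.sq_sqrt (hw v).le]
      rw [h3] at h1
      have h5 : (c * w v) ^ 2 ≤ (∫ ω, ‖Y v ω‖ ^ 2 ∂μ) ^ 2 :=
        pow_le_pow_left₀ (mul_nonneg hc.le (hw v).le) (hvar v hv) 2
      have h6 : (2 * C) ^ 4 * w v ^ 2 ≤ κ * (c * w v) ^ 2 := by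
        have h7 : κ * (c * w v) ^ 2 = (3 * c ^ 2 + (2 * C) ^ 4) * w v ^ 2 := by
          rw [hκ]
          unfold kap
          field_simp
        rw [h7]
        refine mul_le_mul_of_nonneg_right ?_ (sq_nonneg _)
        have : 0 ≤ 3 * c ^ 2 := by positivity
        linarith
      exact h1.trans (h6.trans (mul_le_mul_of_nonneg_left h5 (by linarith)))
    · have h1 : ∀ ω, Y v ω = 0 := hY0 v hv
      simp [h1]
  obtain ⟨f1, f2, f3⟩ := finset_mom (μ := μ) hYm hYb hYi hYz B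
  have f4 := f3 κ hκ3 h4
  rw [← f2] at f4
  set S : Ω → ℂ := fun ω => ∑ v ∈ B, Y v ω with hS
  have hSm : Measurable S := Finset.measurable_fun_sum B fun v _ => hYm v
  have hSb : ∀ ω, ‖S ω‖ ≤ ∑ v ∈ B, 2 * C * √(w v) := fun ω =>
    (norm_sum_le _ _).trans (Finset.sum_le_sum fun v _ => hYb v ω)
  set H : Set Ω := {ω | |∑ v ∈ B, s v * Z v ω| ≤ ε} with hH
  have hHm : MeasurableSet H := by
    have h1 : Measurable fun ω => |∑ v ∈ B, s v * Z v ω| :=
      (Finset.measurable_fun_sum B fun v _ => (hZm v).const_mul (s v)).abs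
    exact measurableSet_le h1 measurable_const
  by_contra hcon
  push Not at hcon
  have hcomp : μ.real Hᶜ ≤ eta C c := by
    rw [probReal_compl_eq_one_sub hHm]
    linarith
  set u : ℝ := 1 / (8 * √κ) with hu
  have hκs : 0 < √κ := Real.sqrt_pos.2 (by linarith)
  have hu2 : u ^ 2 = eta C c := by
    rw [hu]
    unfold eta
    rw [div_pow, mul_pow, Real.sq_sqrt (by linarith), ← hκ]
    norm_num
  have hSH : ∀ ω ∈ H, ‖S ω + ((∑ v ∈ B, s v * m v : ℝ) : ℂ)‖ ≤ ε := by
    intro ω hω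
    have h1 : S ω + ((∑ v ∈ B, s v * m v : ℝ) : ℂ) = ((∑ v ∈ B, s v * Z v ω : ℝ) : ℂ) := by
      have h2 : S ω = ((∑ v ∈ B, s v * (Z v ω - m v) : ℝ) : ℂ) := by
        rw [Complex.ofReal_sum]
        refine Finset.sum_congr rfl fun v hv => ?_
        show g v (Z v ω) = _
        simp only [hg, if_pos hv]
      rw [h2, ← Complex.ofReal_add, ← Finset.sum_add_distrib]
      congr 1
      refine Finset.sum_congr rfl fun v _ => ?_
      ring
    rw [h1, Complex.norm_real, Real.norm_eq_abs]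
    exact hω
  have h5 := non_conc (μ := μ) hSm hSb f1 (κ := κ) (by linarith) f4 hHm (u := u) (by positivity)
    (by rw [hu2]; exact hcomp) (by rw [hu]; field_simp; exact le_refl _) hε hSH
  rw [f2] at h5
  have h6 : c * ∑ v ∈ B, w v ≤ ∑ v ∈ B, ∫ ω, ‖Y v ω‖ ^ 2 ∂μ := by
    rw [Finset.mul_sum]
    exact Finset.sum_le_sum fun v hv => hvar v hv
  linarith

/-- independent blocks -/
theorem blocks_conc {Z : V → Ω → ℝ} (hZm : ∀ v, Measurable (Z v)) (hind : iIndepFun Z μ)
    {B : ℕ → Finset V} (hdis : ∀ i j, i < j → Disjoint (B i) (B j)) {s : ℕ → V → ℝ} {ε : ℕ → ℝ} {θ : ℝ}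
    (hθ : 0 ≤ θ) (J : ℕ) (h : ∀ j < J, μ.real {ω | |∑ v ∈ B j, s j v * Z v ω| ≤ ε j} ≤ θ) :
    μ.real {ω | ∀ j < J, |∑ v ∈ B j, s j v * Z v ω| ≤ ε j} ≤ θ ^ J := by
  classical
  induction J with
  | zero => simp
  | succ J ih =>
    have ih' := ih fun j hj => h j (hj.trans (Nat.lt_succ_self J))
    set S : Finset V := (Finset.range J).biUnion B with hS
    have hST : Disjoint S (B J) := by
      rw [hS, Finset.disjoint_biUnion_left]
      intro i hi
      exact hdis i J (Finset.mem_range.1 hi)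
    have hi := hind.indepFun_finset S (B J) hST hZm
    set A₁ : Set (S → ℝ) := {x | ∀ j (hj : j < J), |∑ v ∈ (B j).attach, s j v.1 * x ⟨v.1, by
      rw [hS, Finset.mem_biUnion]
      exact ⟨j, Finset.mem_range.2 hj, v.2⟩⟩| ≤ ε j} with hA₁
    set A₂ : Set (B J → ℝ) := {x | |∑ v : B J, s J v.1 * x v| ≤ ε J} with hA₂
    have hm₁ : MeasurableSet A₁ := by
      have : A₁ = ⋂ (j : ℕ) (hj : j < J), {x | |∑ v ∈ (B j).attach, s j v.1 * x ⟨v.1, by
          rw [hS, Finset.mem_biUnion]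
          exact ⟨j, Finset.mem_range.2 hj, v.2⟩⟩| ≤ ε j} := by
        ext x
        simp [hA₁]
      rw [this]
      refine MeasurableSet.iInter fun j => MeasurableSet.iInter fun hj => ?_
      refine measurableSet_le (Measurable.abs ?_) measurable_const
      exact Finset.measurable_fun_sum _ fun v _ => (measurable_pi_apply _).const_mul _
    have hm₂ : MeasurableSet A₂ := by
      refine measurableSet_le (Measurable.abs ?_) measurable_const
      exact Finset.measurable_fun_sum _ fun v _ => (measurable_pi_apply _).const_mul _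
    have h1 := hi.measure_inter_preimage_eq_mul _ _ hm₁ hm₂
    have e1 : (fun ω (i : S) => Z i ω) ⁻¹' A₁ = {ω | ∀ j < J, |∑ v ∈ B j, s j v * Z v ω| ≤ ε j} := by
      ext ω
      simp only [hA₁, Set.mem_preimage, Set.mem_ofPred_eq]
      refine forall_congr' fun j => forall_congr' fun hj => ?_
      rw [Finset.sum_attach (B j) fun v => s j v * Z v ω]
    have e2 : (fun ω (i : B J) => Z i ω) ⁻¹' A₂ = {ω | |∑ v ∈ B J, s J v * Z v ω| ≤ ε J} := by
      ext ω
      simp only [hA₂, Set.mem_preimage, Set.mem_ofPred_eq]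
      rw [Finset.sum_coe_sort (B J) fun v => s J v * Z v ω]
    have e3 : {ω | ∀ j < J + 1, |∑ v ∈ B j, s j v * Z v ω| ≤ ε j} =
        (fun ω (i : S) => Z i ω) ⁻¹' A₁ ∩ (fun ω (i : B J) => Z i ω) ⁻¹' A₂ := by
      rw [e1, e2]
      ext ω
      simp only [Set.mem_ofPred_eq, Set.mem_inter_iff, Nat.lt_succ_iff_lt_or_eq]
      constructor
      · intro h2
        exact ⟨fun j hj => h2 j (Or.inl hj), h2 J (Or.inr rfl)⟩
      · rintro ⟨h2, h3⟩ j (hj | rfl)
        · exact h2 j hj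
        · exact h3
    rw [e3, measureReal_def, h1, ENNReal.toReal_mul, pow_succ, e1, e2]
    exact mul_le_mul ih' (h J (Nat.lt_succ_self J)) ENNReal.toReal_nonneg (pow_nonneg hθ _)

end Pool.Agent.W5h88.NB
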