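import Pool.Agent.W5h88.NB.Bsd

/-!
# The partial products are not close to powers of the logarithm
-/

set_option autoImplicit false
set_option linter.unusedSectionVars false
set_option maxHeartbeats 400000

open MeasureTheory ProbabilityTheory Filter Topology Polynomial
open NumberField IsDedekindDomain Pool.Agent.H921R2.TatePole
open Pool.Agent.R409.RA (fieldQuot finiteQuot)

namespace Pool.Agent.W5h88.NB

open Pool.Agent.W5h26.AO Pool.Agent.W5h26.EP Pool.Agent.W5h26.CL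

section

variable {K : Type} [Field K] [NumberField K] {r n g : ℕ} {a : (𝓞 K)[X]} {α : Fin r → 𝓞 K}

/-- the constant of the error -/
noncomputable def C1 (g : ℕ) : ℝ := 2 * (2 * (g : ℝ) + 1) ^ 2 + 1

/-- the property -/
def Near (a : (𝓞 K)[X]) (α : Fin r → 𝓞 K) (x₀ : ℝ) (ω : Pt K n) : Prop :=
  ∃ ρ : ℝ, ∀ x : ℝ, x₀ ≤ x → |Sx a α ω x - ρ * Real.log (Real.log x)| ≤
    √(Real.log (Real.log x)) / 100

open Classical in
theorem near_small (ha : a.Monic) (hd : a.natDegree = 2 * g + 1) (hn : n + r ≤ 2 * g + 1)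
    (M : Mdl (HeightOneSpectrum (𝓞 K)) (Pt K n) (mu K n))
    (hτ : ∀ v m ω, M.τ v m ω = tt a α v (ω v) m) (x₀ : ℝ) (J : ℕ) :
    ∃ (A : Set (Pt K n)) (T : Finset (HeightOneSpectrum (𝓞 K))),
      (∀ ω ω' : Pt K n, (∀ v ∈ T, ω v = ω' v) → ω ∈ A → ω' ∈ A) ∧
      (∀ ω, Near a α x₀ ω → ω ∈ A) ∧
      (mu K n).real A ≤ (1 - eta (2 * g + C1 g) (1 / 8)) ^ J := by
  have hg0 : (0 : ℝ) ≤ g := Nat.cast_nonneg g
  have hC1 : 0 < C1 g := by
    unfold C1
    positivity
  obtain ⟨CM, hCM⟩ := mertens K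
  have hCM0 : 0 ≤ CM := by
    obtain ⟨X, hX⟩ := hCM.exists
    exact (abs_nonneg _).trans hX
  -- the exceptional primes
  have hbad : ∀ᶠ v : HeightOneSpectrum (𝓞 K) in cofinite,
      (2 * (2 * (g : ℝ) + 1)) ^ 2 ≤ nm v ∧ 32 * C1 g ^ 2 ≤ nm v ∧
      1 / 2 ≤ ∫ ω, (tt a α v (ω v) 0 - ∫ ω', tt a α v (ω' v) 0 ∂(mu K n)) ^ 2 ∂(mu K n) := by
    filter_upwards [nm_large (K := K) ((2 * (2 * (g : ℝ) + 1)) ^ 2), nm_large (K := K) (32 * C1 g ^ 2),
      M.var] with v h1 h2 h3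
    refine ⟨h1.le, h2.le, ?_⟩
    simpa only [hτ] using h3
  rw [Filter.eventually_cofinite] at hbad
  obtain ⟨Q₀, hQ₀⟩ := (hbad.image fun v => (nm v : ℝ)).bddAbove
  have hgood : ∀ v : HeightOneSpectrum (𝓞 K), Q₀ < nm v →
      (2 * (2 * (g : ℝ) + 1)) ^ 2 ≤ nm v ∧ 32 * C1 g ^ 2 ≤ nm v ∧
      1 / 2 ≤ ∫ ω, (tt a α v (ω v) 0 - ∫ ω', tt a α v (ω' v) 0 ∂(mu K n)) ^ 2 ∂(mu K n) := by
    intro v hv
    by_contra hcon
    exact absurd (hQ₀ ⟨v, hcon, rfl⟩) (not_le.2 hv)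
  -- the scale
  obtain ⟨Xs, hXs⟩ := eventually_atTop.1 (hCM.and
    ((eventually_ge_atTop x₀).and (eventually_ge_atTop Q₀)))
  obtain ⟨D, hD1, hD2, hD3⟩ : ∃ D : ℝ, Xs ≤ Real.exp (Real.exp D) ∧ 2 * CM ≤ D ∧ 1 ≤ D := by
    have h1 : Tendsto (fun D : ℝ => Real.exp (Real.exp D)) atTop atTop :=
      Real.tendsto_exp_atTop.comp Real.tendsto_exp_atTop
    obtain ⟨D, h2, h3, h4⟩ := ((h1.eventually (eventually_ge_atTop Xs)).and
      ((eventually_ge_atTop (2 * CM)).and (eventually_ge_atTop 1))).exists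
    exact ⟨D, h2, h3, h4⟩
  set X : ℝ → ℝ := fun u => Real.exp (Real.exp (u * D)) with hX
  have hXm : Monotone X := by
    intro i j hij
    exact Real.exp_le_exp.2 (Real.exp_le_exp.2 (mul_le_mul_of_nonneg_right hij (by linarith)))
  have hXX : ∀ u : ℝ, 1 ≤ u → Xs ≤ X u := by
    intro u hu
    refine le_trans ?_ (hXm hu)
    simp only [hX, one_mul]
    exact hD1
  have hLL : ∀ u : ℝ, Real.log (Real.log (X u)) = u * D := by
    intro u
    simp only [hX, Real.log_exp]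
  have hMX : ∀ u : ℝ, 1 ≤ u → |MX K (X u) - u * D| ≤ CM := by
    intro u hu
    have := (hXs (X u) (hXX u hu)).1
    rwa [hLL] at this
  have hXQ : ∀ u : ℝ, 1 ≤ u → Q₀ ≤ X u := fun u hu => (hXs (X u) (hXX u hu)).2.2
  have hXx : ∀ u : ℝ, 1 ≤ u → x₀ ≤ X u := fun u hu => (hXs (X u) (hXX u hu)).2.1
  have h4j : ∀ j : ℕ, (1 : ℝ) ≤ 4 ^ j := fun j => one_le_pow₀ (by norm_num)
  set Ψ : ℕ → ℝ := fun j => 4 * (√(3 * 4 ^ j * D) / 100) with hΨ
  have hΨ0 : ∀ j, 0 ≤ Ψ j := fun j => by positivity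
  set B : ℕ → Finset (HeightOneSpectrum (𝓞 K)) := fun j =>
    PX K (X (3 * 4 ^ j)) \ PX K (X (4 ^ j)) with hB
  set s : ℕ → HeightOneSpectrum (𝓞 K) → ℝ := fun j v =>
    if (nm v : ℝ) ≤ X (2 * 4 ^ j) then (-1 : ℝ) else 1 with hs
  have hpow : ∀ {i j : ℕ}, i < j → (3 * 4 ^ i : ℝ) ≤ 4 ^ j := by
    intro i j hij
    have h1 : (4 : ℝ) ^ (i + 1) ≤ 4 ^ j := pow_le_pow_right₀ (by norm_num) hij
    rw [pow_succ] at h1
    have := h4j i
    linarith
  refine ⟨{ω | ∀ j < J, |∑ v ∈ B j, s j v * Zl a α v (ω v)| ≤ Ψ j}, PX K (X (4 ^ J)), ?_, ?_, ?_⟩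
  · intro ω ω' h hω j hj
    have h1 := hω j hj
    have h2 : ∑ v ∈ B j, s j v * Zl a α v (ω' v) = ∑ v ∈ B j, s j v * Zl a α v (ω v) := by
      refine Finset.sum_congr rfl fun v hv => ?_
      rw [hB, Finset.mem_sdiff, mem_PX] at hv
      rw [h v (mem_PX.2 (hv.1.trans (hXm (hpow hj))))]
    rw [h2]
    exact h1
  · rintro ω ⟨ρ, hρ⟩ j hj
    have h4 := h4j j
    rw [sx_second ω (hXm (by linarith : (4 : ℝ) ^ j ≤ 2 * 4 ^ j))
      (hXm (by linarith : (2 : ℝ) * 4 ^ j ≤ 3 * 4 ^ j))]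
    have hb : ∀ u : ℝ, 1 ≤ u → u ≤ 3 * 4 ^ j →
        |Sx a α ω (X u) - ρ * (u * D)| ≤ √(3 * 4 ^ j * D) / 100 := by
      intro u hu hu3
      have h1 := hρ (X u) (hXx u hu)
      rw [hLL] at h1
      refine h1.trans (div_le_div_of_nonneg_right (Real.sqrt_le_sqrt ?_) (by norm_num))
      exact mul_le_mul_of_nonneg_right hu3 (by linarith)
    have h0 := abs_le.1 (hb (4 ^ j) h4 (by linarith))
    have h1 := abs_le.1 (hb (2 * 4 ^ j) (by linarith) (by linarith))
    have h2 := abs_le.1 (hb (3 * 4 ^ j) (by linarith) le_rfl)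
    simp only [hΨ]
    rw [abs_le]
    constructor <;> nlinarith
  · set Z : HeightOneSpectrum (𝓞 K) → Pt K n → ℝ := fun v ω => Zl a α v (ω v) with hZ
    have hZm : ∀ v, Measurable (Z v) := fun v =>
      (Measurable.of_discrete (f := fun h : Fin n → 𝓞 K ⧸ v.asIdeal => Zl a α v h)).comp
        (measurable_pi_apply v)
    have hτm : ∀ v, Measurable fun ω : Pt K n => tt a α v (ω v) 0 := fun v =>
      (Measurable.of_discrete (f := fun h : Fin n → 𝓞 K ⧸ v.asIdeal => tt a α v h 0)).comp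
        (measurable_pi_apply v)
    have hind : iIndepFun Z (mu K n) :=
      iIndepFun_infinitePi (P := fun v => un v n) (X := fun v h => Zl a α v h)
        fun v => Measurable.of_discrete
    refine blocks_conc hZm hind (B := B) (s := s) ?_ ?_ J ?_
    · intro i j hij
      rw [Finset.disjoint_left]
      intro v hv hv'
      rw [hB, Finset.mem_sdiff, mem_PX, mem_PX] at hv hv'
      exact hv'.2 (hv.1.trans (hXm (hpow hij)))
    · have := eta_le (2 * g + C1 g) (1 / 8)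
      linarith
    · intro j hj
      refine block_conc hZm hind (C := 2 * g + C1 g) (c := 1 / 8) (by positivity) (by norm_num)
        (w := fun v => (nm v : ℝ)⁻¹) (fun v => inv_pos.2 (nm_pos v)) ?_ (fun v => ?_) (hΨ0 j) ?_
      · intro v hv
        rw [hB, Finset.mem_sdiff, mem_PX, mem_PX] at hv
        obtain ⟨e1, e2, e3⟩ := hgood v ((hXQ _ (h4j j)).trans_lt (not_le.1 hv.2))
        have hnear := zl_near (α := α) ha hd hn e1
        constructor
        · intro ω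
          have h1 := hnear (ω v)
          have h2 : |tt a α v (ω v) 0 / √(nm v : ℝ)| ≤ 2 * g / √(nm v : ℝ) := by
            rw [abs_div, abs_of_pos (sqrt_pos v)]
            exact div_le_div_of_nonneg_right (tt_bd ha hd hn v _ 0) (sqrt_pos v).le
          have h3 : C1 g / nm v ≤ C1 g / √(nm v : ℝ) := by
            refine div_le_div_of_nonneg_left hC1.le (sqrt_pos v) ?_
            have h5 : 1 ≤ √(nm v : ℝ) := Real.one_le_sqrt.2 (nm1 v)
            have h6 : √(nm v : ℝ) ^ 2 = nm v := Real.sq_sqrt (nm_pos v).le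
            nlinarith
          have h4 : |Zl a α v (ω v)| ≤ 2 * g / √(nm v : ℝ) + C1 g / √(nm v : ℝ) := by
            have h5 := abs_sub (Zl a α v (ω v) + tt a α v (ω v) 0 / √(nm v : ℝ))
              (tt a α v (ω v) 0 / √(nm v : ℝ))
            rw [add_sub_cancel_right] at h5
            have h6 : |Zl a α v (ω v) + tt a α v (ω v) 0 / √(nm v : ℝ)| ≤ C1 g / nm v := h1
            linarith
          refine h4.trans (le_of_eq ?_)
          show _ = (2 * g + C1 g) * √((nm v : ℝ)⁻¹)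
          rw [Real.sqrt_inv, ← add_div, div_eq_mul_inv]
        · have h1 := var_near (μ := mu K n) (hZm v) (hτm v) (nm_pos v)
            (fun ω => tt_bd ha hd hn v _ 0) (C := C1 g) (fun ω => hnear (ω v)) e3 e2
          exact h1
      · simp only [hs]
        split_ifs
        · exact Or.inr rfl
        · exact Or.inl rfl
      · have h4 := h4j j
        have h1 : ∑ v ∈ B j, ((nm v : ℝ)⁻¹) = MX K (X (3 * 4 ^ j)) - MX K (X (4 ^ j)) := by
          have s1 : PX K (X (4 ^ j)) ⊆ PX K (X (3 * 4 ^ j)) := fun v hv =>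
            mem_PX.2 ((mem_PX.1 hv).trans (hXm (by linarith)))
          have h4 := Finset.sum_sdiff (f := fun v => (nm v : ℝ)⁻¹) s1
          unfold MX
          rw [← h4, add_sub_cancel_right]
        have h2 := abs_le.1 (hMX (3 * 4 ^ j) (by linarith))
        have h3 := abs_le.1 (hMX (4 ^ j) h4)
        have h5 : 4 ^ j * D ≤ ∑ v ∈ B j, ((nm v : ℝ)⁻¹) := by
          rw [h1]
          nlinarith
        have h6 : 16 * Ψ j ^ 2 = 768 / 10000 * (4 ^ j * D) := by
          have h7 : √(3 * 4 ^ j * D) ^ 2 = 3 * 4 ^ j * D := Real.sq_sqrt (by positivity)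
          simp only [hΨ]
          have h8 : 16 * (4 * (√(3 * 4 ^ j * D) / 100)) ^ 2 =
              256 / 10000 * √(3 * 4 ^ j * D) ^ 2 := by ring
          rw [h8, h7]
          ring
        show 16 * Ψ j ^ 2 < 1 / 8 * ∑ v ∈ B j, ((nm v : ℝ)⁻¹)
        have h7 : 0 < 4 ^ j * D := by positivity
        rw [h6]
        linarith

end

end Pool.Agent.W5h88.NB
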