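import Pool.Agent.W5h88.NB.Thm

/-!
# Random Euler products: the theorem
-/

set_option autoImplicit false
set_option linter.unusedSectionVars false
set_option maxHeartbeats 400000

open MeasureTheory ProbabilityTheory Filter Topology Complex Metric

namespace Pool.Agent.W5h88.NB

variable {V Ω : Type} [Countable V] [MeasurableSpace Ω] {μ : Measure Ω} [IsProbabilityMeasure μ]

namespace Mdl

variable (M : Mdl V Ω μ)

/-- the logarithm, in the variable `w = s - 1 / 2` -/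
noncomputable def Lam (ω : Ω) (w : ℂ) : ℂ := ∑' p : V × ℕ, M.cf 0 ω p * cexp (-w * M.fr 0 p)

theorem lam_hasSum {c : ℂ} {y : ℝ} (hy : 0 < y) (hyc : y < c.re - 1) (ω : Ω) {z : ℂ} (hz : ‖z‖ ≤ y) :
    HasSum (fun k => M.D 0 c k ω * z ^ k) (M.Lam ω (c + z)) :=
  co_hasSum (M.fr_nonneg 0) hy (M.cf_sum (j := 0) (x := c.re - y) (by linarith)
    (by push_cast; linarith) ω) hz

theorem lam_near {c : ℂ} (hc : 1 < c.re) (ω : Ω) :
    (fun s => ∑' k, M.D 0 c k ω * (s - c) ^ k) =ᶠ[𝓝 c] M.Lam ω := by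
  obtain ⟨y, hy1, hy2⟩ := exists_between (show 0 < c.re - 1 by linarith)
  filter_upwards [ball_mem_nhds c hy1] with s hs
  rw [mem_ball, dist_eq_norm] at hs
  have := M.lam_hasSum hy1 hy2 ω hs.le
  rw [add_sub_cancel] at this
  exact this.tsum_eq

theorem lam_diff (ω : Ω) : DifferentiableOn ℂ (M.Lam ω) {s : ℂ | (1 : ℝ) < s.re} := by
  intro c hc
  have hc' : 1 < c.re := hc
  have h1 : DifferentiableOn ℂ (fun s => ∑' k, M.D 0 c k ω * (s - c) ^ k) (ball c (c.re - 1)) := by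
    refine diff_of_coef (fun y hy hyc => ⟨M.B * ∑' p : V × ℕ, Real.exp (-((c.re - y) * M.fr 0 p)),
      fun k => ?_⟩) c
    have h2 := M.D_bd (j := 0) (c := c) hy (by linarith) (by push_cast; linarith) k ω
    have hyk := pow_pos hy k
    refine (mul_le_mul_of_nonneg_right h2 hyk.le).trans (le_of_eq ?_)
    rw [mul_assoc, inv_mul_cancel₀ hyk.ne', mul_one]
  have h2 : c ∈ ball c (c.re - 1) := mem_ball_self (by linarith)
  exact ((h1.differentiableAt (isOpen_ball.mem_nhds h2)).congr_of_eventuallyEq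
    (M.lam_near hc' ω).symm).differentiableWithinAt

/-- **Almost surely the logarithm continues analytically to `Re w > 1 / 2`, and its exponential does
not continue meromorphically to a neighbourhood of any point of the line.** -/
theorem main_ae : ∀ᵐ ω ∂μ, ∃ G : ℂ → ℂ, DifferentiableOn ℂ G {w : ℂ | (1 / 2 : ℝ) < w.re} ∧
    (∀ w : ℂ, 1 < w.re → G w = M.Lam ω w) ∧
    ∀ τ : ℝ, ¬ ∃ H : ℂ → ℂ, MeromorphicAt H (((1 / 2 : ℝ) : ℂ) + τ * I) ∧
      ∀ᶠ w in 𝓝 (((1 / 2 : ℝ) : ℂ) + τ * I), (1 / 2 : ℝ) < w.re → H w = cexp (G w) := by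
  have h1 : ∀ᵐ ω ∂μ, ∀ j : ℕ, 2 ≤ j → ∀ y : ℚ, (0 : ℝ) < y → (y : ℝ) < j - 1 / 2 →
      ∃ C : ℝ, ∀ k, ‖M.D 0 (j : ℂ) k ω‖ * (y : ℝ) ^ k ≤ C := by
    rw [ae_all_iff]
    intro j
    by_cases hj : 2 ≤ j
    · have hjr : (2 : ℝ) ≤ j := by exact_mod_cast hj
      have h2 : ∀ᵐ ω ∂μ, ∀ y : ℚ, (0 : ℝ) < y → (y : ℝ) < j - 1 / 2 →
          ∃ C : ℝ, ∀ k, ‖M.D 0 (j : ℂ) k ω‖ * (y : ℝ) ^ k ≤ C := by
        rw [ae_all_iff]
        intro y
        by_cases hy : (0 : ℝ) < y ∧ (y : ℝ) < j - 1 / 2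
        · have h3 := M.D_ae (c := (j : ℂ)) (by rw [Complex.natCast_re]; linarith) hy.1
            (by rw [Complex.natCast_re]; exact hy.2)
          filter_upwards [h3] with ω hω _ _
          exact hω
        · exact ae_of_all _ fun ω h3 h4 => absurd ⟨h3, h4⟩ hy
      filter_upwards [h2] with ω hω _
      exact hω
    · exact ae_of_all _ fun ω h => absurd h hj
  have h2 : ∀ᵐ ω ∂μ, ∀ t r : ℚ, (1 : ℝ) < r → (r : ℝ) < 7 / 6 →
      ω ∉ M.Ev (((1 / 2 : ℝ) : ℂ) + 1 + (t : ℝ) * I) r := by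
    rw [ae_all_iff]
    intro t
    rw [ae_all_iff]
    intro r
    by_cases hr : (1 : ℝ) < r ∧ (r : ℝ) < 7 / 6
    · have h3 := M.Ev_null (c := ((1 / 2 : ℝ) : ℂ) + 1 + (t : ℝ) * I) (by
        simp
        norm_num) hr.1 hr.2
      have h4 : ∀ᵐ ω ∂μ, ω ∉ M.Ev (((1 / 2 : ℝ) : ℂ) + 1 + (t : ℝ) * I) r := by
        rw [ae_iff]
        simpa using h3
      filter_upwards [h4] with ω hω _ _
      exact hω
    · exact ae_of_all _ fun ω h3 h4 => absurd ⟨h3, h4⟩ hr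
  filter_upwards [h1, h2] with ω hω1 hω2
  obtain ⟨G, hG, hGe⟩ := glue (L := M.Lam ω) (a := 1 / 2) (a' := 1) (by norm_num) (M.lam_diff ω)
    (fun j s => ∑' k, M.D 0 (j : ℂ) k ω * (s - j) ^ k) 2 (by norm_num) (fun j hj => by
      refine diff_of_coef (fun y hy hyj => ?_) _
      obtain ⟨y', hy1, hy2⟩ := exists_rat_btwn hyj
      obtain ⟨C, hC⟩ := hω1 j hj y' (hy.trans hy1) hy2
      exact ⟨C, fun k => (mul_le_mul_of_nonneg_left (pow_le_pow_left₀ hy.le hy1.le k)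
        (norm_nonneg _)).trans (hC k)⟩) fun j hj => M.lam_near (c := (j : ℂ)) (by
      rw [Complex.natCast_re]
      have : (2 : ℝ) ≤ j := by exact_mod_cast hj
      linarith) ω
  refine ⟨G, hG, hGe, fun τ => ?_⟩
  rintro ⟨H, hH, hHG⟩
  obtain ⟨t, G', U, hU, hG', hUc, hGG'⟩ := log_extends hG hH hHG
  set c : ℂ := ((1 / 2 : ℝ) : ℂ) + 1 + (t : ℝ) * I with hc
  have hcr : c.re = 3 / 2 := by
    simp [hc]
    norm_num
  obtain ⟨r', hr', C, hC⟩ := coef_of_analytic hU hG' one_pos hUc (D := fun k => M.D 0 c k ω)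
    (y := 1 / 4) (by norm_num) fun z hz => by
      have hz' : 1 < (c + z).re := by
        rw [Complex.add_re, hcr]
        have := (abs_le.1 (Complex.abs_re_le_norm z)).1
        linarith
      have h3 := M.lam_hasSum (c := c) (y := 1 / 4) (by norm_num) (by rw [hcr]; norm_num) ω hz.le
      rw [hGG' _ (by linarith), hGe _ hz']
      exact h3
  obtain ⟨r, hr1, hr2⟩ := exists_rat_btwn (show (1 : ℝ) < min r' (7 / 6) from
    lt_min hr' (by norm_num))
  refine hω2 t r hr1 (hr2.trans_le (min_le_right _ _)) ⟨C, fun k => ?_⟩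
  refine le_trans (mul_le_mul_of_nonneg_left (pow_le_pow_left₀ (by linarith)
    (hr2.trans_le (min_le_left _ _)).le k) (norm_nonneg _)) (hC k)

end Mdl

end Pool.Agent.W5h88.NB
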