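import Pool.Agent.W5h26.AO.MomC
import Pool.Agent.W5h88.NB.Bai

/-!
# The random Euler product of the family
-/

set_option autoImplicit false
set_option linter.unusedSectionVars false
set_option maxHeartbeats 400000

open MeasureTheory ProbabilityTheory Filter Topology Complex Polynomial Metric
open NumberField IsDedekindDomain Pool.Agent.H921R2.TatePole
open Pool.Agent.R409.RA (fieldQuot finiteQuot)

namespace Pool.Agent.W5h88.NB

open Pool.Agent.W5h26.AO Pool.Agent.W5h26.EP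

section

variable {K : Type} [Field K] [NumberField K]

instance msQ (v : HeightOneSpectrum (𝓞 K)) : MeasurableSpace (𝓞 K ⧸ v.asIdeal) := ⊤

instance dmQ (v : HeightOneSpectrum (𝓞 K)) : DiscreteMeasurableSpace (𝓞 K ⧸ v.asIdeal) :=
  ⟨fun _ => trivial⟩

instance tsQ (v : HeightOneSpectrum (𝓞 K)) : TopologicalSpace (𝓞 K ⧸ v.asIdeal) := ⊥

instance dtQ (v : HeightOneSpectrum (𝓞 K)) : DiscreteTopology (𝓞 K ⧸ v.asIdeal) := ⟨rfl⟩

/-- the uniform measure -/
noncomputable def un (v : HeightOneSpectrum (𝓞 K)) (n : ℕ) : Measure (Fin n → 𝓞 K ⧸ v.asIdeal) :=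
  uniformOn Set.univ

instance unP (v : HeightOneSpectrum (𝓞 K)) (n : ℕ) : IsProbabilityMeasure (un v n) := by
  unfold un
  infer_instance

theorem un_single (v : HeightOneSpectrum (𝓞 K)) (n : ℕ) (h : Fin n → 𝓞 K ⧸ v.asIdeal) :
    (un v n).real {h} = ((nm v : ℝ) ^ n)⁻¹ := by
  unfold un
  rw [measureReal_def, uniformOn_univ, Measure.count_singleton, ENNReal.toReal_div,
    ENNReal.toReal_one, ENNReal.toReal_natCast, Fintype.card_fun, Fintype.card_fin, card_q]
  push_cast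
  rw [one_div]

variable (K) in
/-- the product measure -/
noncomputable def mu (n : ℕ) : Measure ((v : HeightOneSpectrum (𝓞 K)) → Fin n → 𝓞 K ⧸ v.asIdeal) :=
  Measure.infinitePi fun v => un v n

instance muP (n : ℕ) : IsProbabilityMeasure (mu K n) := by
  unfold mu
  infer_instance

theorem int_eval {n : ℕ} (v : HeightOneSpectrum (𝓞 K)) (φ : (Fin n → 𝓞 K ⧸ v.asIdeal) → ℝ) :
    ∫ ω, φ (ω v) ∂(mu K n) = (∑ h, φ h) / (nm v : ℝ) ^ n := by
  have h1 : (mu K n).map (fun ω => ω v) = un v n := Measure.infinitePi_map_eval _ v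
  have hφ : Measurable φ := Measurable.of_discrete
  have h2 : ∫ ω, φ (ω v) ∂(mu K n) = ∫ x, φ x ∂(un v n) := by
    rw [← h1, integral_map (measurable_pi_apply v).aemeasurable hφ.aestronglyMeasurable]
  rw [h2, integral_fintype (Integrable.of_finite), Finset.sum_div]
  refine Finset.sum_congr rfl fun h _ => ?_
  rw [un_single, smul_eq_mul]
  field_simp

variable (K) in
/-- the norms are not summable with exponent one -/
theorem nm_div : ¬ Summable fun v : HeightOneSpectrum (𝓞 K) => ((nm v : ℝ))⁻¹ := by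
  intro h
  obtain ⟨V, hV, hV0, hVe⟩ := exists_V K
  have hopen : IsOpen {s : ℂ | (1 / 2 : ℝ) < s.re} := isOpen_lt continuous_const Complex.continuous_re
  have hc : ContinuousAt V 1 := (hV.differentiableAt (hopen.mem_nhds (by
    show (1 / 2 : ℝ) < (1 : ℂ).re
    rw [Complex.one_re]
    norm_num))).continuousAt
  have hb : ∀ δ : ℝ, 0 < δ → ‖cexp (PZ K (1 + δ))‖ ≤
      Real.exp (∑' v : HeightOneSpectrum (𝓞 K), ((nm v : ℝ))⁻¹) := by
    intro δ hδ
    rw [Complex.norm_exp]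
    refine Real.exp_le_exp.2 ((Complex.re_le_norm _).trans ?_)
    unfold PZ
    refine tsum_of_norm_bounded h.hasSum fun v => ?_
    rw [norm_nm_cpow, ← Real.rpow_neg_one]
    refine Real.rpow_le_rpow_of_exponent_le (nm1 v) ?_
    simp
    exact hδ.le
  set S : ℝ := ∑' v : HeightOneSpectrum (𝓞 K), ((nm v : ℝ))⁻¹ with hS
  have h1 : Tendsto (fun δ : ℝ => V (1 + δ)) (𝓝[>] 0) (𝓝 (V 1)) := by
    have h2 : Tendsto (fun δ : ℝ => (1 : ℂ) + δ) (𝓝[>] 0) (𝓝 1) := by
      have : Continuous fun δ : ℝ => (1 : ℂ) + (δ : ℂ) := by fun_prop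
      have h3 := this.tendsto 0
      simp only [Complex.ofReal_zero, add_zero] at h3
      exact h3.mono_left nhdsWithin_le_nhds
    exact hc.tendsto.comp h2
  have h2 : ∀ᶠ δ : ℝ in 𝓝[>] 0, ‖V (1 + δ)‖ ≤ δ * Real.exp S := by
    filter_upwards [self_mem_nhdsWithin] with δ hδ
    have hδ' : (0 : ℝ) < δ := hδ
    have h3 := hVe (1 + δ) (by simp; exact hδ')
    have h4 : (1 : ℂ) + δ - 1 = δ := by ring
    rw [h4] at h3
    have h5 : V (1 + δ) = δ * cexp (PZ K (1 + δ)) := by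
      rw [h3]
      have : (δ : ℂ) ≠ 0 := by exact_mod_cast hδ'.ne'
      field_simp
    rw [h5, norm_mul, Complex.norm_real, Real.norm_eq_abs, abs_of_pos hδ']
    exact mul_le_mul_of_nonneg_left (hb δ hδ') hδ'.le
  have h3 : Tendsto (fun δ : ℝ => δ * Real.exp S) (𝓝[>] 0) (𝓝 0) := by
    have : Continuous fun δ : ℝ => δ * Real.exp S := by fun_prop
    have h3 := this.tendsto 0
    rw [zero_mul] at h3
    exact h3.mono_left nhdsWithin_le_nhds
  have h4 := le_of_tendsto_of_tendsto h1.norm h3 h2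
  exact hV0 1 (by rw [Complex.one_re]) (norm_le_zero_iff.1 h4)

theorem nm_large (X : ℝ) : ∀ᶠ v : HeightOneSpectrum (𝓞 K) in cofinite, X < nm v := by
  have h1 := (nm_summable (K := K) (x := 2) (by norm_num)).tendsto_cofinite_zero
  have h2 : (0 : ℝ) < (max X 1) ^ (-2 : ℝ) :=
    Real.rpow_pos_of_pos (lt_of_lt_of_le one_pos (le_max_right _ _)) _
  filter_upwards [h1.eventually (gt_mem_nhds h2)] with v hv
  by_contra h
  have h3 : (nm v : ℝ) ≤ max X 1 := (not_lt.1 h).trans (le_max_left _ _)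
  exact absurd (Real.rpow_le_rpow_of_nonpos (nm_pos v) h3 (by norm_num)) (not_le.2 hv)

variable {r n g : ℕ} {a : (𝓞 K)[X]} {α y : Fin r → 𝓞 K}

/-- the average of the square of the normalised trace and of the normalised trace -/
theorem tt_avg (v : HeightOneSpectrum (𝓞 K)) :
    (∑ h : Fin n → 𝓞 K ⧸ v.asIdeal, tt a α v h 0) / (nm v : ℝ) ^ n =
      Ev a α n v 1 / √(nm v : ℝ) ∧
    (∑ h : Fin n → 𝓞 K ⧸ v.asIdeal, tt a α v h 0 ^ 2) / (nm v : ℝ) ^ n = Pool.Agent.W5h26.AO.Eq a α n v / nm v := by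
  have h1 : √(nm v : ℝ) ≠ 0 := (sqrt_pos v).ne'
  have h2 : (nm v : ℝ) ^ n ≠ 0 := pow_ne_zero _ (nm_pos v).ne'
  constructor
  · unfold tt Ev EE
    rw [card_q, ← Finset.sum_div]
    simp only [zero_add, pow_one]
    rw [div_div, div_div, mul_comm]
  · unfold tt Pool.Agent.W5h26.AO.Eq EQ
    rw [card_q]
    simp only [zero_add, pow_one, div_pow]
    rw [Real.sq_sqrt (nm_pos v).le, ← Finset.sum_div, div_div, div_div, mul_comm]

/-- the size of the averages -/
theorem exists_C (ha : a.Monic) (hd : a.natDegree = 2 * g + 1) (hn : n + 2 + r = 2 * g + 1)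
    (hα : Function.Injective α) (hy : ∀ j, a.eval (α j) = y j ^ 2) (hy0 : ∀ j, y j ≠ 0) :
    ∃ C : ℝ, 0 ≤ C ∧ ∀ v : HeightOneSpectrum (𝓞 K),
      |(∑ h : Fin (n + 2) → 𝓞 K ⧸ v.asIdeal, tt a α v h 0) / (nm v : ℝ) ^ (n + 2)| ≤
        C * (nm v : ℝ) ^ (-(1 / 2) : ℝ) ∧
      |(∑ h : Fin (n + 2) → 𝓞 K ⧸ v.asIdeal, tt a α v h 0 ^ 2) / (nm v : ℝ) ^ (n + 2) - 1| ≤
        C / nm v := by
  obtain ⟨C₁, hC1, -⟩ := ev_asym ha hd hn hα hy hy0
  obtain ⟨C₂, hC2⟩ := eq_asymK ha hd hn hα hy hy0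
  refine ⟨(r + |C₁|) + |C₂|, by positivity, fun v => ⟨?_, ?_⟩⟩
  · rw [(tt_avg v).1, abs_div, abs_of_pos (sqrt_pos v), Real.rpow_neg (nm_pos v).le,
      ← Real.sqrt_eq_rpow, div_eq_mul_inv]
    refine mul_le_mul_of_nonneg_right ?_ (inv_nonneg.2 (sqrt_pos v).le)
    have h1 := hC1 v
    have h2 : (nm v : ℝ) ^ (-(1 / 2) : ℝ) ≤ 1 :=
      Real.rpow_le_one_of_one_le_of_nonpos (nm1 v) (by norm_num)
    have h3 : C₁ * (nm v : ℝ) ^ (-(1 / 2) : ℝ) ≤ |C₁| := by
      refine (mul_le_mul_of_nonneg_right (le_abs_self C₁) (Real.rpow_nonneg (nm_pos v).le _)).trans ?_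
      exact mul_le_of_le_one_right (abs_nonneg _) h2
    have h4 : |Ev a α (n + 2) v 1| ≤ |Ev a α (n + 2) v 1 + r| + r := by
      have := abs_sub (Ev a α (n + 2) v 1 + r) r
      rw [add_sub_cancel_right, Nat.abs_cast] at this
      exact this
    have h5 : 0 ≤ |C₂| := abs_nonneg _
    linarith
  · rw [(tt_avg v).2]
    have h1 : Pool.Agent.W5h26.AO.Eq a α (n + 2) v / nm v - 1 = (Pool.Agent.W5h26.AO.Eq a α (n + 2) v - nm v) / nm v := by
      have := (nm_pos v).ne'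
      field_simp
    rw [h1, abs_div, abs_of_pos (nm_pos v)]
    refine div_le_div_of_nonneg_right ?_ (nm_pos v).le
    have := (hC2 v).trans (le_abs_self _)
    have h5 : 0 ≤ |C₁| := abs_nonneg _
    have h6 : (0 : ℝ) ≤ r := Nat.cast_nonneg r
    linarith

/-- the random Euler product -/
theorem exists_mdl (ha : a.Monic) (hd : a.natDegree = 2 * g + 1) (hn : n + 2 + r = 2 * g + 1)
    (hα : Function.Injective α) (hy : ∀ j, a.eval (α j) = y j ^ 2) (hy0 : ∀ j, y j ≠ 0) :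
    ∃ M : Mdl (HeightOneSpectrum (𝓞 K))
      ((v : HeightOneSpectrum (𝓞 K)) → Fin (n + 2) → 𝓞 K ⧸ v.asIdeal) (mu K (n + 2)),
      (∀ v, M.q v = nm v) ∧ (∀ v m ω, M.τ v m ω = tt a α v (ω v) m) ∧ M.B = 2 * g := by
  obtain ⟨C, hC0, hC⟩ := exists_C ha hd hn hα hy hy0
  have hmean : ∀ v, ∫ ω, tt a α v (ω v) 0 ∂(mu K (n + 2)) =
      (∑ h : Fin (n + 2) → 𝓞 K ⧸ v.asIdeal, tt a α v h 0) / (nm v : ℝ) ^ (n + 2) := fun v =>
    int_eval v fun h => tt a α v h 0
  refine ⟨{ q := fun v => nm v, τ := fun v m ω => tt a α v (ω v) m, B := 2 * g, C := C,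
            two_le := nm2, sum := fun x hx => nm_summable hx, div := nm_div K,
            meas := fun v m => ?_, bd := fun v m ω => tt_bd ha hd hn.le v _ m, ind := ?_,
            mean := fun v => ?_, var := ?_ }, fun v => rfl, fun v m ω => rfl, rfl⟩
  · exact (Measurable.of_discrete (f := fun h : Fin (n + 2) → 𝓞 K ⧸ v.asIdeal =>
      tt a α v h m)).comp (measurable_pi_apply v)
  · exact iIndepFun_infinitePi (P := fun v => un v (n + 2)) (X := fun v h m => tt a α v h m)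
      fun v => Measurable.of_discrete
  · rw [hmean]
    exact (hC v).1
  · filter_upwards [nm_large (K := K) (2 * (C + C ^ 2))] with v hv
    rw [hmean]
    set m : ℝ := (∑ h : Fin (n + 2) → 𝓞 K ⧸ v.asIdeal, tt a α v h 0) / (nm v : ℝ) ^ (n + 2) with hm
    have h1 := int_eval (n := n + 2) v fun h => (tt a α v h 0 - m) ^ 2
    rw [h1]
    have hN : (0 : ℝ) < (nm v : ℝ) ^ (n + 2) := pow_pos (nm_pos v) _
    have hcard : ((Finset.univ : Finset (Fin (n + 2) → 𝓞 K ⧸ v.asIdeal)).card : ℝ) =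
        (nm v : ℝ) ^ (n + 2) := by
      rw [Finset.card_univ, Fintype.card_fun, Fintype.card_fin, card_q]
      push_cast
      rfl
    have h2 : (∑ h : Fin (n + 2) → 𝓞 K ⧸ v.asIdeal, (tt a α v h 0 - m) ^ 2) /
        (nm v : ℝ) ^ (n + 2) = (∑ h : Fin (n + 2) → 𝓞 K ⧸ v.asIdeal, tt a α v h 0 ^ 2) /
        (nm v : ℝ) ^ (n + 2) - m ^ 2 := by
      have h3 : ∀ h : Fin (n + 2) → 𝓞 K ⧸ v.asIdeal, (tt a α v h 0 - m) ^ 2 =
          tt a α v h 0 ^ 2 - 2 * m * tt a α v h 0 + m ^ 2 := fun h => by ring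
      simp_rw [h3]
      rw [Finset.sum_add_distrib, Finset.sum_sub_distrib, ← Finset.mul_sum, Finset.sum_const,
        nsmul_eq_mul, hcard]
      have h4 : ∑ h : Fin (n + 2) → 𝓞 K ⧸ v.asIdeal, tt a α v h 0 = m * (nm v : ℝ) ^ (n + 2) := by
        rw [hm]
        field_simp
      rw [h4]
      field_simp
      ring
    rw [h2]
    have h5 := (abs_le.1 (hC v).2).1
    have h6 : m ^ 2 ≤ C ^ 2 / nm v := by
      have h7 := pow_le_pow_left₀ (abs_nonneg _) (hC v).1 2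
      rw [sq_abs, mul_pow, ← Real.rpow_natCast ((nm v : ℝ) ^ (-(1 / 2) : ℝ)),
        ← Real.rpow_mul (nm_pos v).le] at h7
      have h8 : (-(1 / 2) : ℝ) * ((2 : ℕ) : ℝ) = -1 := by norm_num
      rw [h8, Real.rpow_neg_one] at h7
      exact h7
    have h7 : C / nm v + C ^ 2 / nm v ≤ 1 / 2 := by
      rw [← add_div, div_le_iff₀ (nm_pos v)]
      linarith
    linarith

end

end Pool.Agent.W5h88.NB
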