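import Pool.Agent.W5h88.NB.Lw

/-!
# The limit law of the L-functions of the family, density, and unbounded continuations
-/

set_option autoImplicit false
set_option linter.unusedSectionVars false
set_option maxHeartbeats 400000

open MeasureTheory ProbabilityTheory Filter Topology Complex Polynomial Metric
open NumberField IsDedekindDomain Pool.Agent.H921R2.TatePole
open Pool.Agent.R409.RA (fieldQuot finiteQuot)

namespace Pool.Agent.W5h88.NB

open Pool.Agent.W5h26.AO Pool.Agent.W5h26.EP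

section

variable {K : Type} [Field K] [NumberField K] {r n g : ℕ} {a : (𝓞 K)[X]} {α y : Fin r → 𝓞 K}

/-- the L-function -/
noncomputable def LF (M : Mdl (HeightOneSpectrum (𝓞 K)) (Pt K n) (mu K n)) (ω : Pt K n) (s : ℂ) : ℂ :=
  cexp (M.Lam ω (s - 1 / 2))

variable (M : Mdl (HeightOneSpectrum (𝓞 K)) (Pt K n) (mu K n))

theorem lam_close (hτ : ∀ v m ω, M.τ v m ω = tt a α v (ω v) m) {σ : ℝ} (hσ : 3 / 2 < σ) :
    ∃ t : Finset (HeightOneSpectrum (𝓞 K)) → ℝ, Tendsto t atTop (𝓝 0) ∧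
      ∀ (T : Finset (HeightOneSpectrum (𝓞 K))) (ω ω' : Pt K n), (∀ v ∈ T, ω v = ω' v) →
        ∀ s : ℂ, σ ≤ s.re → ‖M.Lam ω (s - 1 / 2) - M.Lam ω' (s - 1 / 2)‖ ≤ t T := by
  classical
  have hE : Summable fun p : HeightOneSpectrum (𝓞 K) × ℕ =>
      2 * M.B * Real.exp (-((σ - 1 / 2) * M.fr 0 p)) :=
    (M.sum_exp2 (θ := σ - 1 / 2) (j := 0) (by linarith) (by push_cast; linarith)).mul_left _
  have hB : 0 ≤ M.B ∨ IsEmpty (HeightOneSpectrum (𝓞 K)) := by
    rcases isEmpty_or_nonempty (HeightOneSpectrum (𝓞 K)) with h | ⟨⟨v⟩⟩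
    · exact Or.inr h
    · exact Or.inl ((abs_nonneg _).trans (M.bd v 0 fun _ _ => 0))
  refine ⟨fun T => ∑' p : HeightOneSpectrum (𝓞 K) × ℕ, if p.1 ∈ T then 0 else
    2 * M.B * Real.exp (-((σ - 1 / 2) * M.fr 0 p)), ?_, ?_⟩
  · have h1 := tendsto_tsum_of_dominated_convergence
      (𝓕 := (atTop : Filter (Finset (HeightOneSpectrum (𝓞 K)))))
      (f := fun (T : Finset (HeightOneSpectrum (𝓞 K))) (p : HeightOneSpectrum (𝓞 K) × ℕ) =>
        if p.1 ∈ T then 0 else 2 * M.B * Real.exp (-((σ - 1 / 2) * M.fr 0 p)))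
      (g := fun _ => (0 : ℝ)) hE (fun p => ?_) (Eventually.of_forall fun T p => ?_)
    · rwa [tsum_zero] at h1
    · refine tendsto_const_nhds.congr' ?_
      filter_upwards [eventually_ge_atTop ({p.1} : Finset (HeightOneSpectrum (𝓞 K)))] with T hT
      rw [if_pos (hT (Finset.mem_singleton_self _))]
    · have hB' : 0 ≤ M.B := (abs_nonneg _).trans (M.bd p.1 0 fun _ _ => 0)
      show ‖if p.1 ∈ T then (0 : ℝ) else 2 * M.B * Real.exp (-((σ - 1 / 2) * M.fr 0 p))‖ ≤
        2 * M.B * Real.exp (-((σ - 1 / 2) * M.fr 0 p))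
      split_ifs
      · rw [norm_zero]
        positivity
      · rw [Real.norm_eq_abs, abs_of_nonneg (by positivity)]
  · intro T ω ω' hω s hs
    have hsum : ∀ ω : Pt K n, Summable fun p : HeightOneSpectrum (𝓞 K) × ℕ =>
        M.cf 0 ω p * cexp (-(s - 1 / 2) * M.fr 0 p) := by
      intro ω
      refine Summable.of_norm_bounded (M.cf_sum (j := 0) (x := s.re - 1 / 2) (by linarith)
        (by push_cast; linarith) ω) fun p => ?_
      rw [norm_mul, Complex.norm_exp]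
      have h1 : (-(s - 1 / 2) * (M.fr 0 p : ℂ)).re = -((s.re - 1 / 2) * M.fr 0 p) := by
        simp
        ring
      rw [h1]
    have h1 := (hsum ω).hasSum.sub (hsum ω').hasSum
    have h2 : M.Lam ω (s - 1 / 2) - M.Lam ω' (s - 1 / 2) =
        ∑' p : HeightOneSpectrum (𝓞 K) × ℕ, (M.cf 0 ω p * cexp (-(s - 1 / 2) * M.fr 0 p) -
          M.cf 0 ω' p * cexp (-(s - 1 / 2) * M.fr 0 p)) := h1.tsum_eq.symm
    rw [h2]
    have hE' : Summable fun p : HeightOneSpectrum (𝓞 K) × ℕ => if p.1 ∈ T then (0 : ℝ) else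
        2 * M.B * Real.exp (-((σ - 1 / 2) * M.fr 0 p)) := by
      refine Summable.of_nonneg_of_le (fun p => ?_) (fun p => ?_) hE
      · have hB' : 0 ≤ M.B := (abs_nonneg _).trans (M.bd p.1 0 fun _ _ => 0)
        split_ifs <;> positivity
      · have hB' : 0 ≤ M.B := (abs_nonneg _).trans (M.bd p.1 0 fun _ _ => 0)
        split_ifs
        · positivity
        · exact le_rfl
    refine tsum_of_norm_bounded hE'.hasSum fun p => ?_
    have hB' : 0 ≤ M.B := (abs_nonneg _).trans (M.bd p.1 0 fun _ _ => 0)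
    by_cases hp : p.1 ∈ T
    · rw [if_pos hp]
      have : M.cf 0 ω p = M.cf 0 ω' p := by
        unfold Mdl.cf
        rw [hτ, hτ, hω p.1 hp]
      rw [this, sub_self, norm_zero]
    · rw [if_neg hp, ← sub_mul, norm_mul, Complex.norm_exp]
      have h3 : (-(s - 1 / 2) * (M.fr 0 p : ℂ)).re = -((s.re - 1 / 2) * M.fr 0 p) := by
        simp
        ring
      rw [h3]
      refine mul_le_mul ?_ (Real.exp_le_exp.2 ?_) (Real.exp_pos _).le (by positivity)
      · refine (norm_sub_le _ _).trans ?_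
        have h4 := M.cf_bd 0 ω p
        have h5 := M.cf_bd 0 ω' p
        linarith
      · have := mul_le_mul_of_nonneg_right (show σ - 1 / 2 ≤ s.re - 1 / 2 by linarith)
          (M.fr_nonneg 0 p)
        linarith

/-- bounded logarithms -/
theorem lam_bdd {σ : ℝ} (hσ : 3 / 2 < σ) : ∃ A : ℝ, ∀ (ω : Pt K n) (s : ℂ), σ ≤ s.re →
    ‖M.Lam ω (s - 1 / 2)‖ ≤ A := by
  have hE : Summable fun p : HeightOneSpectrum (𝓞 K) × ℕ =>
      M.B * Real.exp (-((σ - 1 / 2) * M.fr 0 p)) :=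
    (M.sum_exp2 (θ := σ - 1 / 2) (j := 0) (by linarith) (by push_cast; linarith)).mul_left _
  refine ⟨∑' p : HeightOneSpectrum (𝓞 K) × ℕ, M.B * Real.exp (-((σ - 1 / 2) * M.fr 0 p)),
    fun ω s hs => tsum_of_norm_bounded hE.hasSum fun p => ?_⟩
  have hB' : 0 ≤ M.B := (abs_nonneg _).trans (M.bd p.1 0 ω)
  rw [norm_mul, Complex.norm_exp]
  have h3 : (-(s - 1 / 2) * (M.fr 0 p : ℂ)).re = -((s.re - 1 / 2) * M.fr 0 p) := by
    simp
    ring
  rw [h3]
  refine mul_le_mul (M.cf_bd 0 ω p) (Real.exp_le_exp.2 ?_) (Real.exp_pos _).le hB'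
  have := mul_le_mul_of_nonneg_right (show σ - 1 / 2 ≤ s.re - 1 / 2 by linarith) (M.fr_nonneg 0 p)
  linarith

/-- the L-functions of points which agree at many places are close -/
theorem lf_close (hτ : ∀ v m ω, M.τ v m ω = tt a α v (ω v) m) {σ : ℝ} (hσ : 3 / 2 < σ) {ε : ℝ}
    (hε : 0 < ε) : ∃ T₀ : Finset (HeightOneSpectrum (𝓞 K)), ∀ T, T₀ ⊆ T → ∀ ω ω' : Pt K n,
      (∀ v ∈ T, ω v = ω' v) → ∀ s : ℂ, σ ≤ s.re → ‖LF M ω s - LF M ω' s‖ ≤ ε := by
  obtain ⟨t, ht, htc⟩ := lam_close M hτ hσ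
  obtain ⟨A, hA⟩ := lam_bdd M hσ
  have h1 : ∀ᶠ T in atTop, t T < 1 := ht.eventually (gt_mem_nhds one_pos)
  have h2 : ∀ᶠ T in atTop, Real.exp A * (2 * t T) < ε := by
    have := (ht.const_mul 2).const_mul (Real.exp A)
    rw [mul_zero, mul_zero] at this
    exact this.eventually (gt_mem_nhds hε)
  obtain ⟨T₀, hT₀⟩ := eventually_atTop.1 (h1.and h2)
  refine ⟨T₀, fun T hT ω ω' hω s hs => ?_⟩
  obtain ⟨h3, h4⟩ := hT₀ T hT
  have h5 := htc T ω ω' hω s hs
  unfold LF
  have h6 : cexp (M.Lam ω (s - 1 / 2)) - cexp (M.Lam ω' (s - 1 / 2)) =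
      cexp (M.Lam ω' (s - 1 / 2)) * (cexp (M.Lam ω (s - 1 / 2) - M.Lam ω' (s - 1 / 2)) - 1) := by
    rw [mul_sub, ← Complex.exp_add, mul_one]
    congr 2
    ring
  rw [h6, norm_mul]
  refine le_trans (mul_le_mul ?_ ?_ (norm_nonneg _) (Real.exp_pos A).le) h4.le
  · rw [Complex.norm_exp]
    exact Real.exp_le_exp.2 ((Complex.re_le_norm _).trans (hA ω' s hs))
  · refine (Complex.norm_exp_sub_one_le (h5.trans h3.le)).trans ?_
    linarith

open Classical in
/-- integrals of functions of finitely many coordinates -/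
theorem int_cyl (T : Finset (HeightOneSpectrum (𝓞 K)))
    (ψ : ((v : T) → Fin n → 𝓞 K ⧸ v.1.asIdeal) → ℂ) :
    ∫ ω, ψ (T.restrict ω) ∂(mu K n) =
      (∑ q, ψ q) / (Fintype.card ((v : T) → Fin n → 𝓞 K ⧸ v.1.asIdeal) : ℂ) := by
  classical
  have hψ : Measurable ψ := Measurable.of_discrete
  have h1 : ∫ ω, ψ (T.restrict ω) ∂(mu K n) = ∫ x, ψ x ∂(Measure.pi fun v : T => un v.1 n) :=
    integral_restrict_infinitePi (μ := fun v : HeightOneSpectrum (𝓞 K) => un v n)
      hψ.aestronglyMeasurable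
  rw [h1, integral_fintype (Integrable.of_finite), Finset.sum_div]
  refine Finset.sum_congr rfl fun q _ => ?_
  have h2 : (Measure.pi fun v : T => un v.1 n).real {q} =
      ((Fintype.card ((v : T) → Fin n → 𝓞 K ⧸ v.1.asIdeal) : ℝ))⁻¹ := by
    rw [measureReal_def, Measure.pi_singleton, ENNReal.toReal_prod, Fintype.card_pi]
    push_cast
    rw [← Finset.prod_inv_distrib]
    refine Finset.prod_congr rfl fun v _ => ?_
    have h3 := un_single v.1 n (q v)
    rw [measureReal_def] at h3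
    rw [h3, Fintype.card_fun, Fintype.card_fin, card_q]
    push_cast
    rfl
  rw [h2, Complex.real_smul]
  push_cast
  rw [div_eq_mul_inv, mul_comm]

open Classical in
/-- extension by zero -/
noncomputable def extz (T : Finset (HeightOneSpectrum (𝓞 K)))
    (q : (v : T) → Fin n → 𝓞 K ⧸ v.1.asIdeal) : Pt K n :=
  fun v => if h : v ∈ T then q ⟨v, h⟩ else 0

theorem extz_eq (T : Finset (HeightOneSpectrum (𝓞 K)))
    (q : (v : T) → Fin n → 𝓞 K ⧸ v.1.asIdeal) {v : HeightOneSpectrum (𝓞 K)} (hv : v ∈ T) :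
    extz T q v = q ⟨v, hv⟩ := by
  unfold extz
  rw [dif_pos hv]

/-- measurability of functionals of the L-function -/
theorem law_int (hτ : ∀ v m ω, M.τ v m ω = tt a α v (ω v) m) {σ : ℝ} (hσ : 3 / 2 < σ)
    (Φ : (ℂ → ℂ) → ℂ) {B : ℝ} (hB : ∀ F, ‖Φ F‖ ≤ B) (hΦ : ∀ ε : ℝ, 0 < ε → ∃ δ : ℝ, 0 < δ ∧
      ∀ F G : ℂ → ℂ, (∀ s : ℂ, σ ≤ s.re → ‖F s - G s‖ ≤ δ) → ‖Φ F - Φ G‖ ≤ ε) :
    Integrable (fun ω : Pt K n => Φ (LF M ω)) (mu K n) := by
  classical
  have hmeas : Measurable fun ω : Pt K n => Φ (LF M ω) := by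
    refine measurable_of_tendsto_metrizable' (atTop : Filter (Finset (HeightOneSpectrum (𝓞 K))))
      (f := fun T ω => Φ (LF M (extz T (T.restrict ω)))) (fun T => ?_) ?_
    · exact (Measurable.of_discrete (f := fun q => Φ (LF M (extz T q)))).comp
        (Finset.measurable_restrict T)
    · rw [tendsto_pi_nhds]
      intro ω
      rw [Metric.tendsto_nhds]
      intro ε hε
      obtain ⟨δ, hδ, hδΦ⟩ := hΦ (ε / 2) (by positivity)
      obtain ⟨T₀, hT₀⟩ := lf_close M hτ hσ hδ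
      filter_upwards [eventually_ge_atTop T₀] with T hT
      rw [dist_comm, dist_eq_norm]
      refine (hδΦ _ _ (hT₀ T hT _ _ fun v hv => (extz_eq T (T.restrict ω) hv).symm)).trans_lt ?_
      linarith
  exact int_of_bd hmeas fun ω => hB _

/-- **The limit law.** -/
theorem law (hτ : ∀ v m ω, M.τ v m ω = tt a α v (ω v) m) {σ : ℝ} (hσ : 3 / 2 < σ)
    (Φ : (ℂ → ℂ) → ℂ) {B : ℝ} (hB : ∀ F, ‖Φ F‖ ≤ B) (hΦ : ∀ ε : ℝ, 0 < ε → ∃ δ : ℝ, 0 < δ ∧
      ∀ F G : ℂ → ℂ, (∀ s : ℂ, σ ≤ s.re → ‖F s - G s‖ ≤ δ) → ‖Φ F - Φ G‖ ≤ ε)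
    {F : ℕ → Finset (Fin n → 𝓞 K)} (hF : Pool.Agent.W5h26.AO.IsFolner F) :
    Tendsto (fun j => mean (F j) fun h => Φ (LF M fun v => rho v n h)) atTop
      (𝓝 (∫ ω, Φ (LF M ω) ∂(mu K n))) := by
  classical
  -- approximation
  have happ : ∀ ε : ℝ, 0 < ε → ∃ T₀ : Finset (HeightOneSpectrum (𝓞 K)), ∀ T, T₀ ⊆ T →
      ∀ ω : Pt K n, ‖Φ (LF M ω) - Φ (LF M (extz T (T.restrict ω)))‖ ≤ ε := by
    intro ε hε
    obtain ⟨δ, hδ, hδΦ⟩ := hΦ ε hε
    obtain ⟨T₀, hT₀⟩ := lf_close M hτ hσ hδ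
    exact ⟨T₀, fun T hT ω => hδΦ _ _ (hT₀ T hT _ _ fun v hv => (extz_eq T (T.restrict ω) hv).symm)⟩
  have hmeas : Measurable fun ω : Pt K n => Φ (LF M ω) := by
    refine measurable_of_tendsto_metrizable' (atTop : Filter (Finset (HeightOneSpectrum (𝓞 K))))
      (f := fun T ω => Φ (LF M (extz T (T.restrict ω)))) (fun T => ?_) ?_
    · exact (Measurable.of_discrete (f := fun q => Φ (LF M (extz T q)))).comp
        (Finset.measurable_restrict T)
    · rw [tendsto_pi_nhds]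
      intro ω
      rw [Metric.tendsto_nhds]
      intro ε hε
      obtain ⟨T₀, hT₀⟩ := happ (ε / 2) (by positivity)
      filter_upwards [eventually_ge_atTop T₀] with T hT
      rw [dist_comm, dist_eq_norm]
      exact (hT₀ T hT ω).trans_lt (by linarith)
  rw [Metric.tendsto_nhds]
  intro ε hε
  obtain ⟨T, hT⟩ := happ (ε / 4) (by positivity)
  have hT := hT T (Finset.Subset.refl T)
  set ψ : ((v : T) → Fin n → 𝓞 K ⧸ v.1.asIdeal) → ℂ := fun q => Φ (LF M (extz T q)) with hψ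
  have h1 := mean_periodic hF (rhoT T n) (rhoT_surj T n) ψ
  rw [← int_cyl] at h1
  have h2 : ‖(∫ ω, Φ (LF M ω) ∂(mu K n)) - ∫ ω, ψ (T.restrict ω) ∂(mu K n)‖ ≤ ε / 4 := by
    have i1 : Integrable (fun ω : Pt K n => Φ (LF M ω)) (mu K n) := int_of_bd hmeas fun ω => hB _
    have i2 : Integrable (fun ω : Pt K n => ψ (T.restrict ω)) (mu K n) :=
      int_of_bd ((Measurable.of_discrete (f := ψ)).comp (Finset.measurable_restrict T))
        fun ω => hB _
    rw [← integral_sub i1 i2]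
    have := norm_integral_le_of_norm_le_const (μ := mu K n)
      (f := fun ω => Φ (LF M ω) - ψ (T.restrict ω)) (C := ε / 4) (ae_of_all _ fun ω => hT ω)
    rwa [probReal_univ, mul_one] at this
  filter_upwards [Metric.tendsto_nhds.1 h1 (ε / 4) (by positivity)] with j hj
  have h3 : ‖(mean (F j) fun h => Φ (LF M fun v => rho v n h)) -
      mean (F j) fun h => ψ (rhoT T n h)‖ ≤ ε / 4 := by
    have h5 : (mean (F j) fun h => Φ (LF M fun v => rho v n h)) -
        (mean (F j) fun h => ψ (rhoT T n h)) =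
        mean (F j) fun h => (Φ (LF M fun v => rho v n h) - ψ (rhoT T n h)) := by
      unfold mean
      rw [Finset.sum_sub_distrib, sub_div]
    rw [h5]
    refine mean_bound (by positivity) fun h _ => ?_
    exact hT fun v => rho v n h
  rw [dist_eq_norm] at hj ⊢
  have h4 : (mean (F j) fun h => Φ (LF M fun v => rho v n h)) - ∫ ω, Φ (LF M ω) ∂(mu K n) =
      ((mean (F j) fun h => Φ (LF M fun v => rho v n h)) - mean (F j) fun h => ψ (rhoT T n h)) +
      ((mean (F j) fun h => ψ (rhoT T n h)) - ∫ ω, ψ (T.restrict ω) ∂(mu K n)) -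
      ((∫ ω, Φ (LF M ω) ∂(mu K n)) - ∫ ω, ψ (T.restrict ω) ∂(mu K n)) := by ring
  rw [h4]
  refine (norm_sub_le _ _).trans_lt ?_
  have h5 := norm_add_le ((mean (F j) fun h => Φ (LF M fun v => rho v n h)) -
    mean (F j) fun h => ψ (rhoT T n h)) ((mean (F j) fun h => ψ (rhoT T n h)) -
    ∫ ω, ψ (T.restrict ω) ∂(mu K n))
  linarith

/-- a monic polynomial with a separable reduction is separable -/
theorem sep_lift {f : (𝓞 K)[X]} (hf : f.Monic) (v : HeightOneSpectrum (𝓞 K))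
    (h : (red v f).Separable) : (f.map (algebraMap (𝓞 K) K)).Separable := by
  have hinj : Function.Injective (algebraMap (𝓞 K) K) := IsFractionRing.injective (𝓞 K) K
  rw [PerfectField.separable_iff_squarefree]
  set F : K[X] := f.map (algebraMap (𝓞 K) K) with hF
  have hFm : F.Monic := hf.map _
  intro d hd
  have hd0 : d ≠ 0 := by
    rintro rfl
    rw [zero_mul, zero_dvd_iff] at hd
    exact hFm.ne_zero hd
  obtain ⟨e, he⟩ := hd
  have he0 : e ≠ 0 := by
    rintro rfl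
    rw [mul_zero] at he
    exact hFm.ne_zero he
  obtain ⟨d', hd'⟩ := IsIntegrallyClosed.eq_map_mul_C_of_dvd K hf (g := d)
    ⟨d * e, by rw [← hF, he]; ring⟩
  obtain ⟨e', he'⟩ := IsIntegrallyClosed.eq_map_mul_C_of_dvd K hf (g := e)
    ⟨d * d, by rw [← hF, he]; ring⟩
  have hlc : d.leadingCoeff * d.leadingCoeff * e.leadingCoeff = 1 := by
    have := congrArg Polynomial.leadingCoeff he
    rw [hFm.leadingCoeff, leadingCoeff_mul, leadingCoeff_mul] at this
    exact this.symm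
  have hfe : f = d' * d' * e' := by
    apply Polynomial.map_injective _ hinj
    rw [← hF, he, Polynomial.map_mul, Polynomial.map_mul]
    nth_rw 1 [← hd']
    nth_rw 2 [← hd']
    rw [← he']
    have h1 : (C d.leadingCoeff : K[X]) * C d.leadingCoeff * C e.leadingCoeff = 1 := by
      rw [← C_mul, ← C_mul, hlc, C_1]
    linear_combination (Polynomial.map (algebraMap (𝓞 K) K) d' *
      Polynomial.map (algebraMap (𝓞 K) K) d' * Polynomial.map (algebraMap (𝓞 K) K) e') * h1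
  have hd'm : d'.leadingCoeff = 1 := by
    have h1 := congrArg Polynomial.leadingCoeff hd'
    rw [leadingCoeff_mul, leadingCoeff_map_of_injective hinj, leadingCoeff_C] at h1
    have h2 : algebraMap (𝓞 K) K d'.leadingCoeff = 1 :=
      mul_right_cancel₀ (leadingCoeff_ne_zero.2 hd0) (h1.trans (one_mul _).symm)
    exact hinj (h2.trans (map_one _).symm)
  have hsq := h.squarefree
  have h1 : IsUnit (red v d') := by
    refine hsq _ ⟨red v e', ?_⟩
    unfold red
    rw [← Polynomial.map_mul, ← Polynomial.map_mul, ← hfe]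
  have hdm : (red v d').Monic := Polynomial.Monic.map _ hd'm
  have h2 : (red v d').natDegree = 0 := natDegree_eq_zero_of_isUnit h1
  have h3 : d'.natDegree = 0 := by
    rw [← h2]
    exact (Polynomial.Monic.natDegree_map (show d'.Monic from hd'm) _).symm
  have h4 : d' = 1 := (show d'.Monic from hd'm).natDegree_eq_zero.1 h3
  rw [← hd', h4, Polynomial.map_one, one_mul]
  exact isUnit_C.2 (isUnit_iff_ne_zero.2 (leadingCoeff_ne_zero.2 hd0))

/-- every L-function of the space is approximated by L-functions of curves -/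
theorem dense (ha : a.Monic) (hd : a.natDegree = 2 * g + 1) (hn : n + r ≤ 2 * g + 1)
    (hτ : ∀ v m ω, M.τ v m ω = tt a α v (ω v) m)
    (hs : ∀ᶠ v : HeightOneSpectrum (𝓞 K) in cofinite,
      ∃ h : Fin n → 𝓞 K ⧸ v.asIdeal, tt a α v h 0 ≠ 0)
    {σ : ℝ} (hσ : 3 / 2 < σ) {ε : ℝ} (hε : 0 < ε) (ω : Pt K n)
    (S : Finset (HeightOneSpectrum (𝓞 K))) :
    ∃ h : Fin n → 𝓞 K, ((mem a α h).map (algebraMap (𝓞 K) K)).Separable ∧
      (∀ v ∈ S, rho v n h = ω v) ∧
      ∀ s : ℂ, σ ≤ s.re → ‖LF M (fun v => rho v n h) s - LF M ω s‖ ≤ ε := by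
  classical
  obtain ⟨T₀, hT₀⟩ := lf_close M hτ hσ hε
  set T : Finset (HeightOneSpectrum (𝓞 K)) := T₀ ∪ S with hTdef
  have hT := hT₀ T Finset.subset_union_left
  -- a further place
  have hinf : Infinite (HeightOneSpectrum (𝓞 K)) := by
    by_contra h
    rw [not_infinite_iff_finite] at h
    exact nm_div K (Summable.of_finite)
  obtain ⟨v₀, hv₀, hv₀T⟩ : ∃ v₀ : HeightOneSpectrum (𝓞 K),
      (∃ h : Fin n → 𝓞 K ⧸ v₀.asIdeal, tt a α v₀ h 0 ≠ 0) ∧ v₀ ∉ T := by
    have h1 : ∀ᶠ v : HeightOneSpectrum (𝓞 K) in cofinite, v ∉ T :=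
      T.finite_toSet.compl_mem_cofinite
    exact (hs.and h1).exists
  obtain ⟨h₀, hh₀⟩ := hv₀
  obtain ⟨h, hh⟩ := rhoT_surj (insert v₀ T) n (fun v => Function.update ω v₀ h₀ v.1)
  have hhv : ∀ v, v ∈ insert v₀ T → rho v n h = Function.update ω v₀ h₀ v := by
    intro v hv
    exact congrFun hh ⟨v, hv⟩
  have hhT : ∀ v ∈ T, rho v n h = ω v := by
    intro v hv
    have h0 : v ≠ v₀ := fun h0 => hv₀T (h0 ▸ hv)
    rw [hhv v (Finset.mem_insert_of_mem hv), Function.update_of_ne h0]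
  refine ⟨h, ?_, fun v hv => hhT v (Finset.mem_union_right _ hv), hT _ _ hhT⟩
  · -- the reduction at `v₀` is separable
    have h1 : rho v₀ n h = h₀ := by
      rw [hhv v₀ (Finset.mem_insert_self _ _), Function.update_self]
    have h2 : (red v₀ (mem a α h)).Separable := by
      rw [red_mem]
      have h3 : (fun i => Ideal.Quotient.mk v₀.asIdeal (h i)) = h₀ := h1
      rw [h3]
      by_contra h4
      apply hh₀
      unfold tt gtr
      rw [if_neg fun h5 => h4 h5.2, zero_div]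
    exact sep_lift (mem_monic ha hd hn α h).1 v₀ h2

end

end Pool.Agent.W5h88.NB
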