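import Pool.Agent.W5h88.NB.Ins

/-!
# The limit law of the L-functions of the family
-/

set_option autoImplicit false
set_option linter.unusedSectionVars false
set_option maxHeartbeats 400000

open MeasureTheory ProbabilityTheory Filter Topology Complex Polynomial Metric
open NumberField IsDedekindDomain Pool.Agent.H921R2.TatePole
open Pool.Agent.R409.RA (fieldQuot finiteQuot)

namespace Pool.Agent.W5h88.NB

open Pool.Agent.W5h26.AO Pool.Agent.W5h26.EP

section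

variable {K : Type} [Field K] [NumberField K] {r n g : ℕ} {a : (𝓞 K)[X]} {α y : Fin r → 𝓞 K}

variable (K) in
/-- the parameter space -/
abbrev Pt (n : ℕ) : Type := (v : HeightOneSpectrum (𝓞 K)) → Fin n → 𝓞 K ⧸ v.asIdeal

/-- both signs occur -/
theorem signs (ha : a.Monic) (hd : a.natDegree = 2 * g + 1) (hn : n + 2 + r = 2 * g + 1)
    (hα : Function.Injective α) (hy : ∀ j, a.eval (α j) = y j ^ 2) (hy0 : ∀ j, y j ≠ 0) :
    ∀ᶠ v : HeightOneSpectrum (𝓞 K) in cofinite,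
      (∃ h : Fin (n + 2) → 𝓞 K ⧸ v.asIdeal, (16 * (g : ℝ))⁻¹ ≤ tt a α v h 0) ∧
      (∃ h : Fin (n + 2) → 𝓞 K ⧸ v.asIdeal, tt a α v h 0 ≤ -(16 * (g : ℝ))⁻¹) := by
  obtain ⟨C, hC0, hC⟩ := exists_C ha hd hn hα hy hy0
  have hg : (1 : ℝ) ≤ g := by
    have : 1 ≤ g := by omega
    exact_mod_cast this
  filter_upwards [nm_large (K := K) (max (2 * C) ((8 * g * C) ^ 2))] with v hv
  have hv1 : 2 * C < nm v := (le_max_left _ _).trans_lt hv
  have hv2 : (8 * g * C) ^ 2 < nm v := (le_max_right _ _).trans_lt hv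
  obtain ⟨h1, h2⟩ := hC v
  set A : ℝ := (∑ h : Fin (n + 2) → 𝓞 K ⧸ v.asIdeal, tt a α v h 0) / (nm v : ℝ) ^ (n + 2) with hA
  set Q : ℝ := (∑ h : Fin (n + 2) → 𝓞 K ⧸ v.asIdeal, tt a α v h 0 ^ 2) / (nm v : ℝ) ^ (n + 2)
    with hQ
  have hN : (0 : ℝ) < (nm v : ℝ) ^ (n + 2) := pow_pos (nm_pos v) _
  have hcard : ((Finset.univ : Finset (Fin (n + 2) → 𝓞 K ⧸ v.asIdeal)).card : ℝ) =
      (nm v : ℝ) ^ (n + 2) := by
    rw [Finset.card_univ, Fintype.card_fun, Fintype.card_fin, card_q]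
    push_cast
    rfl
  have hA' : |A| ≤ (8 * (g : ℝ))⁻¹ := by
    refine h1.trans ?_
    have h3 : 8 * g * C ≤ √(nm v : ℝ) := Real.le_sqrt_of_sq_le hv2.le
    rw [Real.rpow_neg (nm_pos v).le, ← Real.sqrt_eq_rpow, ← div_eq_mul_inv,
      div_le_iff₀ (sqrt_pos v)]
    have h4 : (0 : ℝ) < (8 * (g : ℝ))⁻¹ := by positivity
    calc C = (8 * (g : ℝ))⁻¹ * (8 * g * C) := by
          have : (g : ℝ) ≠ 0 := by positivity
          field_simp
      _ ≤ (8 * (g : ℝ))⁻¹ * √(nm v : ℝ) := mul_le_mul_of_nonneg_left h3 h4.le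
  have hQ' : 1 / 2 ≤ Q := by
    have h3 := (abs_le.1 h2).1
    have h4 : C / nm v ≤ 1 / 2 := by
      rw [div_le_iff₀ (nm_pos v)]
      linarith
    linarith
  have hb : ∀ h : Fin (n + 2) → 𝓞 K ⧸ v.asIdeal, |tt a α v h 0| ≤ 2 * g :=
    fun h => tt_bd ha hd hn.le v h 0
  set c : ℝ := (16 * (g : ℝ))⁻¹ with hc
  have hcB : c * (2 * g) = 1 / 8 := by
    rw [hc]
    have : (g : ℝ) ≠ 0 := by positivity
    field_simp
    norm_num
  have hc0 : 0 < c := by positivity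
  have hgA : 2 * g * |A| ≤ 1 / 4 := by
    have h3 : 2 * (g : ℝ) * (8 * (g : ℝ))⁻¹ = 1 / 4 := by
      have : (g : ℝ) ≠ 0 := by positivity
      field_simp
      norm_num
    rw [← h3]
    exact mul_le_mul_of_nonneg_left hA' (by positivity)
  have hsum : ∀ s : ℝ, (∑ h : Fin (n + 2) → 𝓞 K ⧸ v.asIdeal, (c * (2 * g) + s * tt a α v h 0)) /
      (nm v : ℝ) ^ (n + 2) = c * (2 * g) + s * A := by
    intro s
    rw [Finset.sum_add_distrib, Finset.sum_const, nsmul_eq_mul, hcard, ← Finset.mul_sum, hA]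
    field_simp
  constructor
  · by_contra hcon
    push Not at hcon
    have h3 : Q ≤ c * (2 * g) + (c - 2 * g) * A := by
      rw [← hsum, hQ]
      refine div_le_div_of_nonneg_right (Finset.sum_le_sum fun h _ => ?_) hN.le
      have h4 := hcon h
      have h5 := (abs_le.1 (hb h)).1
      nlinarith
    have h6 : (c - 2 * g) * A ≤ 2 * g * |A| + c * |A| := by
      have h7 := neg_abs_le A
      have h8 := le_abs_self A
      nlinarith
    have h9 : c * |A| < 1 / 8 := by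
      have h10 : |A| < 2 * g := by
        have : (8 * (g : ℝ))⁻¹ < 2 * g := by
          rw [inv_lt_comm₀ (by positivity) (by positivity)]
          have : (2 * (g : ℝ))⁻¹ ≤ 2⁻¹ := inv_anti₀ (by norm_num) (by linarith)
          linarith
        linarith
      rw [← hcB]
      exact mul_lt_mul_of_pos_left h10 hc0
    linarith
  · by_contra hcon
    push Not at hcon
    have h3 : Q ≤ c * (2 * g) + (2 * g - c) * A := by
      rw [← hsum, hQ]
      refine div_le_div_of_nonneg_right (Finset.sum_le_sum fun h _ => ?_) hN.le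
      have h4 := hcon h
      have h5 := (abs_le.1 (hb h)).2
      nlinarith
    have h6 : (2 * g - c) * A ≤ 2 * g * |A| + c * |A| := by
      have h7 := neg_abs_le A
      have h8 := le_abs_self A
      nlinarith
    have h9 : c * |A| < 1 / 8 := by
      have h10 : |A| < 2 * g := by
        have : (8 * (g : ℝ))⁻¹ < 2 * g := by
          rw [inv_lt_comm₀ (by positivity) (by positivity)]
          have : (2 * (g : ℝ))⁻¹ ≤ 2⁻¹ := inv_anti₀ (by norm_num) (by linarith)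
          linarith
        linarith
      rw [← hcB]
      exact mul_lt_mul_of_pos_left h10 hc0
    linarith

/-- the sign property -/
theorem ext_mdl (ha : a.Monic) (hd : a.natDegree = 2 * g + 1) (hn : n + 2 + r = 2 * g + 1)
    (hα : Function.Injective α) (hy : ∀ j, a.eval (α j) = y j ^ 2) (hy0 : ∀ j, y j ≠ 0)
    (M : Mdl (HeightOneSpectrum (𝓞 K)) (Pt K (n + 2)) (mu K (n + 2)))
    (hτ : ∀ v m ω, M.τ v m ω = tt a α v (ω v) m) : M.Ext (16 * (g : ℝ))⁻¹ := by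
  classical
  intro O hO hne σ
  obtain ⟨ω₀, hω₀⟩ := hne
  obtain ⟨I, u, hu, huO⟩ := isOpen_pi_iff.1 hO ω₀ hω₀
  have hfin := signs ha hd hn hα hy hy0
  rw [Filter.eventually_cofinite] at hfin
  have hch : ∀ v : HeightOneSpectrum (𝓞 K), v ∉ hfin.toFinset →
      ∃ h : Fin (n + 2) → 𝓞 K ⧸ v.asIdeal, (σ v → (16 * (g : ℝ))⁻¹ ≤ tt a α v h 0) ∧
        (¬ σ v → tt a α v h 0 ≤ -(16 * (g : ℝ))⁻¹) := by
    intro v hv
    rw [Set.Finite.mem_toFinset, Set.mem_ofPred_eq, not_not] at hv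
    by_cases hσ : σ v
    · obtain ⟨h, hh⟩ := hv.1
      exact ⟨h, fun _ => hh, fun h0 => absurd hσ h0⟩
    · obtain ⟨h, hh⟩ := hv.2
      exact ⟨h, fun h0 => absurd h0 hσ, fun _ => hh⟩
  choose! hx hhx using hch
  refine ⟨I ∪ hfin.toFinset, fun v => if v ∈ I then ω₀ v else hx v, huO ?_, fun v hv => ?_⟩
  · intro v hv
    simp only [if_pos (Finset.mem_coe.1 hv)]
    exact (hu v hv).2
  · rw [Finset.mem_union, not_or] at hv
    rw [hτ]
    simp only [if_neg hv.1]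
    exact hhx v hv.2

theorem zz_exp (v : HeightOneSpectrum (𝓞 K)) (s : ℂ) :
    zz v s = cexp (-(s - 1 / 2) * ((Real.log (nm v) : ℝ) : ℂ)) := by
  have h0 : (0 : ℝ) < nm v := nm_pos v
  have h1 : ((√(nm v : ℝ) : ℝ) : ℂ) = cexp (((1 / 2 : ℝ) : ℂ) * ((Real.log (nm v) : ℝ) : ℂ)) := by
    rw [← Complex.ofReal_mul, ← Complex.ofReal_exp, Real.sqrt_eq_rpow, Real.rpow_def_of_pos h0]
    congr 2
    ring
  have h2 : ((nm v : ℕ) : ℂ) ^ (-s) = cexp (-s * ((Real.log (nm v) : ℝ) : ℂ)) := by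
    rw [Complex.cpow_def_of_ne_zero (nmC_ne v), Complex.natCast_log, mul_comm]
  unfold zz
  rw [h1, h2, ← Complex.exp_add]
  congr 1
  push_cast
  ring

theorem lam_eq_sl (M : Mdl (HeightOneSpectrum (𝓞 K)) (Pt K n) (mu K n))
    (hq : ∀ v, M.q v = nm v) (hτ : ∀ v m ω, M.τ v m ω = tt a α v (ω v) m) (ω : Pt K n) {s : ℂ}
    (hs : 3 / 2 < s.re) :
    M.Lam ω (s - 1 / 2) = ∑' v : HeightOneSpectrum (𝓞 K), sl a α v (ω v) s ∧
    Summable fun v : HeightOneSpectrum (𝓞 K) => sl a α v (ω v) s := by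
  have hterm : ∀ p : HeightOneSpectrum (𝓞 K) × ℕ, M.cf 0 ω p * cexp (-(s - 1 / 2) * M.fr 0 p) =
      (tt a α p.1 (ω p.1) p.2 : ℂ) * zz p.1 s ^ (p.2 + 1) / (p.2 + 1) := by
    intro p
    unfold Mdl.cf Mdl.fr Mdl.l
    rw [hτ, hq, zz_exp, ← Complex.exp_nat_mul]
    simp only [add_zero, Nat.cast_zero]
    have : -(s - 1 / 2) * (((p.2 + 1 : ℝ) * Real.log (nm p.1) : ℝ) : ℂ) =
        ((p.2 + 1 : ℕ) : ℂ) * (-(s - 1 / 2) * ((Real.log (nm p.1) : ℝ) : ℂ)) := by
      push_cast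
      ring
    rw [this]
    ring
  have hre : (s - 1 / 2).re = s.re - 1 / 2 := by simp
  have hsum : Summable fun p : HeightOneSpectrum (𝓞 K) × ℕ =>
      M.cf 0 ω p * cexp (-(s - 1 / 2) * M.fr 0 p) := by
    refine Summable.of_norm_bounded (M.cf_sum (j := 0) (x := s.re - 1 / 2) (by linarith)
      (by push_cast; linarith) ω) fun p => ?_
    rw [norm_mul, Complex.norm_exp]
    have h1 : (-(s - 1 / 2) * (M.fr 0 p : ℂ)).re = -((s.re - 1 / 2) * M.fr 0 p) := by
      simp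
      ring
    rw [h1]
  have hsl : ∀ v, sl a α v (ω v) s = ∑' m : ℕ, M.cf 0 ω (v, m) * cexp (-(s - 1 / 2) * M.fr 0 (v, m)) := by
    intro v
    rw [sl_eq]
    unfold SS
    exact tsum_congr fun m => (hterm (v, m)).symm
  have h2 := hsum.hasSum.prod_fiberwise fun v => (hsum.prod_factor v).hasSum
  have h3 := h2.congr_fun hsl
  constructor
  · exact h3.tsum_eq.symm
  · exact h3.summable

/-- the Euler product at a point of the parameter space -/
theorem euler_pt (M : Mdl (HeightOneSpectrum (𝓞 K)) (Pt K n) (mu K n))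
    (hq : ∀ v, M.q v = nm v) (hτ : ∀ v m ω, M.τ v m ω = tt a α v (ω v) m) (ω : Pt K n) {s : ℂ}
    (hs : 3 / 2 < s.re) :
    HasProd (fun v : {v : HeightOneSpectrum (𝓞 K) // (2 : 𝓞 K) ∉ v.asIdeal ∧
        (mem (red v a) (fun j => Ideal.Quotient.mk v.asIdeal (α j)) (ω v)).Separable} =>
      cexp (∑' m : ℕ, (tr (mem (red v.1 a) (fun j => Ideal.Quotient.mk v.1.asIdeal (α j))
        (ω v.1)) (m + 1) : ℂ) * ((nm v.1 : ℂ) ^ (-s)) ^ (m + 1) / (m + 1)))
      (cexp (M.Lam ω (s - 1 / 2))) := by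
  classical
  obtain ⟨h1, h2⟩ := lam_eq_sl M hq hτ ω hs
  have hg : ∀ (v : HeightOneSpectrum (𝓞 K)) (m : ℕ),
      gtr (mem (red v a) (fun j => Ideal.Quotient.mk v.asIdeal (α j)) (ω v)) m =
      if ((2 : 𝓞 K) ∉ v.asIdeal ∧
        (mem (red v a) (fun j => Ideal.Quotient.mk v.asIdeal (α j)) (ω v)).Separable) then
        (tr (mem (red v a) (fun j => Ideal.Quotient.mk v.asIdeal (α j)) (ω v)) m : ℝ) else 0 := by
    intro v m
    unfold gtr
    have h := char_two v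
    by_cases h1 : (2 : 𝓞 K) ∉ v.asIdeal
    · by_cases h2 : (mem (red v a) (fun j => Ideal.Quotient.mk v.asIdeal (α j)) (ω v)).Separable
      · rw [if_pos ⟨h.2 h1, h2⟩, if_pos ⟨h1, h2⟩]
      · rw [if_neg fun h0 => h2 h0.2, if_neg fun h0 => h2 h0.2]
    · rw [if_neg fun h0 => h1 (h.1 h0.1), if_neg fun h0 => h1 h0.1]
  have h3 : Function.support (fun v : HeightOneSpectrum (𝓞 K) => sl a α v (ω v) s) ⊆
      {v | (2 : 𝓞 K) ∉ v.asIdeal ∧
        (mem (red v a) (fun j => Ideal.Quotient.mk v.asIdeal (α j)) (ω v)).Separable} := by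
    intro v hv
    by_contra h0
    apply hv
    have h0' : ¬ ((2 : 𝓞 K) ∉ v.asIdeal ∧
        (mem (red v a) (fun j => Ideal.Quotient.mk v.asIdeal (α j)) (ω v)).Separable) := h0
    unfold sl
    simp only [hg, if_neg h0']
    simp
  have h4 := ((hasSum_subtype_iff_of_support_subset h3).2 h2.hasSum).cexp
  rw [← h1] at h4
  refine h4.congr_fun ?_
  rintro ⟨v, hv⟩
  have hv' : ((2 : 𝓞 K) ∉ v.asIdeal ∧
        (mem (red v a) (fun j => Ideal.Quotient.mk v.asIdeal (α j)) (ω v)).Separable) := hv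
  show _ = cexp (sl a α v (ω v) s)
  unfold sl
  simp only [hg, if_pos hv']
  congr 1

end

end Pool.Agent.W5h88.NB
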