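import Mathlib

/-!
# Taylor coefficients of general Dirichlet series, and analytic continuation
-/

set_option autoImplicit false
set_option linter.unusedSectionVars false
set_option maxHeartbeats 400000

open Filter Topology Complex Set Metric

namespace Pool.Agent.W5h88.NB

/-- the Taylor coefficient at `c` of one exponential -/
noncomputable def ct (n : ℝ) (c : ℂ) (k : ℕ) : ℂ := cexp (-c * n) * ((-(n : ℂ)) ^ k / (k.factorial : ℂ))

theorem ct_norm {n : ℝ} (hn : 0 ≤ n) (c : ℂ) (k : ℕ) :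
    ‖ct n c k‖ = Real.exp (-(c.re * n)) * (n ^ k / k.factorial) := by
  unfold ct
  rw [norm_mul, Complex.norm_exp, norm_div, norm_pow, norm_neg, Complex.norm_real, Real.norm_eq_abs,
    abs_of_nonneg hn, Complex.norm_natCast]
  congr 2
  simp

theorem ct_le {n : ℝ} (hn : 0 ≤ n) (c : ℂ) (k : ℕ) {y : ℝ} (hy : 0 < y) :
    ‖ct n c k‖ ≤ Real.exp (-((c.re - y) * n)) * (y ^ k)⁻¹ := by
  rw [ct_norm hn]
  have h1 : (y * n) ^ k / k.factorial ≤ Real.exp (y * n) :=
    Real.pow_div_factorial_le_exp (y * n) (by positivity) k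
  have h2 : n ^ k / k.factorial ≤ Real.exp (y * n) * (y ^ k)⁻¹ := by
    rw [← div_eq_mul_inv, le_div_iff₀ (by positivity)]
    refine le_trans (le_of_eq ?_) h1
    rw [mul_pow]
    ring
  refine (mul_le_mul_of_nonneg_left h2 (Real.exp_pos _).le).trans (le_of_eq ?_)
  rw [← mul_assoc, ← Real.exp_add]
  congr 2
  ring

theorem ct_sum (n : ℝ) (c w : ℂ) : HasSum (fun k => ct n c k * w ^ k) (cexp (-(c + w) * n)) := by
  have h1 := (NormedSpace.expSeries_div_hasSum_exp (𝔸 := ℂ) (-(n : ℂ) * w)).mul_left (cexp (-c * n))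
  rw [← Complex.exp_eq_exp_ℂ, ← Complex.exp_add] at h1
  have h2 : -c * n + -(n : ℂ) * w = -(c + w) * n := by ring
  rw [h2] at h1
  refine h1.congr_fun fun k => ?_
  unfold ct
  rw [mul_pow]
  ring

variable {P : Type} {n : P → ℝ} {a : P → ℂ}

/-- the Taylor coefficients -/
noncomputable def co (n : P → ℝ) (a : P → ℂ) (c : ℂ) (k : ℕ) : ℂ := ∑' p, a p * ct (n p) c k

theorem co_term {c : ℂ} {y : ℝ} (hn : ∀ p, 0 ≤ n p) (hy : 0 < y) (p : P) (k : ℕ) :
    ‖a p * ct (n p) c k‖ ≤ ‖a p‖ * Real.exp (-((c.re - y) * n p)) * (y ^ k)⁻¹ := by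
  rw [norm_mul, mul_assoc]
  exact mul_le_mul_of_nonneg_left (ct_le (hn p) c k hy) (norm_nonneg _)

theorem co_summable {c : ℂ} {y : ℝ} (hn : ∀ p, 0 ≤ n p) (hy : 0 < y)
    (hs : Summable fun p => ‖a p‖ * Real.exp (-((c.re - y) * n p))) (k : ℕ) :
    Summable fun p => a p * ct (n p) c k :=
  Summable.of_norm_bounded (hs.mul_right _) fun p => co_term hn hy p k

theorem co_bd {c : ℂ} {y : ℝ} (hn : ∀ p, 0 ≤ n p) (hy : 0 < y)
    (hs : Summable fun p => ‖a p‖ * Real.exp (-((c.re - y) * n p))) (k : ℕ) :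
    ‖co n a c k‖ ≤ (∑' p, ‖a p‖ * Real.exp (-((c.re - y) * n p))) * (y ^ k)⁻¹ := by
  refine (tsum_of_norm_bounded (hs.mul_right _).hasSum fun p => co_term hn hy p k).trans
    (le_of_eq ?_)
  rw [tsum_mul_right]

theorem co_hasSum {c : ℂ} {y : ℝ} (hn : ∀ p, 0 ≤ n p) (hy : 0 < y)
    (hs : Summable fun p => ‖a p‖ * Real.exp (-((c.re - y) * n p))) {w : ℂ} (hw : ‖w‖ ≤ y) :
    HasSum (fun k => co n a c k * w ^ k) (∑' p, a p * cexp (-(c + w) * n p)) := by
  have h1 : ∀ p, HasSum (fun k => a p * ct (n p) c k * w ^ k) (a p * cexp (-(c + w) * n p)) := by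
    intro p
    have := (ct_sum (n p) c w).mul_left (a p)
    refine this.congr_fun fun k => ?_
    ring
  have h2 : Summable fun z : P × ℕ => a z.1 * ct (n z.1) c z.2 * w ^ z.2 := by
    refine Summable.of_norm_bounded (g := fun z : P × ℕ => ‖a z.1‖ *
      (Real.exp (-(c.re * n z.1)) * ((y * n z.1) ^ z.2 / z.2.factorial))) ?_ ?_
    · refine (summable_prod_of_nonneg fun z => ?_).2 ⟨fun p => ?_, ?_⟩
      · have := hn z.1
        positivity
      · show Summable fun k : ℕ => ‖a p‖ * (Real.exp (-(c.re * n p)) *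
          ((y * n p) ^ k / (k.factorial : ℝ)))
        exact ((Real.summable_pow_div_factorial (y * n p)).mul_left _).mul_left _
      · refine hs.congr fun p => ?_
        show ‖a p‖ * Real.exp (-((c.re - y) * n p)) = ∑' k : ℕ, ‖a p‖ * (Real.exp (-(c.re * n p)) *
          ((y * n p) ^ k / (k.factorial : ℝ)))
        rw [tsum_mul_left, tsum_mul_left]
        congr 1
        have h3 : ∑' k : ℕ, (y * n p) ^ k / k.factorial = Real.exp (y * n p) := by
          rw [Real.exp_eq_exp_ℝ, NormedSpace.exp_eq_tsum_div]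
        rw [h3, ← Real.exp_add]
        congr 1
        ring
    · intro z
      rw [norm_mul, norm_mul, ct_norm (hn z.1), norm_pow, mul_assoc, mul_pow, mul_assoc]
      refine mul_le_mul_of_nonneg_left ?_ (norm_nonneg _)
      refine mul_le_mul_of_nonneg_left ?_ (Real.exp_pos _).le
      have h3 := pow_le_pow_left₀ (norm_nonneg w) hw z.2
      have h4 := hn z.1
      rw [div_mul_eq_mul_div, mul_comm]
      gcongr
  have h3 := h2.hasSum.prod_fiberwise h1
  have h4 : HasSum (fun z : ℕ × P => a z.2 * ct (n z.2) c z.1 * w ^ z.1)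
      (∑' z : P × ℕ, a z.1 * ct (n z.1) c z.2 * w ^ z.2) :=
    ((Equiv.prodComm ℕ P).hasSum_iff (f := fun z : P × ℕ => a z.1 * ct (n z.1) c z.2 * w ^ z.2)).2
      h2.hasSum
  have h5 := h4.prod_fiberwise fun k => ((co_summable hn hy hs k).hasSum.mul_right (w ^ k))
  rw [h3.tsum_eq]
  exact h5

/-- Taylor coefficients of a function which is analytic beyond a closed disc -/
theorem coef_of_analytic {F : ℂ → ℂ} {U : Set ℂ} (hU : IsOpen U) (hF : DifferentiableOn ℂ F U)
    {c : ℂ} {r : ℝ} (hr : 0 < r) (hc : closedBall c r ⊆ U) {D : ℕ → ℂ} {y : ℝ} (hy : 0 < y)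
    (hD : ∀ w : ℂ, ‖w‖ < y → HasSum (fun k => D k * w ^ k) (F (c + w))) :
    ∃ r' : ℝ, r < r' ∧ ∃ C : ℝ, ∀ k, ‖D k‖ * r' ^ k ≤ C := by
  obtain ⟨δ, hδ, hδU⟩ := (isCompact_closedBall c r).exists_cthickening_subset_open hU hc
  have h1 : closedBall c (r + δ) ⊆ U := by
    rw [cthickening_closedBall hδ.le hr.le, add_comm] at hδU
    exact hδU
  set R : NNReal := (r + δ).toNNReal with hR
  have hRe : (R : ℝ) = r + δ := Real.coe_toNNReal _ (by positivity)
  have hR0 : 0 < R := by
    rw [hR, Real.toNNReal_pos]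
    positivity
  have h2 : HasFPowerSeriesOnBall F (cauchyPowerSeries F c R) c R := by
    refine DifferentiableOn.hasFPowerSeriesOnBall ?_ hR0
    rw [hRe]
    exact hF.mono h1
  have h3 : HasFPowerSeriesAt F (FormalMultilinearSeries.ofScalars ℂ D) c := by
    rw [hasFPowerSeriesAt_iff]
    filter_upwards [Metric.ball_mem_nhds (0 : ℂ) hy] with w hw
    rw [mem_ball_zero_iff] at hw
    refine (hD w hw).congr_fun fun k => ?_
    rw [FormalMultilinearSeries.coeff_ofScalars, smul_eq_mul, mul_comm]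
  have h4 := h3.eq_formalMultilinearSeries h2.hasFPowerSeriesAt
  set r' : NNReal := (r + δ / 2).toNNReal with hr'
  have hr'e : (r' : ℝ) = r + δ / 2 := Real.coe_toNNReal _ (by positivity)
  have h5 : (r' : ENNReal) < (cauchyPowerSeries F c R).radius := by
    refine lt_of_lt_of_le ?_ h2.r_le
    rw [ENNReal.coe_lt_coe, ← NNReal.coe_lt_coe, hr'e, hRe]
    linarith
  obtain ⟨C, hC, hCb⟩ := (cauchyPowerSeries F c R).norm_mul_pow_le_of_lt_radius h5
  refine ⟨r', by rw [hr'e]; linarith, C, fun k => ?_⟩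
  refine le_trans ?_ (hCb k)
  refine mul_le_mul_of_nonneg_right ?_ (by positivity)
  have h6 : D k = (cauchyPowerSeries F c R).coeff k := by
    rw [← h4, FormalMultilinearSeries.coeff_ofScalars]
  rw [h6]
  exact le_of_eq (cauchyPowerSeries F c R).norm_apply_eq_norm_coef.symm

/-- power series are analytic in the disc of convergence -/
theorem diff_of_coef {D : ℕ → ℂ} {r : ℝ} (hD : ∀ y : ℝ, 0 < y → y < r → ∃ C, ∀ k, ‖D k‖ * y ^ k ≤ C)
    (c : ℂ) : DifferentiableOn ℂ (fun s => ∑' k, D k * (s - c) ^ k) (ball c r) := by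
  intro s hs
  rw [mem_ball, dist_eq_norm] at hs
  obtain ⟨y, hy1, hy2⟩ := exists_between hs
  obtain ⟨y', hy3, hy4⟩ := exists_between hy2
  have hy0 : 0 < y := (norm_nonneg _).trans_lt hy1
  obtain ⟨C, hC⟩ := hD y' (hy0.trans hy3) hy4
  have h1 : DifferentiableOn ℂ (fun s => ∑' k, D k * (s - c) ^ k) (ball c y) := by
    refine differentiableOn_tsum_of_summable_norm (u := fun k => C * (y / y') ^ k) ?_
      (fun k => by fun_prop) isOpen_ball fun k w hw => ?_
    · exact (summable_geometric_of_lt_one (div_nonneg hy0.le (hy0.trans hy3).le)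
        ((div_lt_one (hy0.trans hy3)).2 hy3)).mul_left C
    · rw [mem_ball, dist_eq_norm] at hw
      have h2 : 0 < y' ^ k := pow_pos (hy0.trans hy3) k
      have h3 : ‖D k‖ ≤ C / y' ^ k := by
        rw [le_div_iff₀ h2]
        exact hC k
      rw [norm_mul, norm_pow, div_pow, mul_div_assoc', div_eq_mul_inv, mul_right_comm,
        ← div_eq_mul_inv]
      exact mul_le_mul h3 (pow_le_pow_left₀ (norm_nonneg _) hw.le k) (by positivity)
        ((norm_nonneg _).trans h3)
  exact (h1.differentiableAt (isOpen_ball.mem_nhds (by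
    rw [mem_ball, dist_eq_norm]
    exact hy1))).differentiableWithinAt

/-- two analytic functions which agree near a point agree on a convex open set -/
theorem eq_on_convex {F G : ℂ → ℂ} {U : Set ℂ} (hU : IsOpen U) (hUc : Convex ℝ U)
    (hF : DifferentiableOn ℂ F U) (hG : DifferentiableOn ℂ G U) {z : ℂ} (hz : z ∈ U)
    (h : F =ᶠ[𝓝 z] G) {s : ℂ} (hs : s ∈ U) : F s = G s :=
  (hF.analyticOnNhd hU).eqOn_of_preconnected_of_eventuallyEq (hG.analyticOnNhd hU)
    hUc.isPreconnected hz h hs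

theorem isOpen_re (a : ℝ) : IsOpen {s : ℂ | a < s.re} := isOpen_lt continuous_const Complex.continuous_re

theorem convex_re (a : ℝ) : Convex ℝ {s : ℂ | a < s.re} := convex_halfSpace_re_gt a

theorem mem_big_disc {a : ℝ} {s : ℂ} (hs : a < s.re) :
    ∃ N : ℕ, ∀ j : ℕ, N ≤ j → s ∈ ball (j : ℂ) (j - a) := by
  obtain ⟨N, hN⟩ := exists_nat_gt (max (max a 0) ((s.re ^ 2 + s.im ^ 2 - a ^ 2) / (2 * (s.re - a))))
  refine ⟨N, fun j hj => ?_⟩
  have h1 : (N : ℝ) ≤ j := by exact_mod_cast hj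
  have h2 : max a 0 < j := (le_max_left _ _).trans_lt (hN.trans_le h1)
  have h3 : a < j := (le_max_left _ _).trans_lt h2
  have h4 : (s.re ^ 2 + s.im ^ 2 - a ^ 2) / (2 * (s.re - a)) < j :=
    (le_max_right _ _).trans_lt (hN.trans_le h1)
  rw [div_lt_iff₀ (by linarith)] at h4
  rw [mem_ball, dist_eq_norm]
  have h5 : ‖s - (j : ℂ)‖ ^ 2 < (j - a) ^ 2 := by
    rw [← Complex.normSq_eq_norm_sq, Complex.normSq_apply]
    simp only [Complex.sub_re, Complex.natCast_re, Complex.sub_im, Complex.natCast_im, sub_zero]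
    nlinarith
  exact lt_of_pow_lt_pow_left₀ 2 (by linarith) h5

/-- the union of the discs around the integers touching the line `Re s = a` -/
theorem glue {L : ℂ → ℂ} {a a' : ℝ} (haa : a ≤ a') (hL : DifferentiableOn ℂ L {s : ℂ | a' < s.re})
    (F : ℕ → ℂ → ℂ) (j₀ : ℕ) (hj₀ : a' < j₀)
    (hF : ∀ j, j₀ ≤ j → DifferentiableOn ℂ (F j) (ball (j : ℂ) (j - a)))
    (hE : ∀ j, j₀ ≤ j → F j =ᶠ[𝓝 (j : ℂ)] L) :
    ∃ G : ℂ → ℂ, DifferentiableOn ℂ G {s : ℂ | a < s.re} ∧ ∀ s : ℂ, a' < s.re → G s = L s := by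
  classical
  have hj : ∀ j : ℕ, j₀ ≤ j → a' < j := fun j h => hj₀.trans_le (by exact_mod_cast h)
  -- the discs and `L`
  have h1 : ∀ j, j₀ ≤ j → ∀ s ∈ ball (j : ℂ) (j - a), a' < s.re → F j s = L s := by
    intro j hjj s hs hsa
    have hU : IsOpen (ball (j : ℂ) (j - a) ∩ {s : ℂ | a' < s.re}) :=
      isOpen_ball.inter (isOpen_re a')
    refine eq_on_convex hU ((convex_ball _ _).inter (convex_re a'))
      ((hF j hjj).mono inter_subset_left) (hL.mono inter_subset_right) (z := (j : ℂ)) ⟨?_, ?_⟩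
      (hE j hjj) ⟨hs, hsa⟩
    · exact mem_ball_self (by linarith [hj j hjj])
    · simpa using hj j hjj
  have h2 : ∀ j j' : ℕ, j₀ ≤ j → j ≤ j' → ∀ s ∈ ball (j : ℂ) (j - a), F j s = F j' s := by
    intro j j' hjj hjj' s hs
    have hcast : (j : ℝ) ≤ j' := by exact_mod_cast hjj'
    have hsub : ball (j : ℂ) (j - a) ⊆ ball (j' : ℂ) (j' - a) := by
      refine ball_subset_ball' ?_
      have : dist (j : ℂ) j' = (j' : ℝ) - j := by
        rw [dist_comm, dist_eq_norm]
        have : (j' : ℂ) - j = (((j' : ℝ) - j : ℝ) : ℂ) := by push_cast; rfl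
        rw [this, Complex.norm_real, Real.norm_eq_abs, abs_of_nonneg (by linarith)]
      rw [this]
      linarith
    have hjm : (j : ℂ) ∈ ball (j : ℂ) (j - a) := mem_ball_self (by linarith [hj j hjj])
    refine eq_on_convex isOpen_ball (convex_ball _ _) (hF j hjj)
      ((hF j' (hjj.trans hjj')).mono hsub) hjm ?_ hs
    filter_upwards [hE j hjj, isOpen_ball.mem_nhds hjm, (isOpen_re a').mem_nhds
      (show a' < ((j : ℂ)).re by simpa using hj j hjj)] with z hz1 hz2 hz3
    rw [hz1, h1 j' (hjj.trans hjj') z (hsub hz2) hz3]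
  have h3 : ∀ s : ℂ, a < s.re → ∃ j, j₀ ≤ j ∧ s ∈ ball (j : ℂ) (j - a) := by
    intro s hs
    obtain ⟨N, hN⟩ := mem_big_disc hs
    exact ⟨max N j₀, le_max_right _ _, hN _ (le_max_left _ _)⟩
  choose! J hJ1 hJ2 using h3
  have h4 : ∀ s : ℂ, a < s.re → ∀ j, j₀ ≤ j → s ∈ ball (j : ℂ) (j - a) → F (J s) s = F j s := by
    intro s hs j hjj hsj
    rcases le_total (J s) j with h | h
    · exact h2 _ _ (hJ1 s hs) h s (hJ2 s hs)
    · exact (h2 _ _ hjj h s hsj).symm
  refine ⟨fun s => F (J s) s, fun s hs => ?_, fun s hs => ?_⟩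
  · have hs' : a < s.re := hs
    have h5 : (fun z => F (J z) z) =ᶠ[𝓝 s] F (J s) := by
      filter_upwards [isOpen_ball.mem_nhds (hJ2 s hs'), (isOpen_re a).mem_nhds hs'] with z hz1 hz2
      exact h4 z hz2 _ (hJ1 s hs') hz1
    exact (((hF _ (hJ1 s hs')).differentiableAt (isOpen_ball.mem_nhds (hJ2 s hs'))).congr_of_eventuallyEq
      h5).differentiableWithinAt
  · exact h1 _ (hJ1 s (haa.trans_lt hs)) s (hJ2 s (haa.trans_lt hs)) hs

/-- A logarithm of a meromorphic function on a half plane, on whose boundary line the function is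
meromorphic at some point, continues analytically to a neighbourhood of a rational point of the
line. -/
theorem log_extends {G H : ℂ → ℂ} {a τ : ℝ} (hG : DifferentiableOn ℂ G {s : ℂ | a < s.re})
    (hH : MeromorphicAt H (a + τ * I))
    (hGH : ∀ᶠ s in 𝓝 ((a : ℂ) + τ * I), a < s.re → H s = cexp (G s)) :
    ∃ (t : ℚ) (G' : ℂ → ℂ) (U : Set ℂ), IsOpen U ∧ DifferentiableOn ℂ G' U ∧
      closedBall ((a : ℂ) + 1 + (t : ℝ) * I) 1 ⊆ U ∧ ∀ s : ℂ, a < s.re → G' s = G s := by
  classical
  set s₀ : ℂ := (a : ℂ) + τ * I with hs₀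
  have hs₀r : s₀.re = a := by simp [hs₀]
  have hs₀i : s₀.im = τ := by simp [hs₀]
  -- nonvanishing
  have hne : ∀ᶠ z in 𝓝[≠] s₀, H z ≠ 0 := by
    rcases hH.eventually_eq_zero_or_eventually_ne_zero with h | h
    · exfalso
      have h1 : Tendsto (fun δ : ℝ => s₀ + δ) (𝓝[>] 0) (𝓝[≠] s₀) := by
        refine tendsto_nhdsWithin_iff.2 ⟨?_, ?_⟩
        · have : Continuous fun δ : ℝ => s₀ + (δ : ℂ) := by fun_prop
          have h2 := this.tendsto 0
          simp only [Complex.ofReal_zero, add_zero] at h2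
          exact h2.mono_left nhdsWithin_le_nhds
        · filter_upwards [self_mem_nhdsWithin] with δ hδ h0
          have hδ' : (0 : ℝ) < δ := hδ
          have h3 : (s₀ + (δ : ℂ)) = s₀ := h0
          have h4 : (δ : ℂ) = 0 := by simpa using h3
          rw [Complex.ofReal_eq_zero] at h4
          exact hδ'.ne' h4
      have h2 := (h1.eventually h).and (((h1.mono_right nhdsWithin_le_nhds).eventually hGH).and
        self_mem_nhdsWithin)
      obtain ⟨δ, h3, h4, h5⟩ := h2.exists
      have hδ' : (0 : ℝ) < δ := h5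
      have h6 : a < (s₀ + (δ : ℂ)).re := by
        rw [Complex.add_re, hs₀r, Complex.ofReal_re]
        linarith
      rw [h4 h6] at h3
      exact Complex.exp_ne_zero _ h3
    · exact h
  have hGH' : ∀ᶠ s in 𝓝[≠] s₀, a < s.re → H s = cexp (G s) := hGH.filter_mono nhdsWithin_le_nhds
  obtain ⟨ε, hε, hεb⟩ := Metric.mem_nhdsWithin_iff.1 (hH.eventually_analyticAt.and (hne.and hGH'))
  -- a rational point
  obtain ⟨t, ht1, ht2⟩ := exists_rat_btwn (show τ < τ + ε / 2 by linarith)
  set s₁ : ℂ := (a : ℂ) + (t : ℝ) * I with hs₁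
  have hs₁r : s₁.re = a := by simp [hs₁]
  have hd : dist s₁ s₀ < ε / 2 := by
    have : s₁ - s₀ = ((t - τ : ℝ) : ℂ) * I := by
      rw [hs₁, hs₀]
      push_cast
      ring
    rw [dist_eq_norm, this, norm_mul, Complex.norm_I, mul_one, Complex.norm_real, Real.norm_eq_abs,
      abs_of_pos (by linarith)]
    linarith
  have hd0 : 0 < dist s₁ s₀ := by
    rw [dist_pos]
    intro h
    have := congrArg Complex.im h
    rw [hs₀i] at this
    simp only [hs₁, Complex.add_im, Complex.ofReal_im, Complex.mul_im, Complex.ofReal_re,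
      Complex.I_im, mul_one, Complex.I_re, mul_zero, zero_add, add_zero] at this
    linarith
  -- a ball in which everything is good
  have hball : ∀ z ∈ ball s₁ (dist s₁ s₀), AnalyticAt ℂ H z ∧ H z ≠ 0 ∧
      (a < z.re → H z = cexp (G z)) := by
    intro z hz
    refine hεb ⟨?_, ?_⟩
    · rw [mem_ball] at hz ⊢
      calc dist z s₀ ≤ dist z s₁ + dist s₁ s₀ := dist_triangle _ _ _
        _ < ε := by linarith
    · intro h
      have h' : z = s₀ := h
      rw [h', mem_ball, dist_comm] at hz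
      exact lt_irrefl _ hz
  have hs₁b : s₁ ∈ ball s₁ (dist s₁ s₀) := mem_ball_self hd0
  have hc : ContinuousAt H s₁ := (hball s₁ hs₁b).1.continuousAt
  have hH1 : H s₁ ≠ 0 := (hball s₁ hs₁b).2.1
  obtain ⟨δ, hδ, hδb⟩ := Metric.continuousAt_iff.1 hc ‖H s₁‖ (norm_pos_iff.2 hH1)
  set ρ : ℝ := min δ (dist s₁ s₀) with hρ
  have hρ0 : 0 < ρ := lt_min hδ hd0
  have hρd : ball s₁ ρ ⊆ ball s₁ (dist s₁ s₀) := ball_subset_ball (min_le_right _ _)
  have hslit : ∀ z ∈ ball s₁ ρ, H z / H s₁ ∈ slitPlane := by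
    intro z hz
    have h1 : dist (H z) (H s₁) < ‖H s₁‖ := hδb ((mem_ball.1 hz).trans_le (min_le_left _ _))
    have h2 : ‖H z / H s₁ - 1‖ < 1 := by
      have : H z / H s₁ - 1 = (H z - H s₁) / H s₁ := by field_simp
      rw [this, norm_div, div_lt_one (norm_pos_iff.2 hH1), ← dist_eq_norm]
      exact h1
    left
    have h3 := (Complex.abs_re_le_norm (H z / H s₁ - 1)).trans_lt h2
    rw [Complex.sub_re, Complex.one_re, abs_lt] at h3
    linarith [h3.1]
  set h : ℂ → ℂ := fun z => Complex.log (H s₁) + Complex.log (H z / H s₁) with hh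
  have hhd : ∀ z ∈ ball s₁ ρ, DifferentiableAt ℂ h z := by
    intro z hz
    have h1 := (hball z (hρd hz)).1.differentiableAt
    exact ((h1.div_const _).clog (hslit z hz)).const_add _
  have hhe : ∀ z ∈ ball s₁ ρ, cexp (h z) = H z := by
    intro z hz
    rw [hh]
    simp only
    rw [Complex.exp_add, Complex.exp_log hH1, Complex.exp_log (div_ne_zero (hball z (hρd hz)).2.1 hH1)]
    field_simp
  -- the difference is constant
  set W : Set ℂ := ball s₁ ρ ∩ {s : ℂ | a < s.re} with hW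
  have hWo : IsOpen W := isOpen_ball.inter (isOpen_re a)
  have hWc : Convex ℝ W := (convex_ball _ _).inter (convex_re a)
  have hGd : ∀ z, a < z.re → DifferentiableAt ℂ G z := fun z hz =>
    hG.differentiableAt ((isOpen_re a).mem_nhds hz)
  have hconst : ∃ C, ∀ z ∈ W, G z - h z = C := by
    have hdW : DifferentiableOn ℂ (fun z => G z - h z) W := fun z hz =>
      ((hGd z hz.2).sub (hhd z hz.1)).differentiableWithinAt
    have h1 : EqOn (deriv fun z => G z - h z) 0 W := by
      intro z hz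
      have h2 : (fun z => cexp (G z - h z)) =ᶠ[𝓝 z] fun _ => 1 := by
        filter_upwards [hWo.mem_nhds hz] with w hw
        rw [Complex.exp_sub, hhe w hw.1, (hball w (hρd hw.1)).2.2 hw.2]
        exact div_self (Complex.exp_ne_zero _)
      have h3 := (hdW.differentiableAt (hWo.mem_nhds hz)).hasDerivAt.cexp
      have h4 := (h3.congr_of_eventuallyEq h2.symm).unique (hasDerivAt_const z (1 : ℂ))
      have h5 := mul_eq_zero.1 h4
      rcases h5 with h5 | h5
      · exact absurd h5 (Complex.exp_ne_zero _)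
      · exact h5
    obtain ⟨w, hw⟩ : W.Nonempty := by
      refine ⟨s₁ + ((ρ / 2 : ℝ) : ℂ), ?_, ?_⟩
      · rw [mem_ball, dist_eq_norm, add_sub_cancel_left, Complex.norm_real, Real.norm_eq_abs,
          abs_of_pos (by positivity)]
        linarith
      · show a < (s₁ + ((ρ / 2 : ℝ) : ℂ)).re
        rw [Complex.add_re, hs₁r, Complex.ofReal_re]
        linarith
    exact ⟨G w - h w, fun z hz =>
      hWo.is_const_of_deriv_eq_zero hWc.isPreconnected hdW h1 hz hw⟩
  obtain ⟨C, hC⟩ := hconst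
  refine ⟨t, fun z => if a < z.re then G z else h z + C, {s : ℂ | a < s.re} ∪ ball s₁ ρ,
    (isOpen_re a).union isOpen_ball, ?_, ?_, fun s hs => if_pos hs⟩
  · rintro z (hz | hz)
    · have hz' : a < z.re := hz
      refine (((hGd z hz').congr_of_eventuallyEq ?_)).differentiableWithinAt
      filter_upwards [(isOpen_re a).mem_nhds hz'] with w hw
      exact if_pos hw
    · refine ((((hhd z hz).add_const C).congr_of_eventuallyEq ?_)).differentiableWithinAt
      filter_upwards [isOpen_ball.mem_nhds hz] with w hw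
      by_cases hwa : a < w.re
      · rw [if_pos hwa, ← hC w ⟨hw, hwa⟩]
        ring
      · rw [if_neg hwa]
  · intro z hz
    rw [mem_closedBall, dist_eq_norm] at hz
    by_cases hza : a < z.re
    · exact Or.inl hza
    · right
      have h1 : ‖z - ((a : ℂ) + 1 + (t : ℝ) * I)‖ ^ 2 ≤ 1 :=
        pow_le_one₀ (norm_nonneg _) hz
      rw [← Complex.normSq_eq_norm_sq, Complex.normSq_apply] at h1
      simp only [Complex.sub_re, Complex.add_re, Complex.ofReal_re, Complex.one_re, Complex.mul_re,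
        Complex.I_re, mul_zero, Complex.ofReal_im, Complex.I_im, mul_one, sub_self, add_zero,
        Complex.sub_im, Complex.add_im, Complex.one_im, Complex.mul_im, zero_add] at h1
      have h2 : z = s₁ := by
        apply Complex.ext
        · rw [hs₁r]
          nlinarith
        · simp only [hs₁, Complex.add_im, Complex.ofReal_im, Complex.mul_im, Complex.ofReal_re,
            Complex.I_im, mul_one, Complex.I_re, mul_zero, zero_add, add_zero]
          nlinarith
      rw [h2]
      exact mem_ball_self hρ0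

end Pool.Agent.W5h88.NB
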