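import Pool.Agent.W5h88.NB.Prob
import Pool.Agent.W5h88.NB.Tay

/-!
# Random Euler products: the Taylor coefficients of the logarithm
-/

set_option autoImplicit false
set_option linter.unusedSectionVars false
set_option maxHeartbeats 400000

open MeasureTheory ProbabilityTheory Filter Topology Complex

namespace Pool.Agent.W5h88.NB

/-- the data of a random Euler product -/
structure Mdl (V Ω : Type) [MeasurableSpace Ω] (μ : Measure Ω) where
  q : V → ℝ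
  τ : V → ℕ → Ω → ℝ
  B : ℝ
  C : ℝ
  two_le : ∀ v, 2 ≤ q v
  sum : ∀ x : ℝ, 1 < x → Summable fun v => q v ^ (-x)
  div : ¬ Summable fun v => (q v)⁻¹
  meas : ∀ v m, Measurable (τ v m)
  bd : ∀ v m ω, |τ v m ω| ≤ B
  ind : iIndepFun (fun v ω m => τ v m ω) μ
  mean : ∀ v, |∫ ω, τ v 0 ω ∂μ| ≤ C * q v ^ (-(1 / 2) : ℝ)
  var : ∀ᶠ v in cofinite, 1 / 2 ≤ ∫ ω, (τ v 0 ω - ∫ ω', τ v 0 ω' ∂μ) ^ 2 ∂μ

variable {V Ω : Type} [Countable V] [MeasurableSpace Ω] {μ : Measure Ω} [IsProbabilityMeasure μ]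

theorem exists_pt (μ : Measure Ω) [IsProbabilityMeasure μ] : Nonempty Ω := by
  by_contra h
  rw [not_nonempty_iff] at h
  have h1 : μ Set.univ = 1 := measure_univ
  rw [Set.univ_eq_empty_iff.2 h, measure_empty] at h1
  exact zero_ne_one h1

theorem meas_tsum {Ω : Type} [m : MeasurableSpace Ω] {P : Type} [Countable P] {f : P → Ω → ℂ}
    (hf : ∀ p, Measurable (f p)) (hs : ∀ ω, Summable fun p => f p ω) :
    Measurable fun ω => ∑' p, f p ω :=
  measurable_of_tendsto_metrizable' atTop (fun T : Finset P => Finset.measurable_fun_sum T fun p _ =>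
    hf p) (tendsto_pi_nhds.2 fun ω => (hs ω).hasSum)

namespace Mdl

variable (M : Mdl V Ω μ)

/-- the logarithm of the norm -/
noncomputable def l (v : V) : ℝ := Real.log (M.q v)

theorem q_pos (v : V) : 0 < M.q v := by linarith [M.two_le v]

theorem l_pos (v : V) : 0 < M.l v := Real.log_pos (by linarith [M.two_le v])

theorem l_ge (v : V) : Real.log 2 ≤ M.l v := Real.log_le_log (by norm_num) (M.two_le v)

theorem exp_l (v : V) (x : ℝ) : Real.exp (-(x * M.l v)) = M.q v ^ (-x) := by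
  rw [Real.rpow_def_of_pos (M.q_pos v)]
  congr 1
  unfold l
  ring

theorem B_nonneg [Nonempty V] : 0 ≤ M.B := by
  obtain ⟨ω⟩ := exists_pt μ
  obtain ⟨v⟩ := ‹Nonempty V›
  exact (abs_nonneg _).trans (M.bd v 0 ω)

theorem sum_exp {x : ℝ} (hx : 1 < x) : Summable fun v => Real.exp (-(x * M.l v)) :=
  (M.sum x hx).congr fun v => (M.exp_l v x).symm

theorem sum_exp2 {θ : ℝ} {j : ℕ} (h0 : 0 < θ) (h : 1 < θ * (j + 1)) :
    Summable fun p : V × ℕ => Real.exp (-(θ * ((p.2 + j + 1) * M.l p.1))) := by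
  have hl2 : 0 < Real.log 2 := Real.log_pos (by norm_num)
  have h1 : Summable fun p : V × ℕ => Real.exp (-(θ * (j + 1) * M.l p.1)) *
      Real.exp (-(θ * Real.log 2)) ^ p.2 := by
    refine (M.sum_exp h).mul_of_nonneg (summable_geometric_of_lt_one (Real.exp_pos _).le ?_)
      (fun v => (Real.exp_pos _).le) fun m => by positivity
    rw [Real.exp_lt_one_iff]
    have : 0 < θ * Real.log 2 := by positivity
    linarith
  refine Summable.of_nonneg_of_le (fun p => (Real.exp_pos _).le) (fun p => ?_) h1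
  rw [← Real.exp_nat_mul, ← Real.exp_add]
  refine Real.exp_le_exp.2 ?_
  have h2 := M.l_ge p.1
  have h3 : θ * p.2 * Real.log 2 ≤ θ * p.2 * M.l p.1 :=
    mul_le_mul_of_nonneg_left h2 (by positivity)
  nlinarith

/-- the frequencies from the index `j` on -/
noncomputable def fr (j : ℕ) (p : V × ℕ) : ℝ := (p.2 + j + 1) * M.l p.1

theorem fr_nonneg (j : ℕ) (p : V × ℕ) : 0 ≤ M.fr j p := by
  have := M.l_pos p.1
  unfold fr
  positivity

/-- the coefficients from the index `j` on -/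
noncomputable def cf (j : ℕ) (ω : Ω) (p : V × ℕ) : ℂ := (M.τ p.1 (p.2 + j) ω : ℂ) / (p.2 + j + 1)

theorem cf_bd (j : ℕ) (ω : Ω) (p : V × ℕ) : ‖M.cf j ω p‖ ≤ M.B := by
  unfold cf
  have h4 : (1 : ℝ) ≤ ‖((p.2 : ℂ) + j + 1)‖ := by
    have : ((p.2 : ℂ) + j + 1) = ((p.2 + j + 1 : ℕ) : ℂ) := by push_cast; rfl
    rw [this, Complex.norm_natCast]
    exact_mod_cast Nat.succ_pos _
  rw [norm_div, Complex.norm_real, Real.norm_eq_abs]
  exact (div_le_self (abs_nonneg _) h4).trans (M.bd _ _ ω)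

theorem cf_sum {j : ℕ} {x : ℝ} (h0 : 0 < x) (h : 1 < x * (j + 1)) (ω : Ω) :
    Summable fun p => ‖M.cf j ω p‖ * Real.exp (-(x * M.fr j p)) := by
  refine Summable.of_nonneg_of_le (fun p => by positivity) (fun p => ?_)
    ((M.sum_exp2 h0 h).mul_left M.B)
  unfold fr
  exact mul_le_mul_of_nonneg_right (M.cf_bd j ω p) (Real.exp_pos _).le

/-- the Taylor coefficients of the part from the index `j` on -/
noncomputable def D (j : ℕ) (c : ℂ) (k : ℕ) (ω : Ω) : ℂ := co (M.fr j) (M.cf j ω) c k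

theorem D_bd {j : ℕ} {c : ℂ} {y : ℝ} (hy : 0 < y) (h0 : y < c.re) (h : 1 < (c.re - y) * (j + 1))
    (k : ℕ) (ω : Ω) : ‖M.D j c k ω‖ ≤
      (M.B * ∑' p : V × ℕ, Real.exp (-((c.re - y) * M.fr j p))) * (y ^ k)⁻¹ := by
  have h1 := M.cf_sum (j := j) (x := c.re - y) (by linarith) h ω
  refine (co_bd (M.fr_nonneg j) hy h1 k).trans ?_
  refine mul_le_mul_of_nonneg_right ?_ (by positivity)
  rw [← tsum_mul_left]
  refine h1.tsum_le_tsum (fun p => ?_) ((M.sum_exp2 (θ := c.re - y) (by linarith) h).mul_left M.B)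
  exact mul_le_mul_of_nonneg_right (M.cf_bd j ω p) (Real.exp_pos _).le

/-- the part with index `j` -/
noncomputable def Q (j : ℕ) (c : ℂ) (k : ℕ) (ω : Ω) : ℂ :=
  ∑' v, (M.τ v j ω : ℂ) / (j + 1) * ct ((j + 1) * M.l v) c k

theorem D_succ {j : ℕ} {c : ℂ} (h : 1 < c.re * (j + 1)) (k : ℕ) (ω : Ω) :
    M.D j c k ω = M.Q j c k ω + M.D (j + 1) c k ω := by
  obtain ⟨x, hx1, hx2⟩ : ∃ x : ℝ, 1 / ((j : ℝ) + 1) < x ∧ x < c.re := by
    refine exists_between ?_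
    rw [div_lt_iff₀ (by positivity)]
    exact h
  have hj : (0 : ℝ) < (j : ℝ) + 1 := by positivity
  have hx0 : 0 < x := lt_trans (by positivity) hx1
  have hxj : 1 < x * (j + 1) := by rwa [div_lt_iff₀ hj] at hx1
  have e1 : c.re - (c.re - x) = x := by ring
  have hs := co_summable (a := M.cf j ω) (c := c) (y := c.re - x) (M.fr_nonneg j) (by linarith)
    (by rw [e1]; exact M.cf_sum hx0 hxj ω) k
  have h1 := hs.hasSum.prod_fiberwise fun v => (hs.prod_factor v).hasSum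
  have h2 : ∀ v, ∑' m : ℕ, M.cf j ω (v, m) * ct (M.fr j (v, m)) c k =
      (M.τ v j ω : ℂ) / (j + 1) * ct ((j + 1) * M.l v) c k +
      ∑' m : ℕ, M.cf (j + 1) ω (v, m) * ct (M.fr (j + 1) (v, m)) c k := by
    intro v
    rw [(hs.prod_factor v).tsum_eq_zero_add]
    congr 1
    · unfold cf fr
      simp
    · refine tsum_congr fun m => ?_
      unfold cf fr
      simp only
      have : m + 1 + j = m + (j + 1) := by ring
      rw [this]
      push_cast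
      congr 2 <;> ring
  have hxj' : 1 < x * ((j + 1 : ℕ) + 1) := by
    push_cast
    nlinarith
  have hs' := co_summable (a := M.cf (j + 1) ω) (c := c) (y := c.re - x) (M.fr_nonneg (j + 1))
    (by linarith) (by rw [e1]; exact M.cf_sum hx0 hxj' ω) k
  have h3 := hs'.hasSum.prod_fiberwise fun v => (hs'.prod_factor v).hasSum
  have h4 := h1.sub h3
  have h5 : M.Q j c k ω = M.D j c k ω - M.D (j + 1) c k ω := by
    unfold Q
    refine (h4.congr_fun fun v => ?_).tsum_eq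
    rw [h2 v]
    ring
  rw [h5]
  ring

/-- the mean -/
noncomputable def mn (v : V) (j : ℕ) : ℝ := ∫ ω, M.τ v j ω ∂μ

theorem tau_int (v : V) (j : ℕ) : Integrable (M.τ v j) μ :=
  int_of_bd (M.meas v j) (C := M.B) fun ω => by
    rw [Real.norm_eq_abs]
    exact M.bd v j ω

theorem mn_bd (v : V) (j : ℕ) : |M.mn v j| ≤ M.B := by
  have h := norm_integral_le_of_norm_le_const (μ := μ) (f := M.τ v j) (C := M.B)
    (ae_of_all _ fun ω => by
      rw [Real.norm_eq_abs]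
      exact M.bd v j ω)
  rw [probReal_univ, mul_one, Real.norm_eq_abs] at h
  exact h

theorem ct_sumV {j : ℕ} {c : ℂ} {y : ℝ} (h : 1 < (c.re - y) * (j + 1)) :
    Summable fun v => Real.exp (-((c.re - y) * ((j + 1) * M.l v))) := by
  refine (M.sum_exp h).congr fun v => ?_
  congr 1
  ring

theorem ctl_le {j : ℕ} {c : ℂ} {y : ℝ} (hy : 0 < y) (v : V) (k : ℕ) :
    ‖ct ((j + 1) * M.l v) c k‖ ≤ Real.exp (-((c.re - y) * ((j + 1) * M.l v))) * (y ^ k)⁻¹ := by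
  refine ct_le ?_ c k hy
  have := M.l_pos v
  positivity

theorem ctl_summable {j : ℕ} {c : ℂ} (h : 1 < c.re * (j + 1)) (k : ℕ) :
    Summable fun v => ‖ct ((j + 1) * M.l v) c k‖ := by
  obtain ⟨x, hx1, hx2⟩ : ∃ x : ℝ, 1 / ((j : ℝ) + 1) < x ∧ x < c.re := by
    refine exists_between ?_
    rw [div_lt_iff₀ (by positivity)]
    exact h
  have hj : (0 : ℝ) < (j : ℝ) + 1 := by positivity
  have hxj : 1 < x * (j + 1) := by rwa [div_lt_iff₀ hj] at hx1
  have e1 : c.re - (c.re - x) = x := by ring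
  refine Summable.of_nonneg_of_le (fun v => norm_nonneg _)
    (fun v => M.ctl_le (y := c.re - x) (by linarith) v k) ?_
  rw [e1]
  have := M.ct_sumV (j := j) (c := c) (y := c.re - x) (by rwa [e1])
  rw [e1] at this
  exact this.mul_right _

open Classical in
/-- the centred terms outside the set `S` -/
noncomputable def Z (S : Set V) (j : ℕ) (c : ℂ) (k : ℕ) (v : V) (ω : Ω) : ℂ :=
  if v ∈ S then 0 else ((M.τ v j ω - M.mn v j : ℝ) : ℂ) / (j + 1) * ct ((j + 1) * M.l v) c k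

theorem Z_bd (S : Set V) (j : ℕ) (c : ℂ) (k : ℕ) (v : V) (ω : Ω) :
    ‖M.Z S j c k v ω‖ ≤ 2 * M.B * ‖ct ((j + 1) * M.l v) c k‖ := by
  have hB : 0 ≤ M.B := (abs_nonneg _).trans (M.bd v j ω)
  unfold Z
  split_ifs
  · rw [norm_zero]
    positivity
  · rw [norm_mul]
    refine mul_le_mul_of_nonneg_right ?_ (norm_nonneg _)
    have h4 : (1 : ℝ) ≤ ‖((j : ℂ) + 1)‖ := by
      have : ((j : ℂ) + 1) = ((j + 1 : ℕ) : ℂ) := by push_cast; rfl
      rw [this, Complex.norm_natCast]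
      exact_mod_cast Nat.succ_pos _
    rw [norm_div, Complex.norm_real, Real.norm_eq_abs]
    refine (div_le_self (abs_nonneg _) h4).trans ?_
    have h1 := M.bd v j ω
    have h2 := M.mn_bd v j
    refine (abs_sub _ _).trans ?_
    linarith

theorem Z_meas (S : Set V) (j : ℕ) (c : ℂ) (k : ℕ) (v : V) : Measurable (M.Z S j c k v) := by
  unfold Z
  split_ifs
  · exact measurable_const
  · exact ((Complex.measurable_ofReal.comp ((M.meas v j).sub_const _)).div_const _).mul_const _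

theorem Z_ind (S : Set V) (j : ℕ) (c : ℂ) (k : ℕ) : iIndepFun (M.Z S j c k) μ := by
  classical
  have h := M.ind.comp (fun v (x : ℕ → ℝ) => if v ∈ S then (0 : ℂ) else
    ((x j - M.mn v j : ℝ) : ℂ) / (j + 1) * ct ((j + 1) * M.l v) c k) fun v => by
      split_ifs
      · exact measurable_const
      · exact ((Complex.measurable_ofReal.comp ((measurable_pi_apply j).sub_const _)).div_const
          _).mul_const _
  convert h using 1
  funext v ω
  unfold Z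
  rfl

theorem Z_zero (S : Set V) (j : ℕ) (c : ℂ) (k : ℕ) (v : V) : ∫ ω, M.Z S j c k v ω ∂μ = 0 := by
  unfold Z
  split_ifs
  · simp
  · have h1 : ∫ ω, (M.τ v j ω - M.mn v j) ∂μ = 0 := by
      rw [integral_sub (M.tau_int v j) (integrable_const _)]
      simp [mn]
    have h2 : ∫ ω, (((M.τ v j ω - M.mn v j : ℝ) : ℂ)) ∂μ = 0 := by
      rw [integral_complex_ofReal, h1]
      simp
    rw [integral_mul_const, integral_div, h2]
    simp

/-- the variance -/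
noncomputable def vr (v : V) (j : ℕ) : ℝ := ∫ ω, (M.τ v j ω - M.mn v j) ^ 2 ∂μ

theorem Z_sq {S : Set V} (j : ℕ) (c : ℂ) (k : ℕ) {v : V} (hv : v ∉ S) (e : ℕ) :
    ∫ ω, ‖M.Z S j c k v ω‖ ^ (2 * e) ∂μ = (∫ ω, (M.τ v j ω - M.mn v j) ^ (2 * e) ∂μ) *
      (‖ct ((j + 1) * M.l v) c k‖ / (j + 1)) ^ (2 * e) := by
  rw [← integral_mul_const]
  refine integral_congr_ae (ae_of_all _ fun ω => ?_)
  have h1 : ‖((j : ℂ) + 1)‖ = (j : ℝ) + 1 := by
    have : ((j : ℂ) + 1) = ((j + 1 : ℕ) : ℂ) := by push_cast; rfl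
    rw [this, Complex.norm_natCast]
    push_cast
    rfl
  show ‖M.Z S j c k v ω‖ ^ (2 * e) = (M.τ v j ω - M.mn v j) ^ (2 * e) *
      (‖ct ((j + 1) * M.l v) c k‖ / (j + 1)) ^ (2 * e)
  have h2 : |M.τ v j ω - M.mn v j| ^ 2 = (M.τ v j ω - M.mn v j) ^ 2 := sq_abs _
  have h3 : ‖M.Z S j c k v ω‖ ^ 2 = ((M.τ v j ω - M.mn v j) *
      (‖ct ((j + 1) * M.l v) c k‖ / (j + 1))) ^ 2 := by
    unfold Z
    rw [if_neg hv, norm_mul, norm_div, Complex.norm_real, Real.norm_eq_abs, h1, mul_pow, mul_pow,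
      div_pow, div_pow, h2]
    ring
  rw [← mul_pow, pow_mul, pow_mul, h3]

/-- the centred sum -/
noncomputable def F (S : Set V) (j : ℕ) (c : ℂ) (k : ℕ) (ω : Ω) : ℂ := ∑' v, M.Z S j c k v ω

theorem Z_sum (S : Set V) {j : ℕ} {c : ℂ} (h : 1 < c.re * (j + 1)) (k : ℕ) (ω : Ω) :
    Summable fun v => M.Z S j c k v ω :=
  Summable.of_norm_bounded ((M.ctl_summable h k).mul_left _) fun v => M.Z_bd S j c k v ω

theorem F_facts (S : Set V) {j : ℕ} {c : ℂ} (h : 1 < c.re * (j + 1)) (k : ℕ) :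
    Measurable (M.F S j c k) ∧ (∃ b, ∀ ω, ‖M.F S j c k ω‖ ≤ b) ∧ ∫ ω, M.F S j c k ω ∂μ = 0 ∧
    HasSum (fun v => ∫ ω, ‖M.Z S j c k v ω‖ ^ 2 ∂μ) (∫ ω, ‖M.F S j c k ω‖ ^ 2 ∂μ) ∧
    (∀ κ : ℝ, 3 ≤ κ → (∀ v, ∫ ω, ‖M.Z S j c k v ω‖ ^ 4 ∂μ ≤
      κ * (∫ ω, ‖M.Z S j c k v ω‖ ^ 2 ∂μ) ^ 2) →
      ∫ ω, ‖M.F S j c k ω‖ ^ 4 ∂μ ≤ κ * (∫ ω, ‖M.F S j c k ω‖ ^ 2 ∂μ) ^ 2) := by
  obtain ⟨h1, h2, h3, h4, h5⟩ := tsum_mom (M.Z_meas S j c k) (M.Z_bd S j c k)
    ((M.ctl_summable h k).mul_left _) (M.Z_ind S j c k) (M.Z_zero S j c k)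
  exact ⟨h1, ⟨_, h2⟩, h3, h4, h5⟩

/-- the second moment of the centred sum -/
theorem F_sq (S : Set V) {j : ℕ} {c : ℂ} (h : 1 < c.re * (j + 1)) {y : ℝ} (hy : 0 < y)
    (hyj : 1 < 2 * ((c.re - y) * (j + 1))) : ∃ A : ℝ, 0 ≤ A ∧ ∀ k,
    ∫ ω, ‖M.F S j c k ω‖ ^ 2 ∂μ ≤ A * ((y ^ k)⁻¹) ^ 2 := by
  have hs : Summable fun v => (2 * M.B) ^ 2 * Real.exp (-(2 * ((c.re - y) * (j + 1)) * M.l v)) :=
    (M.sum_exp hyj).mul_left _
  refine ⟨∑' v, (2 * M.B) ^ 2 * Real.exp (-(2 * ((c.re - y) * (j + 1)) * M.l v)),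
    tsum_nonneg fun v => by positivity, fun k => ?_⟩
  obtain ⟨h1, -, -, h4, -⟩ := M.F_facts S h k
  rw [← tsum_mul_right]
  refine hasSum_le (fun v => ?_) h4 (hs.mul_right _).hasSum
  have h5 : ∀ ω, ‖M.Z S j c k v ω‖ ^ 2 ≤ (2 * M.B) ^ 2 *
      Real.exp (-(2 * ((c.re - y) * (j + 1)) * M.l v)) * ((y ^ k)⁻¹) ^ 2 := by
    intro ω
    have hB : 0 ≤ M.B := (abs_nonneg _).trans (M.bd v j ω)
    have h6 := (M.Z_bd S j c k v ω).trans (mul_le_mul_of_nonneg_left (M.ctl_le (c := c) hy v k)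
      (by positivity))
    refine (pow_le_pow_left₀ (norm_nonneg _) h6 2).trans (le_of_eq ?_)
    have h7 : Real.exp (-(2 * ((c.re - y) * (j + 1)) * M.l v)) =
        Real.exp (-((c.re - y) * ((j + 1) * M.l v))) ^ 2 := by
      rw [← Real.exp_nat_mul]
      congr 1
      push_cast
      ring
    rw [h7]
    ring
  have h6 := integral_mono_of_nonneg (μ := μ) (f := fun ω => ‖M.Z S j c k v ω‖ ^ 2)
    (ae_of_all _ fun ω => by positivity) (integrable_const _) (ae_of_all _ h5)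
  rw [integral_const, probReal_univ, one_smul] at h6
  exact h6

end Mdl

/-- bounds almost everywhere from second moments -/
theorem ae_bdd {F : ℕ → Ω → ℂ} (hF : ∀ k, Measurable (F k)) (hb : ∀ k, ∃ b, ∀ ω, ‖F k ω‖ ≤ b)
    {A ρ y : ℝ} (hA : ∀ k, ∫ ω, ‖F k ω‖ ^ 2 ∂μ ≤ A * ρ ^ k) (hρ : 0 ≤ ρ)
    (h : ρ * y ^ 2 < 1) : ∀ᵐ ω ∂μ, ∃ C : ℝ, ∀ k, ‖F k ω‖ * y ^ k ≤ C := by
  have h1 : ∀ k, ∫⁻ ω, ENNReal.ofReal (‖F k ω‖ ^ 2 * (y ^ k) ^ 2) ∂μ ≤
      ENNReal.ofReal (A * (ρ * y ^ 2) ^ k) := by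
    intro k
    obtain ⟨b, hbk⟩ := hb k
    have hi : Integrable (fun ω => ‖F k ω‖ ^ 2 * (y ^ k) ^ 2) μ :=
      (int_of_bd ((hF k).norm.pow_const 2) (C := b ^ 2) fun ω => by
        rw [norm_pow, norm_norm]
        exact pow_le_pow_left₀ (norm_nonneg _) (hbk ω) 2).mul_const _
    rw [← ofReal_integral_eq_lintegral_ofReal hi (ae_of_all _ fun ω => by positivity)]
    refine ENNReal.ofReal_le_ofReal ?_
    rw [integral_mul_const]
    refine (mul_le_mul_of_nonneg_right (hA k) (by positivity)).trans (le_of_eq ?_)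
    rw [mul_pow]
    ring
  have h2 : Summable fun k => A * (ρ * y ^ 2) ^ k :=
    (summable_geometric_of_lt_one (by positivity) h).mul_left A
  have h3 : ∫⁻ ω, ∑' k, ENNReal.ofReal (‖F k ω‖ ^ 2 * (y ^ k) ^ 2) ∂μ ≠ ⊤ := by
    rw [lintegral_tsum fun k => ((((hF k).norm.pow_const 2).mul_const _).ennreal_ofReal).aemeasurable]
    have h4 : ∑' k, ENNReal.ofReal (A * (ρ * y ^ 2) ^ k) ≠ ⊤ := h2.tsum_ofReal_ne_top
    exact ne_top_of_le_ne_top h4 (ENNReal.tsum_le_tsum h1)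
  have h5 := ae_lt_top (μ := μ) (f := fun ω => ∑' k, ENNReal.ofReal (‖F k ω‖ ^ 2 * (y ^ k) ^ 2))
    (Measurable.tsum fun k => (((hF k).norm.pow_const 2).mul_const _).ennreal_ofReal) h3
  filter_upwards [h5] with ω hω
  set T : ENNReal := ∑' k, ENNReal.ofReal (‖F k ω‖ ^ 2 * (y ^ k) ^ 2) with hT
  refine ⟨√T.toReal, fun k => ?_⟩
  have h6 : ENNReal.ofReal (‖F k ω‖ ^ 2 * (y ^ k) ^ 2) ≤ T := ENNReal.le_tsum k
  have h7 : ‖F k ω‖ ^ 2 * (y ^ k) ^ 2 ≤ T.toReal := (ENNReal.ofReal_le_iff_le_toReal hω.ne).1 h6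
  refine Real.le_sqrt_of_sq_le ?_
  rw [mul_pow]
  exact h7

end Pool.Agent.W5h88.NB
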