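import Mathlib

/-!
# Sums of independent complex random variables: moments and non-concentration
-/

set_option autoImplicit false
set_option linter.unusedSectionVars false
set_option maxHeartbeats 400000

open MeasureTheory ProbabilityTheory Filter Topology Complex

namespace Pool.Agent.W5h88.NB

variable {Ω : Type} [MeasurableSpace Ω] {μ : Measure Ω} [IsProbabilityMeasure μ]

theorem int_of_bd {E : Type} [NormedAddCommGroup E] [MeasurableSpace E] [BorelSpace E]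
    [SecondCountableTopology E] {f : Ω → E} (hf : Measurable f) {C : ℝ}
    (h : ∀ ω, ‖f ω‖ ≤ C) : Integrable f μ :=
  Integrable.of_bound hf.aestronglyMeasurable C (ae_of_all _ h)

/-- one more independent centred variable -/
theorem add_indep {X Z : Ω → ℂ} (hXm : Measurable X) (hZm : Measurable Z) {bX bZ : ℝ}
    (hX : ∀ ω, ‖X ω‖ ≤ bX) (hZ : ∀ ω, ‖Z ω‖ ≤ bZ) (hind : IndepFun X Z μ)
    (hX0 : ∫ ω, X ω ∂μ = 0) (hZ0 : ∫ ω, Z ω ∂μ = 0) :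
    (∫ ω, (X ω + Z ω) ∂μ = 0) ∧
    (∫ ω, ‖X ω + Z ω‖ ^ 2 ∂μ = ∫ ω, ‖X ω‖ ^ 2 ∂μ + ∫ ω, ‖Z ω‖ ^ 2 ∂μ) ∧
    (∫ ω, ‖X ω + Z ω‖ ^ 4 ∂μ ≤ ∫ ω, ‖X ω‖ ^ 4 ∂μ +
      6 * (∫ ω, ‖X ω‖ ^ 2 ∂μ) * (∫ ω, ‖Z ω‖ ^ 2 ∂μ) + ∫ ω, ‖Z ω‖ ^ 4 ∂μ) := by
  have hbX : 0 ≤ bX ∨ IsEmpty Ω := by
    rcases isEmpty_or_nonempty Ω with h | ⟨⟨ω⟩⟩
    · exact Or.inr h
    · exact Or.inl ((norm_nonneg _).trans (hX ω))
  have hne : Nonempty Ω := by
    by_contra h
    rw [not_nonempty_iff] at h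
    have h1 : μ Set.univ = 1 := measure_univ
    rw [Set.univ_eq_empty_iff.2 h, measure_empty] at h1
    exact zero_ne_one h1
  obtain ⟨ω₀⟩ := hne
  have hbX0 : 0 ≤ bX := (norm_nonneg _).trans (hX ω₀)
  have hbZ0 : 0 ≤ bZ := (norm_nonneg _).trans (hZ ω₀)
  have iX : Integrable X μ := int_of_bd hXm hX
  have iZ : Integrable Z μ := int_of_bd hZm hZ
  -- powers of the norms are integrable
  have iXp : ∀ k : ℕ, Integrable (fun ω => ‖X ω‖ ^ k) μ := fun k =>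
    int_of_bd (hXm.norm.pow_const k) (C := bX ^ k) fun ω => by
      rw [Real.norm_eq_abs, abs_of_nonneg (by positivity)]
      exact pow_le_pow_left₀ (norm_nonneg _) (hX ω) k
  have iZp : ∀ k : ℕ, Integrable (fun ω => ‖Z ω‖ ^ k) μ := fun k =>
    int_of_bd (hZm.norm.pow_const k) (C := bZ ^ k) fun ω => by
      rw [Real.norm_eq_abs, abs_of_nonneg (by positivity)]
      exact pow_le_pow_left₀ (norm_nonneg _) (hZ ω) k
  have hpd : ∀ (p q : ℂ → ℂ), Measurable p → Measurable q →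
      ∫ ω, p (X ω) * q (Z ω) ∂μ = (∫ ω, p (X ω) ∂μ) * ∫ ω, q (Z ω) ∂μ := fun p q hp hq =>
    hind.integral_fun_comp_mul_comp hXm.aemeasurable hZm.aemeasurable
      hp.aestronglyMeasurable hq.aestronglyMeasurable
  have hpdr : ∀ (p q : ℂ → ℝ), Measurable p → Measurable q →
      ∫ ω, p (X ω) * q (Z ω) ∂μ = (∫ ω, p (X ω) ∂μ) * ∫ ω, q (Z ω) ∂μ := fun p q hp hq =>
    hind.integral_fun_comp_mul_comp hXm.aemeasurable hZm.aemeasurable
      hp.aestronglyMeasurable hq.aestronglyMeasurable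
  have hconj : Measurable (fun z : ℂ => (starRingEnd ℂ) z) := Complex.continuous_conj.measurable
  have hconj0 : ∫ ω, (starRingEnd ℂ) (X ω) ∂μ = 0 := by
    rw [integral_conj, hX0, map_zero]
  set ρ : Ω → ℝ := fun ω => ((starRingEnd ℂ) (X ω) * Z ω).re with hρ
  have hρm : Measurable ρ := (Complex.measurable_re.comp ((hconj.comp hXm).mul hZm))
  have hρb : ∀ ω, |ρ ω| ≤ ‖X ω‖ * ‖Z ω‖ := fun ω => by
    refine (Complex.abs_re_le_norm _).trans ?_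
    rw [norm_mul, Complex.norm_conj]
  have hρb' : ∀ ω, |ρ ω| ≤ bX * bZ := fun ω =>
    (hρb ω).trans (mul_le_mul (hX ω) (hZ ω) (norm_nonneg _) hbX0)
  have iρ : Integrable ρ μ := int_of_bd hρm fun ω => by
    rw [Real.norm_eq_abs]
    exact hρb' ω
  have hexp : ∀ ω, ‖X ω + Z ω‖ ^ 2 = ‖X ω‖ ^ 2 + ‖Z ω‖ ^ 2 + 2 * ρ ω := by
    intro ω
    rw [← Complex.normSq_eq_norm_sq, Complex.normSq_add, Complex.normSq_eq_norm_sq,
      Complex.normSq_eq_norm_sq]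
    congr 2
    simp only [hρ, Complex.mul_re, Complex.conj_re, Complex.conj_im]
    ring
  have cint : ∀ (F : Ω → ℂ), Integrable F μ → ∫ ω, (F ω).re ∂μ = (∫ ω, F ω ∂μ).re := by
    intro F hF
    exact integral_re hF
  have e1 : ∫ ω, ρ ω ∂μ = 0 := by
    have h1 := hpd (fun z => (starRingEnd ℂ) z) id hconj measurable_id
    have h2 : Integrable (fun ω => (starRingEnd ℂ) (X ω) * Z ω) μ :=
      int_of_bd ((hconj.comp hXm).mul hZm) (C := bX * bZ) fun ω => by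
        rw [norm_mul, Complex.norm_conj]
        exact mul_le_mul (hX ω) (hZ ω) (norm_nonneg _) hbX0
    rw [hρ, cint _ h2]
    simp only [id] at h1
    rw [h1, hconj0, zero_mul, Complex.zero_re]
  have e2 : ∫ ω, ‖X ω‖ ^ 2 * ρ ω ∂μ = 0 := by
    have h1 := hpd (fun z => ((‖z‖ ^ 2 : ℝ) : ℂ) * (starRingEnd ℂ) z) id
      ((Complex.measurable_ofReal.comp (measurable_norm.pow_const 2)).mul hconj) measurable_id
    have h2 : Integrable (fun ω => (((‖X ω‖ ^ 2 : ℝ) : ℂ) * (starRingEnd ℂ) (X ω)) * Z ω) μ :=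
      int_of_bd (((Complex.measurable_ofReal.comp (hXm.norm.pow_const 2)).mul
        (hconj.comp hXm)).mul hZm) (C := bX ^ 2 * bX * bZ) fun ω => by
        rw [norm_mul, norm_mul, Complex.norm_conj, Complex.norm_real, Real.norm_eq_abs,
          abs_of_nonneg (by positivity)]
        have := pow_le_pow_left₀ (norm_nonneg _) (hX ω) 2
        have h3 := hX ω
        have h4 := hZ ω
        gcongr
    have h3 : (fun ω => ‖X ω‖ ^ 2 * ρ ω) = fun ω =>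
        ((((‖X ω‖ ^ 2 : ℝ) : ℂ) * (starRingEnd ℂ) (X ω)) * Z ω).re := by
      funext ω
      rw [mul_assoc, Complex.re_ofReal_mul]
    rw [h3, cint _ h2]
    simp only [id] at h1
    rw [h1, hZ0, mul_zero, Complex.zero_re]
  have e3 : ∫ ω, ‖Z ω‖ ^ 2 * ρ ω ∂μ = 0 := by
    have h1 := hpd (fun z => (starRingEnd ℂ) z) (fun z => ((‖z‖ ^ 2 : ℝ) : ℂ) * z)
      hconj ((Complex.measurable_ofReal.comp (measurable_norm.pow_const 2)).mul measurable_id)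
    have h2 : Integrable (fun ω => (starRingEnd ℂ) (X ω) * (((‖Z ω‖ ^ 2 : ℝ) : ℂ) * Z ω)) μ :=
      int_of_bd ((hconj.comp hXm).mul ((Complex.measurable_ofReal.comp (hZm.norm.pow_const 2)).mul
        hZm)) (C := bX * (bZ ^ 2 * bZ)) fun ω => by
        rw [norm_mul, norm_mul, Complex.norm_conj, Complex.norm_real, Real.norm_eq_abs,
          abs_of_nonneg (by positivity)]
        have := pow_le_pow_left₀ (norm_nonneg _) (hZ ω) 2
        have h3 := hX ω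
        have h4 := hZ ω
        gcongr
    have h3 : (fun ω => ‖Z ω‖ ^ 2 * ρ ω) = fun ω =>
        ((starRingEnd ℂ) (X ω) * (((‖Z ω‖ ^ 2 : ℝ) : ℂ) * Z ω)).re := by
      funext ω
      rw [← mul_assoc, mul_comm ((starRingEnd ℂ) (X ω)), mul_assoc, Complex.re_ofReal_mul]
    rw [h3, cint _ h2]
    rw [h1, hconj0, zero_mul, Complex.zero_re]
  refine ⟨by rw [integral_add iX iZ, hX0, hZ0, add_zero], ?_, ?_⟩
  · simp_rw [hexp]
    have i12 : Integrable (fun ω => ‖X ω‖ ^ 2 + ‖Z ω‖ ^ 2) μ := (iXp 2).add (iZp 2)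
    rw [integral_add i12 (iρ.const_mul 2), integral_add (iXp 2) (iZp 2),
      integral_const_mul, e1]
    ring
  · have i1 : Integrable (fun ω => ‖X ω‖ ^ 2 * ‖Z ω‖ ^ 2) μ :=
      int_of_bd ((hXm.norm.pow_const 2).mul (hZm.norm.pow_const 2)) (C := bX ^ 2 * bZ ^ 2)
        fun ω => by
        rw [Real.norm_eq_abs, abs_of_nonneg (by positivity)]
        exact mul_le_mul (pow_le_pow_left₀ (norm_nonneg _) (hX ω) 2)
          (pow_le_pow_left₀ (norm_nonneg _) (hZ ω) 2) (by positivity) (by positivity)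
    have i2 : Integrable (fun ω => ‖X ω‖ ^ 2 * ρ ω) μ :=
      int_of_bd ((hXm.norm.pow_const 2).mul hρm) (C := bX ^ 2 * (bX * bZ)) fun ω => by
        rw [norm_mul, Real.norm_eq_abs, Real.norm_eq_abs, abs_of_nonneg (by positivity)]
        exact mul_le_mul (pow_le_pow_left₀ (norm_nonneg _) (hX ω) 2) (hρb' ω) (abs_nonneg _)
          (by positivity)
    have i3 : Integrable (fun ω => ‖Z ω‖ ^ 2 * ρ ω) μ :=
      int_of_bd ((hZm.norm.pow_const 2).mul hρm) (C := bZ ^ 2 * (bX * bZ)) fun ω => by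
        rw [norm_mul, Real.norm_eq_abs, Real.norm_eq_abs, abs_of_nonneg (by positivity)]
        exact mul_le_mul (pow_le_pow_left₀ (norm_nonneg _) (hZ ω) 2) (hρb' ω) (abs_nonneg _)
          (by positivity)
    have hle : ∀ ω, ‖X ω + Z ω‖ ^ 4 ≤ (‖X ω‖ ^ 4 + 6 * (‖X ω‖ ^ 2 * ‖Z ω‖ ^ 2) + ‖Z ω‖ ^ 4) +
        4 * (‖X ω‖ ^ 2 * ρ ω) + 4 * (‖Z ω‖ ^ 2 * ρ ω) := by
      intro ω
      have h1 : ‖X ω + Z ω‖ ^ 4 = (‖X ω + Z ω‖ ^ 2) ^ 2 := by ring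
      have h2 : ρ ω ^ 2 ≤ ‖X ω‖ ^ 2 * ‖Z ω‖ ^ 2 := by
        rw [← mul_pow, ← sq_abs (ρ ω)]
        exact pow_le_pow_left₀ (abs_nonneg _) (hρb ω) 2
      rw [h1, hexp]
      nlinarith
    have i4 : Integrable (fun ω => ‖X ω + Z ω‖ ^ 4) μ :=
      int_of_bd ((hXm.add hZm).norm.pow_const 4) (C := (bX + bZ) ^ 4) fun ω => by
        rw [Real.norm_eq_abs, abs_of_nonneg (by positivity)]
        exact pow_le_pow_left₀ (norm_nonneg _) ((norm_add_le _ _).trans (add_le_add (hX ω) (hZ ω))) 4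
    have j1 : Integrable (fun ω => ‖X ω‖ ^ 4 + 6 * (‖X ω‖ ^ 2 * ‖Z ω‖ ^ 2)) μ :=
      (iXp 4).add (i1.const_mul 6)
    have j2 : Integrable (fun ω => ‖X ω‖ ^ 4 + 6 * (‖X ω‖ ^ 2 * ‖Z ω‖ ^ 2) + ‖Z ω‖ ^ 4) μ :=
      j1.add (iZp 4)
    have j3 : Integrable (fun ω => (‖X ω‖ ^ 4 + 6 * (‖X ω‖ ^ 2 * ‖Z ω‖ ^ 2) + ‖Z ω‖ ^ 4) +
        4 * (‖X ω‖ ^ 2 * ρ ω)) μ := j2.add (i2.const_mul 4)
    have i5 : Integrable (fun ω => (‖X ω‖ ^ 4 + 6 * (‖X ω‖ ^ 2 * ‖Z ω‖ ^ 2) + ‖Z ω‖ ^ 4) +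
        4 * (‖X ω‖ ^ 2 * ρ ω) + 4 * (‖Z ω‖ ^ 2 * ρ ω)) μ := j3.add (i3.const_mul 4)
    refine (integral_mono i4 i5 hle).trans (le_of_eq ?_)
    have hp := hpdr (fun z => ‖z‖ ^ 2) (fun z => ‖z‖ ^ 2) (measurable_norm.pow_const 2)
      (measurable_norm.pow_const 2)
    rw [integral_add j3 (i3.const_mul 4), integral_add j2 (i2.const_mul 4),
      integral_add j1 (iZp 4), integral_add (iXp 4) (i1.const_mul 6),
      integral_const_mul, integral_const_mul, integral_const_mul, e2, e3]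
    rw [hp]
    ring

/-- finite sums of independent centred variables -/
theorem finset_mom {V : Type} {Z : V → Ω → ℂ} (hZm : ∀ v, Measurable (Z v)) {b : V → ℝ}
    (hb : ∀ v ω, ‖Z v ω‖ ≤ b v) (hind : iIndepFun Z μ) (h0 : ∀ v, ∫ ω, Z v ω ∂μ = 0)
    (T : Finset V) :
    (∫ ω, (∑ v ∈ T, Z v ω) ∂μ = 0) ∧
    (∫ ω, ‖∑ v ∈ T, Z v ω‖ ^ 2 ∂μ = ∑ v ∈ T, ∫ ω, ‖Z v ω‖ ^ 2 ∂μ) ∧
    (∀ κ : ℝ, 3 ≤ κ → (∀ v, ∫ ω, ‖Z v ω‖ ^ 4 ∂μ ≤ κ * (∫ ω, ‖Z v ω‖ ^ 2 ∂μ) ^ 2) →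
      ∫ ω, ‖∑ v ∈ T, Z v ω‖ ^ 4 ∂μ ≤ κ * (∑ v ∈ T, ∫ ω, ‖Z v ω‖ ^ 2 ∂μ) ^ 2) := by
  classical
  induction T using Finset.induction_on with
  | empty => simp
  | insert v T hv ih =>
    obtain ⟨ih1, ih2, ih3⟩ := ih
    have hXm : Measurable fun ω => ∑ u ∈ T, Z u ω := Finset.measurable_fun_sum T fun u _ => hZm u
    have hX : ∀ ω, ‖∑ u ∈ T, Z u ω‖ ≤ ∑ u ∈ T, b u := fun ω =>
      (norm_sum_le _ _).trans (Finset.sum_le_sum fun u _ => hb u ω)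
    have hI : IndepFun (fun ω => ∑ u ∈ T, Z u ω) (Z v) μ := by
      have := hind.indepFun_finsetSum_of_notMem hZm hv
      convert this using 1
      funext ω
      simp
    obtain ⟨a1, a2, a3⟩ := add_indep hXm (hZm v) hX (hb v) hI ih1 (h0 v)
    have hs : ∀ ω, ∑ u ∈ insert v T, Z u ω = (∑ u ∈ T, Z u ω) + Z v ω := fun ω => by
      rw [Finset.sum_insert hv, add_comm]
    simp_rw [hs]
    refine ⟨a1, ?_, fun κ hκ h4 => ?_⟩
    · rw [a2, ih2, Finset.sum_insert hv, add_comm]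
    · refine a3.trans ?_
      rw [ih2, Finset.sum_insert hv]
      have h5 := ih3 κ hκ h4
      have h6 := h4 v
      have h7 : 0 ≤ ∑ u ∈ T, ∫ ω, ‖Z u ω‖ ^ 2 ∂μ :=
        Finset.sum_nonneg fun u _ => integral_nonneg fun ω => by positivity
      have h8 : 0 ≤ ∫ ω, ‖Z v ω‖ ^ 2 ∂μ := integral_nonneg fun ω => by positivity
      nlinarith [mul_nonneg h7 h8]

/-- infinite sums -/
theorem tsum_mom {V : Type} [Countable V] {Z : V → Ω → ℂ} (hZm : ∀ v, Measurable (Z v)) {b : V → ℝ}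
    (hb : ∀ v ω, ‖Z v ω‖ ≤ b v) (hbs : Summable b) (hind : iIndepFun Z μ)
    (h0 : ∀ v, ∫ ω, Z v ω ∂μ = 0) :
    Measurable (fun ω => ∑' v, Z v ω) ∧ (∀ ω, ‖∑' v, Z v ω‖ ≤ ∑' v, b v) ∧
    (∫ ω, (∑' v, Z v ω) ∂μ = 0) ∧
    HasSum (fun v => ∫ ω, ‖Z v ω‖ ^ 2 ∂μ) (∫ ω, ‖∑' v, Z v ω‖ ^ 2 ∂μ) ∧
    (∀ κ : ℝ, 3 ≤ κ → (∀ v, ∫ ω, ‖Z v ω‖ ^ 4 ∂μ ≤ κ * (∫ ω, ‖Z v ω‖ ^ 2 ∂μ) ^ 2) →
      ∫ ω, ‖∑' v, Z v ω‖ ^ 4 ∂μ ≤ κ * (∫ ω, ‖∑' v, Z v ω‖ ^ 2 ∂μ) ^ 2) := by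
  classical
  have hsum : ∀ ω, Summable fun v => Z v ω := fun ω => Summable.of_norm_bounded hbs fun v => hb v ω
  have hne : Nonempty Ω := by
    by_contra h
    rw [not_nonempty_iff] at h
    have h1 : μ Set.univ = 1 := measure_univ
    rw [Set.univ_eq_empty_iff.2 h, measure_empty] at h1
    exact zero_ne_one h1
  obtain ⟨ω₀⟩ := hne
  have hb0 : ∀ v, 0 ≤ b v := fun v => (norm_nonneg _).trans (hb v ω₀)
  have hlim : ∀ ω, Tendsto (fun T : Finset V => ∑ v ∈ T, Z v ω) atTop (𝓝 (∑' v, Z v ω)) :=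
    fun ω => (hsum ω).hasSum
  have hXm : ∀ T : Finset V, Measurable fun ω => ∑ u ∈ T, Z u ω :=
    fun T => Finset.measurable_fun_sum T fun u _ => hZm u
  have hX : ∀ (T : Finset V) ω, ‖∑ u ∈ T, Z u ω‖ ≤ ∑' u, b u := fun T ω =>
    (norm_sum_le _ _).trans ((Finset.sum_le_sum fun u _ => hb u ω).trans
      (hbs.sum_le_tsum T fun v _ => hb0 v))
  have hm : Measurable (fun ω => ∑' v, Z v ω) :=
    measurable_of_tendsto_metrizable' atTop hXm (tendsto_pi_nhds.2 hlim)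
  have hB : ∀ ω, ‖∑' v, Z v ω‖ ≤ ∑' v, b v := fun ω =>
    tsum_of_norm_bounded hbs.hasSum fun v => hb v ω
  have hpow : ∀ k : ℕ, Tendsto (fun T : Finset V => ∫ ω, ‖∑ v ∈ T, Z v ω‖ ^ k ∂μ) atTop
      (𝓝 (∫ ω, ‖∑' v, Z v ω‖ ^ k ∂μ)) := by
    intro k
    refine tendsto_integral_filter_of_dominated_convergence (fun _ => (∑' u, b u) ^ k)
      (Eventually.of_forall fun T => ((hXm T).norm.pow_const k).aestronglyMeasurable)
      (Eventually.of_forall fun T => ae_of_all _ fun ω => ?_) (integrable_const _)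
      (ae_of_all _ fun ω => ((hlim ω).norm.pow k))
    rw [Real.norm_eq_abs, abs_of_nonneg (by positivity)]
    exact pow_le_pow_left₀ (norm_nonneg _) (hX T ω) k
  have hint : Tendsto (fun T : Finset V => ∫ ω, (∑ v ∈ T, Z v ω) ∂μ) atTop
      (𝓝 (∫ ω, (∑' v, Z v ω) ∂μ)) := by
    refine tendsto_integral_filter_of_dominated_convergence (fun _ => (∑' u, b u))
      (Eventually.of_forall fun T => (hXm T).aestronglyMeasurable)
      (Eventually.of_forall fun T => ae_of_all _ fun ω => hX T ω) (integrable_const _)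
      (ae_of_all _ fun ω => hlim ω)
  have hfin := fun T => finset_mom hZm hb hind h0 T
  refine ⟨hm, hB, ?_, ?_, fun κ hκ h4 => ?_⟩
  · have h1 : (fun T : Finset V => ∫ ω, (∑ v ∈ T, Z v ω) ∂μ) = fun _ => 0 :=
      funext fun T => (hfin T).1
    rw [h1] at hint
    exact (tendsto_nhds_unique hint tendsto_const_nhds)
  · have h1 := hpow 2
    have h2 : (fun T : Finset V => ∫ ω, ‖∑ v ∈ T, Z v ω‖ ^ 2 ∂μ) =
      fun T => ∑ v ∈ T, ∫ ω, ‖Z v ω‖ ^ 2 ∂μ := funext fun T => (hfin T).2.1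
    rw [h2] at h1
    exact h1
  · refine le_of_tendsto_of_tendsto' (hpow 4) (((hpow 2).pow 2).const_mul κ) fun T => ?_
    have := (hfin T).2.2 κ hκ h4
    rw [← (hfin T).2.1] at this
    exact this

/-- Cauchy-Schwarz on a set -/
theorem cs_ind {f : Ω → ℝ} (hfm : Measurable f) {b : ℝ} (hfb : ∀ ω, ‖f ω‖ ≤ b)
    {A : Set Ω} (hA : MeasurableSet A) :
    (∫ ω in A, f ω ∂μ) ^ 2 ≤ (∫ ω, f ω ^ 2 ∂μ) * μ.real A := by
  have i1 : Integrable f μ := int_of_bd hfm hfb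
  have i2 : Integrable (fun ω => f ω ^ 2) μ := int_of_bd (hfm.pow_const 2) (C := b ^ 2) fun ω => by
    rw [norm_pow]
    exact pow_le_pow_left₀ (norm_nonneg _) (hfb ω) 2
  have i3 : Integrable (A.indicator fun _ => (1 : ℝ)) μ := (integrable_const 1).indicator hA
  have i4 : Integrable (A.indicator f) μ := i1.indicator hA
  have h1 : ∀ t : ℝ, 0 ≤ (∫ ω, f ω ^ 2 ∂μ) * (t * t) + (-2 * ∫ ω in A, f ω ∂μ) * t + μ.real A := by
    intro t
    have h2 : 0 ≤ ∫ ω, (t * f ω - A.indicator (fun _ => (1 : ℝ)) ω) ^ 2 ∂μ :=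
      integral_nonneg fun ω => sq_nonneg _
    have h3 : ∀ ω, (t * f ω - A.indicator (fun _ => (1 : ℝ)) ω) ^ 2 =
        t * t * f ω ^ 2 + (-2 * t) * A.indicator f ω + A.indicator (fun _ => (1 : ℝ)) ω := by
      intro ω
      by_cases hω : ω ∈ A
      · rw [Set.indicator_of_mem hω, Set.indicator_of_mem hω]
        ring
      · rw [Set.indicator_of_notMem hω, Set.indicator_of_notMem hω]
        ring
    simp_rw [h3] at h2
    have j1 : Integrable (fun ω => t * t * f ω ^ 2 + (-2 * t) * A.indicator f ω) μ :=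
      (i2.const_mul _).add (i4.const_mul _)
    rw [integral_add j1 i3, integral_add (i2.const_mul _) (i4.const_mul _), integral_const_mul,
      integral_const_mul, integral_indicator hA, integral_indicator hA, setIntegral_const,
      smul_eq_mul, mul_one] at h2
    linarith
  have h4 := discrim_le_zero h1
  unfold discrim at h4
  nlinarith

/-- non-concentration -/
theorem non_conc {S : Ω → ℂ} (hSm : Measurable S) {b : ℝ} (hb : ∀ ω, ‖S ω‖ ≤ b)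
    (h0 : ∫ ω, S ω ∂μ = 0) {κ : ℝ} (hκ : 1 ≤ κ)
    (h4 : ∫ ω, ‖S ω‖ ^ 4 ∂μ ≤ κ * (∫ ω, ‖S ω‖ ^ 2 ∂μ) ^ 2) {H : Set Ω} (hH : MeasurableSet H)
    {u : ℝ} (hu : 0 ≤ u) (hHc : μ.real Hᶜ ≤ u ^ 2) (hκu : 8 * √κ * u ≤ 1) {m : ℂ} {ε : ℝ}
    (hε : 0 ≤ ε) (hS : ∀ ω ∈ H, ‖S ω + m‖ ≤ ε) : ∫ ω, ‖S ω‖ ^ 2 ∂μ ≤ 16 * ε ^ 2 := by
  set V : ℝ := ∫ ω, ‖S ω‖ ^ 2 ∂μ with hV
  have hV0 : 0 ≤ V := integral_nonneg fun ω => by positivity
  set σ : ℝ := √V with hσ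
  have hσ0 : 0 ≤ σ := Real.sqrt_nonneg _
  have hσ2 : σ ^ 2 = V := Real.sq_sqrt hV0
  have hκ1 : 1 ≤ √κ := Real.one_le_sqrt.2 hκ
  have hκ2 : √κ ^ 2 = κ := Real.sq_sqrt (by linarith)
  have hu8 : 8 * u ≤ 1 := by nlinarith
  have iS : Integrable S μ := int_of_bd hSm hb
  have hn : ∀ ω, ‖(‖S ω‖ : ℝ)‖ ≤ b := fun ω => by rw [norm_norm]; exact hb ω
  have hn2 : ∀ ω, ‖(‖S ω‖ ^ 2 : ℝ)‖ ≤ b ^ 2 := fun ω => by
    rw [norm_pow, norm_norm]
    exact pow_le_pow_left₀ (norm_nonneg _) (hb ω) 2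
  have i2 : Integrable (fun ω => ‖S ω‖ ^ 2) μ := int_of_bd (hSm.norm.pow_const 2) hn2
  have c1 : ∫ ω in Hᶜ, ‖S ω‖ ∂μ ≤ σ * u := by
    have h1 := cs_ind (μ := μ) hSm.norm hn hH.compl
    have h2 : (∫ ω in Hᶜ, ‖S ω‖ ∂μ) ^ 2 ≤ (σ * u) ^ 2 := by
      rw [mul_pow, hσ2]
      exact h1.trans (mul_le_mul_of_nonneg_left hHc hV0)
    exact le_of_sq_le_sq h2 (by positivity)
  have c2 : ∫ ω in Hᶜ, ‖S ω‖ ^ 2 ∂μ ≤ V / 8 := by
    have h1 := cs_ind (μ := μ) (hSm.norm.pow_const 2) hn2 hH.compl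
    have h3 : ∀ ω, (‖S ω‖ ^ 2) ^ 2 = ‖S ω‖ ^ 4 := fun ω => by ring
    simp_rw [h3] at h1
    have h2 : (∫ ω in Hᶜ, ‖S ω‖ ^ 2 ∂μ) ^ 2 ≤ (√κ * V * u) ^ 2 := by
      refine h1.trans ((mul_le_mul h4 hHc measureReal_nonneg (by positivity)).trans (le_of_eq ?_))
      rw [mul_pow, mul_pow, hκ2]
    have h4 := le_of_sq_le_sq h2 (by positivity)
    nlinarith
  have hmc : μ.real H = 1 - μ.real Hᶜ := by
    have := probReal_add_probReal_compl (μ := μ) hH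
    linarith
  have hmu : μ.real Hᶜ ≤ 1 / 64 := by nlinarith
  have hmH : μ.real H ≤ 1 := by
    rw [hmc]
    have : 0 ≤ μ.real Hᶜ := measureReal_nonneg
    linarith
  -- the size of `m`
  have c3 : ‖m‖ * (63 / 64) ≤ ε + σ * u := by
    have h1 : ∫ ω in H, (S ω + m) ∂μ = (∫ ω in H, S ω ∂μ) + μ.real H • m := by
      rw [integral_add iS.integrableOn (integrable_const m), setIntegral_const]
    have h2 : (∫ ω in H, S ω ∂μ) + ∫ ω in Hᶜ, S ω ∂μ = 0 := by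
      rw [integral_add_compl hH iS, h0]
    have h3 : ‖∫ ω in H, (S ω + m) ∂μ‖ ≤ ε * μ.real H :=
      norm_setIntegral_le_of_norm_le_const (measure_lt_top _ _) hS
    have h5 : ‖∫ ω in Hᶜ, S ω ∂μ‖ ≤ σ * u := (norm_integral_le_integral_norm _).trans c1
    have h6 : μ.real H • m = (∫ ω in H, (S ω + m) ∂μ) + ∫ ω in Hᶜ, S ω ∂μ := by
      rw [h1]
      linear_combination (-1 : ℂ) * h2
    have h7 : ‖μ.real H • m‖ = μ.real H * ‖m‖ := by
      rw [norm_smul, Real.norm_eq_abs, abs_of_nonneg measureReal_nonneg]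
    have h8 : μ.real H * ‖m‖ ≤ ε * μ.real H + σ * u := by
      rw [← h7, h6]
      exact (norm_add_le _ _).trans (add_le_add h3 h5)
    have h9 : (63 / 64 : ℝ) ≤ μ.real H := by rw [hmc]; linarith
    nlinarith [norm_nonneg m]
  have c4 : ∫ ω in H, ‖S ω‖ ^ 2 ∂μ ≤ (ε + ‖m‖) ^ 2 := by
    have h1 : ∀ ω ∈ H, ‖S ω‖ ^ 2 ≤ (ε + ‖m‖) ^ 2 := fun ω hω => by
      refine pow_le_pow_left₀ (norm_nonneg _) ?_ 2
      have : S ω = (S ω + m) - m := by ring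
      rw [this]
      exact (norm_sub_le _ _).trans (add_le_add (hS ω hω) le_rfl)
    have h2 := setIntegral_mono_on i2.integrableOn (integrableOn_const (μ := μ) (s := H)
      (C := (ε + ‖m‖) ^ 2)) hH h1
    rw [setIntegral_const, smul_eq_mul] at h2
    refine h2.trans ?_
    exact mul_le_of_le_one_left (by positivity) hmH
  have c5 : V ≤ (ε + ‖m‖) ^ 2 + V / 8 := by
    have h1 := integral_add_compl hH i2
    rw [← hV] at h1
    linarith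
  have hm : ‖m‖ ≤ (64 / 63) * ε + (8 / 63) * σ := by nlinarith
  have h5 : ε + ‖m‖ ≤ (127 / 63) * ε + (8 / 63) * σ := by linarith
  have h6 : (ε + ‖m‖) ^ 2 ≤ ((127 / 63) * ε + (8 / 63) * σ) ^ 2 :=
    pow_le_pow_left₀ (by positivity) h5 2
  nlinarith [sq_nonneg (ε - σ), sq_nonneg (4 * ε - σ), sq_nonneg (8 * ε - σ)]

end Pool.Agent.W5h88.NB
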