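import Pool.Agent.W5h88.NB.Mod

/-!
# Random Euler products: continuation and natural boundary
-/

set_option autoImplicit false
set_option linter.unusedSectionVars false
set_option maxHeartbeats 400000

open MeasureTheory ProbabilityTheory Filter Topology Complex

namespace Pool.Agent.W5h88.NB

variable {V Ω : Type} [Countable V] [MeasurableSpace Ω] {μ : Measure Ω} [IsProbabilityMeasure μ]

namespace Mdl

variable (M : Mdl V Ω μ)

/-- the mean part -/
noncomputable def Mp (j : ℕ) (c : ℂ) (k : ℕ) : ℂ :=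
  ∑' v, (M.mn v j : ℂ) / (j + 1) * ct ((j + 1) * M.l v) c k

theorem norm_j (j : ℕ) : (1 : ℝ) ≤ ‖((j : ℂ) + 1)‖ := by
  have : ((j : ℂ) + 1) = ((j + 1 : ℕ) : ℂ) := by push_cast; rfl
  rw [this, Complex.norm_natCast]
  exact_mod_cast Nat.succ_pos _

theorem term_bd {x : ℝ} {b : ℝ} (hx : |x| ≤ b) (j : ℕ) (z : ℂ) : ‖(x : ℂ) / (j + 1) * z‖ ≤ b * ‖z‖ := by
  rw [norm_mul, norm_div, Complex.norm_real, Real.norm_eq_abs]
  exact mul_le_mul_of_nonneg_right ((div_le_self (abs_nonneg _) (norm_j j)).trans hx) (norm_nonneg _)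

theorem mp_summable {j : ℕ} {c : ℂ} (h : 1 < c.re * (j + 1)) (k : ℕ) :
    Summable fun v => (M.mn v j : ℂ) / (j + 1) * ct ((j + 1) * M.l v) c k :=
  Summable.of_norm_bounded ((M.ctl_summable h k).mul_left M.B) fun v => term_bd (M.mn_bd v j) j _

theorem Q_eq {j : ℕ} {c : ℂ} (h : 1 < c.re * (j + 1)) (k : ℕ) (S : Finset V) (ω : Ω) :
    M.Q j c k ω = M.F S j c k ω + (∑ v ∈ S, ((M.τ v j ω - M.mn v j : ℝ) : ℂ) / (j + 1) *
      ct ((j + 1) * M.l v) c k) + M.Mp j c k := by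
  classical
  have h1 := (M.Z_sum (S := (S : Set V)) h k ω).hasSum
  have h2 : HasSum (fun v => if v ∈ S then ((M.τ v j ω - M.mn v j : ℝ) : ℂ) / (j + 1) *
      ct ((j + 1) * M.l v) c k else 0) (∑ v ∈ S, ((M.τ v j ω - M.mn v j : ℝ) : ℂ) / (j + 1) *
      ct ((j + 1) * M.l v) c k) := by
    have : HasSum (fun v => if v ∈ S then
      ((M.τ v j ω - M.mn v j : ℝ) : ℂ) / (j + 1) * ct ((j + 1) * M.l v) c k else 0)
      (∑ v ∈ S, if v ∈ S then
      ((M.τ v j ω - M.mn v j : ℝ) : ℂ) / (j + 1) * ct ((j + 1) * M.l v) c k else 0) :=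
      hasSum_sum_of_ne_finset_zero fun v hv => if_neg hv
    convert this using 1
    exact Finset.sum_congr rfl fun v hv => (if_pos hv).symm
  have h3 := (h1.add h2).add (M.mp_summable h k).hasSum
  unfold Q F Mp
  refine (h3.congr_fun fun v => ?_).tsum_eq
  unfold Z
  by_cases hv : v ∈ S
  · rw [if_pos (Finset.mem_coe.2 hv), if_pos hv]
    push_cast
    ring
  · rw [if_neg fun h => hv (Finset.mem_coe.1 h), if_neg hv]
    push_cast
    ring

/-- the mean part is small -/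
theorem mp_bd {c : ℂ} {y : ℝ} (hy : 0 < y) (h : y < c.re - 1 / 2) : ∃ A : ℝ, 0 ≤ A ∧ ∀ k,
    ‖M.Mp 0 c k‖ ≤ A * (y ^ k)⁻¹ := by
  have hs : Summable fun v => |M.C| * Real.exp (-((c.re - y + 1 / 2) * M.l v)) :=
    (M.sum_exp (by linarith)).mul_left _
  refine ⟨∑' v, |M.C| * Real.exp (-((c.re - y + 1 / 2) * M.l v)),
    tsum_nonneg fun v => by positivity, fun k => ?_⟩
  rw [← tsum_mul_right]
  refine tsum_of_norm_bounded (hs.mul_right _).hasSum fun v => ?_
  have h1 : |M.mn v 0| ≤ |M.C| * Real.exp (-(1 / 2 * M.l v)) := by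
    rw [M.exp_l]
    refine (M.mean v).trans ?_
    have : (0 : ℝ) ≤ M.q v ^ (-(1 / 2) : ℝ) := Real.rpow_nonneg (M.q_pos v).le _
    exact mul_le_mul_of_nonneg_right (le_abs_self _) this
  refine (term_bd h1 0 _).trans ?_
  have h2 := M.ctl_le (j := 0) (c := c) hy v k
  refine (mul_le_mul_of_nonneg_left h2 (by positivity)).trans (le_of_eq ?_)
  have h3 : Real.exp (-((c.re - y + 1 / 2) * M.l v)) = Real.exp (-(1 / 2 * M.l v)) *
      Real.exp (-((c.re - y) * (((0 : ℕ) + 1) * M.l v))) := by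
    rw [← Real.exp_add]
    congr 1
    push_cast
    ring
  rw [h3]
  ring

/-- **Continuation**: the radius of convergence. -/
theorem D_ae {c : ℂ} (hc : 1 < c.re) {y : ℝ} (hy : 0 < y) (hyc : y < c.re - 1 / 2) :
    ∀ᵐ ω ∂μ, ∃ C : ℝ, ∀ k, ‖M.D 0 c k ω‖ * y ^ k ≤ C := by
  obtain ⟨y₁, h1, h2⟩ := exists_between hyc
  have hy1 : 0 < y₁ := hy.trans h1
  have hc0 : 1 < c.re * ((0 : ℕ) + 1) := by push_cast; linarith
  obtain ⟨A, hA0, hA⟩ := M.F_sq ∅ (j := 0) (c := c) hc0 hy1 (by push_cast; linarith)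
  obtain ⟨A', hA'0, hA'⟩ := M.mp_bd hy hyc
  have hF := fun k => M.F_facts ∅ (j := 0) (c := c) hc0 k
  have h3 := ae_bdd (μ := μ) (F := M.F ∅ 0 c) (fun k => (hF k).1) (fun k => (hF k).2.1) (A := A)
    (ρ := (y₁ ^ 2)⁻¹) (y := y) (fun k => by
      refine (hA k).trans (le_of_eq ?_)
      rw [inv_pow, inv_pow]
      ring) (by positivity) (by
      rw [inv_mul_lt_iff₀ (by positivity), mul_one]
      exact pow_lt_pow_left₀ h1 hy.le (by norm_num))
  filter_upwards [h3] with ω hω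
  obtain ⟨C, hC⟩ := hω
  refine ⟨C + A' + M.B * ∑' p : V × ℕ, Real.exp (-((c.re - y) * M.fr 1 p)), fun k => ?_⟩
  have hyk : 0 < y ^ k := pow_pos hy k
  have h4 : M.D 0 c k ω = M.F ∅ 0 c k ω + M.Mp 0 c k + M.D 1 c k ω := by
    rw [M.D_succ hc0, M.Q_eq hc0 k ∅ ω]
    simp
  have h5 := M.D_bd (j := 1) (c := c) hy (by linarith) (by push_cast; linarith) k ω
  have h6 := hA' k
  have h7 : ‖M.D 0 c k ω‖ ≤ ‖M.F ∅ 0 c k ω‖ + A' * (y ^ k)⁻¹ +
      (M.B * ∑' p : V × ℕ, Real.exp (-((c.re - y) * M.fr 1 p))) * (y ^ k)⁻¹ := by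
    rw [h4]
    exact (norm_add_le _ _).trans (add_le_add ((norm_add_le _ _).trans (add_le_add le_rfl h6)) h5)
  refine (mul_le_mul_of_nonneg_right h7 hyk.le).trans ?_
  rw [add_mul, add_mul, mul_assoc, inv_mul_cancel₀ hyk.ne', mul_assoc _ (y ^ k)⁻¹,
    inv_mul_cancel₀ hyk.ne', mul_one, mul_one]
  have := hC k
  linarith

/-! ### The event of a larger radius of convergence -/

/-- the event that the Taylor coefficients are `O(r ^ (-k))` -/
def Ev (c : ℂ) (r : ℝ) : Set Ω := {ω | ∃ C : ℝ, ∀ k, ‖M.D 0 c k ω‖ * r ^ k ≤ C}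

open Classical in
/-- the coefficients outside a finite set of places -/
noncomputable def cS (S : Finset V) (ω : Ω) (p : V × ℕ) : ℂ := if p.1 ∈ S then 0 else M.cf 0 ω p

theorem sum_S (S : Finset V) {x : ℝ} (hx : 0 < x) (ω : Ω) :
    Summable fun p => ‖M.cf 0 ω p - M.cS S ω p‖ * Real.exp (-(x * M.fr 0 p)) := by
  classical
  have hl2 : 0 < Real.log 2 := Real.log_pos (by norm_num)
  have h1 : Summable fun p : V × ℕ => (if p.1 ∈ S then M.B * Real.exp (-(x * M.l p.1)) else 0) *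
      Real.exp (-(x * Real.log 2)) ^ p.2 := by
    refine Summable.mul_of_nonneg (f := fun v => if v ∈ S then M.B * Real.exp (-(x * M.l v)) else 0)
      (g := fun m : ℕ => Real.exp (-(x * Real.log 2)) ^ m)
      (summable_of_ne_finset_zero (s := S) fun v hv => if_neg hv)
      (summable_geometric_of_lt_one (Real.exp_pos _).le ?_) (fun v => ?_) fun m => ?_
    · rw [Real.exp_lt_one_iff]
      have : 0 < x * Real.log 2 := by positivity
      linarith
    · show 0 ≤ if v ∈ S then M.B * Real.exp (-(x * M.l v)) else 0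
      have hB : 0 ≤ M.B := (abs_nonneg _).trans (M.bd v 0 ω)
      split_ifs <;> positivity
    · show 0 ≤ Real.exp (-(x * Real.log 2)) ^ m
      positivity
  refine Summable.of_nonneg_of_le (fun p => by positivity) (fun p => ?_) h1
  unfold cS
  by_cases hp : p.1 ∈ S
  · rw [if_pos hp, if_pos hp, sub_zero, mul_assoc, ← Real.exp_nat_mul, ← Real.exp_add]
    refine mul_le_mul (M.cf_bd 0 ω p) ?_ (Real.exp_pos _).le
      ((norm_nonneg _).trans (M.cf_bd 0 ω p))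
    refine Real.exp_le_exp.2 ?_
    have h2 := M.l_ge p.1
    have h3 : x * p.2 * Real.log 2 ≤ x * p.2 * M.l p.1 :=
      mul_le_mul_of_nonneg_left h2 (by positivity)
    unfold fr
    push_cast
    nlinarith
  · rw [if_neg hp, if_neg hp, sub_self, norm_zero, zero_mul, zero_mul]

theorem cS_sum (S : Finset V) {x : ℝ} (h : 1 < x) (ω : Ω) :
    Summable fun p => ‖M.cS S ω p‖ * Real.exp (-(x * M.fr 0 p)) := by
  refine Summable.of_nonneg_of_le (fun p => by positivity) (fun p => ?_)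
    (M.cf_sum (j := 0) (x := x) (by linarith) (by push_cast; linarith) ω)
  refine mul_le_mul_of_nonneg_right ?_ (Real.exp_pos _).le
  unfold cS
  split_ifs
  · rw [norm_zero]
    positivity
  · exact le_rfl

theorem Ev_iff {c : ℂ} (hc : 1 < c.re) {r : ℝ} (hr : 0 < r) (hrc : r < c.re) (S : Finset V) (ω : Ω) :
    ω ∈ M.Ev c r ↔ ∃ N : ℕ, ∀ k, ‖co (M.fr 0) (M.cS S ω) c k‖ * r ^ k ≤ N := by
  obtain ⟨y, hy1, hy2⟩ := exists_between hc
  have e1 : c.re - (c.re - y) = y := by ring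
  have hcf := fun k => co_summable (a := M.cf 0 ω) (c := c) (y := c.re - y) (M.fr_nonneg 0)
    (by linarith) (by rw [e1]; exact M.cf_sum (by linarith) (by push_cast; linarith) ω) k
  have hcS := fun k => co_summable (a := M.cS S ω) (c := c) (y := c.re - y) (M.fr_nonneg 0)
    (by linarith) (by rw [e1]; exact M.cS_sum S (by linarith) ω) k
  have hdiff : ∀ k, co (M.fr 0) (fun p => M.cf 0 ω p - M.cS S ω p) c k =
      M.D 0 c k ω - co (M.fr 0) (M.cS S ω) c k := by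
    intro k
    unfold D co
    rw [← (hcf k).tsum_sub (hcS k)]
    exact tsum_congr fun p => by ring
  have hb := fun k => co_bd (a := fun p => M.cf 0 ω p - M.cS S ω p) (c := c) (y := r)
    (M.fr_nonneg 0) hr (M.sum_S S (x := c.re - r) (by linarith) ω) k
  set T : ℝ := ∑' p, ‖M.cf 0 ω p - M.cS S ω p‖ * Real.exp (-((c.re - r) * M.fr 0 p)) with hT
  have hb' : ∀ k, ‖M.D 0 c k ω - co (M.fr 0) (M.cS S ω) c k‖ * r ^ k ≤ T := by
    intro k
    have hrk : 0 < r ^ k := pow_pos hr k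
    have := hb k
    rw [hdiff] at this
    refine (mul_le_mul_of_nonneg_right this hrk.le).trans (le_of_eq ?_)
    rw [mul_assoc, inv_mul_cancel₀ hrk.ne', mul_one]
  constructor
  · rintro ⟨C, hC⟩
    obtain ⟨N, hN⟩ := exists_nat_ge (C + T)
    refine ⟨N, fun k => le_trans ?_ hN⟩
    have h1 : ‖co (M.fr 0) (M.cS S ω) c k‖ ≤ ‖M.D 0 c k ω‖ +
        ‖M.D 0 c k ω - co (M.fr 0) (M.cS S ω) c k‖ := by
      have := norm_sub_le (M.D 0 c k ω) (M.D 0 c k ω - co (M.fr 0) (M.cS S ω) c k)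
      rwa [sub_sub_cancel] at this
    have := mul_le_mul_of_nonneg_right h1 (pow_pos hr k).le
    rw [add_mul] at this
    linarith [hC k, hb' k]
  · rintro ⟨N, hN⟩
    refine ⟨N + T, fun k => ?_⟩
    have h1 : ‖M.D 0 c k ω‖ ≤ ‖co (M.fr 0) (M.cS S ω) c k‖ +
        ‖M.D 0 c k ω - co (M.fr 0) (M.cS S ω) c k‖ := by
      have := norm_add_le (co (M.fr 0) (M.cS S ω) c k) (M.D 0 c k ω - co (M.fr 0) (M.cS S ω) c k)
      rwa [add_sub_cancel] at this
    have := mul_le_mul_of_nonneg_right h1 (pow_pos hr k).le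
    rw [add_mul] at this
    linarith [hN k, hb' k]

/-- the σ-algebra of a place -/
@[instance_reducible] def sg (v : V) : MeasurableSpace Ω :=
  MeasurableSpace.comap (fun ω (m : ℕ) => M.τ v m ω) inferInstance

/-- the σ-algebra of a set of places -/
@[instance_reducible] def sgT (T : Set V) : MeasurableSpace Ω := ⨆ v ∈ T, M.sg v

theorem tau_meas {T : Set V} {v : V} (hv : v ∈ T) (m : ℕ) : Measurable[M.sgT T] (M.τ v m) := by
  have h2 : Measurable[M.sg v] (fun ω (i : ℕ) => M.τ v i ω) := comap_measurable _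
  have h3 : Measurable[M.sg v] (M.τ v m) := (measurable_pi_apply m).comp h2
  exact h3.mono (le_iSup₂_of_le v hv le_rfl) le_rfl

theorem co_meas (T : Set V) (S : Finset V) {c : ℂ} (hc : 1 < c.re)
    (h : ∀ v, v ∉ S → v ∈ T) (k : ℕ) :
    Measurable[M.sgT T] fun ω => co (M.fr 0) (M.cS S ω) c k := by
  classical
  obtain ⟨y, hy1, hy2⟩ := exists_between hc
  have e1 : c.re - (c.re - y) = y := by ring
  have hcS := fun ω => co_summable (a := M.cS S ω) (c := c) (y := c.re - y) (M.fr_nonneg 0)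
    (by linarith) (by rw [e1]; exact M.cS_sum S (by linarith) ω) k
  refine @meas_tsum Ω (M.sgT T) (V × ℕ) _ _ (fun p => ?_) hcS
  unfold cS
  by_cases hp : p.1 ∈ S
  · simp only [if_pos hp]
    exact @measurable_const _ _ _ (M.sgT T) _
  · simp only [if_neg hp]
    have h1 : Measurable[M.sgT T] (M.τ p.1 (p.2 + 0)) := M.tau_meas (h p.1 hp) _
    unfold cf
    exact ((Complex.measurable_ofReal.comp h1).div_const _).mul_const _

theorem sg_le (v : V) : M.sg v ≤ (inferInstance : MeasurableSpace Ω) := by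
  refine Measurable.comap_le (measurable_pi_lambda _ fun m => M.meas v m)

theorem sgT_le (T : Set V) : M.sgT T ≤ (inferInstance : MeasurableSpace Ω) :=
  iSup₂_le fun v _ => M.sg_le v

theorem Ev_meas' (T : Set V) (S : Finset V) {c : ℂ} (hc : 1 < c.re) {r : ℝ} (hr : 0 < r)
    (hrc : r < c.re) (h : ∀ v, v ∉ S → v ∈ T) : MeasurableSet[M.sgT T] (M.Ev c r) := by
  have h1 : M.Ev c r = ⋃ N : ℕ, ⋂ k : ℕ,
      {ω | ‖co (M.fr 0) (M.cS S ω) c k‖ * r ^ k ≤ N} := by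
    ext ω
    rw [M.Ev_iff hc hr hrc S ω]
    simp only [Set.mem_iUnion, Set.mem_iInter, Set.mem_ofPred_eq]
  rw [h1]
  refine MeasurableSet.iUnion fun N => MeasurableSet.iInter fun k => ?_
  have h2 : Measurable[M.sgT T] fun ω => ‖co (M.fr 0) (M.cS S ω) c k‖ * r ^ k :=
    ((measurable_norm (α := ℂ)).mul_const (r ^ k)).comp (M.co_meas T S hc h k)
  exact h2 measurableSet_Iic

theorem Ev_meas {c : ℂ} (hc : 1 < c.re) {r : ℝ} (hr : 0 < r) (hrc : r < c.re) :
    MeasurableSet (M.Ev c r) :=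
  M.sgT_le Set.univ _ (M.Ev_meas' Set.univ ∅ hc hr hrc fun v _ => Set.mem_univ v)

/-- the zero-one law -/
theorem zero_one {c : ℂ} (hc : 1 < c.re) {r : ℝ} (hr : 0 < r) (hrc : r < c.re) :
    μ (M.Ev c r) = 0 ∨ μ (M.Ev c r) = 1 := by
  classical
  refine measure_zero_or_one_of_measurableSet_limsup (s := M.sg) (f := cofinite)
    (p := fun t : Set V => t.Finite) (ns := fun S : Finset V => (S : Set V)) M.sg_le ?_ ?_ ?_ ?_ ?_ ?_
  · exact M.ind.iIndep
  · intro t ht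
    exact ht.compl_mem_cofinite
  · intro S T
    exact ⟨S ∪ T, by simp, by simp⟩
  · intro S
    exact S.finite_toSet
  · intro v
    exact ⟨{v}, by simp⟩
  · rw [Filter.limsup_eq_iInf_iSup]
    simp only [MeasurableSpace.measurableSet_iInf]
    intro T hT
    have hfin : Tᶜ.Finite := hT
    refine M.Ev_meas' T hfin.toFinset hc hr hrc fun v hv => ?_
    by_contra h0
    exact hv (hfin.mem_toFinset.2 h0)

/-! ### The event has probability zero -/

/-- the lower bound of the variance of the Taylor coefficients -/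
theorem div_low {S : Finset V} (hS : ∀ v, v ∉ S → 1 / 2 ≤ M.vr v 0) {c : ℂ} (hc : c.re = 3 / 2)
    {r : ℝ} (hr : 1 < r) {A : ℝ} (hA : ∀ k, ∫ ω, ‖M.F S 0 c k ω‖ ^ 2 ∂μ ≤ A * ((r ^ k)⁻¹) ^ 2) :
    False := by
  classical
  have hc0 : 1 < c.re * ((0 : ℕ) + 1) := by rw [hc]; norm_num
  obtain ⟨r₀, h1, h2⟩ := exists_between hr
  have hr0 : 0 < r₀ := by linarith
  have hrp : 0 < r := by linarith
  set ρ : ℝ := (r₀ / r) ^ 2 with hρ
  have hρ1 : ρ < 1 := by
    rw [hρ]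
    exact pow_lt_one₀ (by positivity) ((div_lt_one hrp).2 h2) (by norm_num)
  have hρ0 : 0 ≤ ρ := by positivity
  have hA0 : 0 ≤ A := by
    have h3 := hA 0
    have h4 : 0 ≤ ∫ ω, ‖M.F S 0 c 0 ω‖ ^ 2 ∂μ := integral_nonneg fun ω => by positivity
    simp only [pow_zero, inv_one, one_pow, mul_one] at h3
    exact h4.trans h3
  set m2 : ℝ := A * (1 - ρ)⁻¹ with hm2
  set κ : ℝ := (1 - (r₀ ^ 2)⁻¹)⁻¹ with hκ
  have hr02 : (r₀ ^ 2)⁻¹ < 1 := inv_lt_one_of_one_lt₀ (one_lt_pow₀ h1 (by norm_num))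
  have hκ0 : 0 < κ := by
    rw [hκ, inv_pos]
    linarith
  -- the main inequality
  have main : ∀ T : Finset V, Disjoint T S → ∑ v ∈ T, (M.q v)⁻¹ ≤ 2 * κ * m2 := by
    intro T hT
    have h3 : ∀ K : ℕ, ∑ v ∈ T, Real.exp (-(3 * M.l v)) *
        (∑ k ∈ Finset.range K, M.l v ^ k / k.factorial) ^ 2 ≤ 2 * κ * m2 := by
      intro K
      have h4 : ∀ v ∈ T, Real.exp (-(3 * M.l v)) *
          (∑ k ∈ Finset.range K, M.l v ^ k / k.factorial) ^ 2 ≤
          2 * κ * ∑ k ∈ Finset.range K, (∫ ω, ‖M.Z S 0 c k v ω‖ ^ 2 ∂μ) * (r₀ ^ k) ^ 2 := by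
        intro v hv
        have hvS : v ∉ (S : Set V) := fun h => Finset.disjoint_left.1 hT hv (Finset.mem_coe.1 h)
        have h5 : ∀ k, (∫ ω, ‖M.Z S 0 c k v ω‖ ^ 2 ∂μ) = M.vr v 0 *
            (Real.exp (-(3 * M.l v)) * (M.l v ^ k / k.factorial) ^ 2) := by
          intro k
          have h6 := M.Z_sq (j := 0) (S := (S : Set V)) c k hvS 1
          simp only [mul_one] at h6
          rw [h6]
          unfold vr
          congr 1
          rw [ct_norm (by have := M.l_pos v; positivity), hc]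
          have h7 : Real.exp (-(3 * M.l v)) = Real.exp (-(3 / 2 * M.l v)) ^ 2 := by
            rw [← Real.exp_nat_mul]
            congr 1
            push_cast
            ring
          rw [h7]
          push_cast
          rw [zero_add, div_one, one_mul]
          ring
        have h6 : (∑ k ∈ Finset.range K, M.l v ^ k / k.factorial) ^ 2 ≤
            (∑ k ∈ Finset.range K, ((M.l v ^ k / k.factorial) * r₀ ^ k) ^ 2) *
            ∑ k ∈ Finset.range K, ((r₀ ^ k)⁻¹) ^ 2 := by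
          refine le_trans (le_of_eq ?_) (Finset.sum_mul_sq_le_sq_mul_sq _ _ _)
          congr 1
          refine Finset.sum_congr rfl fun k _ => ?_
          rw [mul_assoc, mul_inv_cancel₀ (pow_pos hr0 k).ne', mul_one]
        have h7 : ∑ k ∈ Finset.range K, ((r₀ ^ k)⁻¹) ^ 2 ≤ κ := by
          have h8 : ∀ k : ℕ, ((r₀ ^ k)⁻¹) ^ 2 = ((r₀ ^ 2)⁻¹) ^ k := fun k => by
            rw [inv_pow, inv_pow, ← pow_mul, ← pow_mul, mul_comm]
          simp_rw [h8]
          have h9 := (summable_geometric_of_lt_one (by positivity) hr02).sum_le_tsum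
            (Finset.range K) fun k _ => by positivity
          rwa [tsum_geometric_of_lt_one (by positivity) hr02] at h9
        have h8 := hS v (fun h => hvS (Finset.mem_coe.2 h))
        have h9 : ∑ k ∈ Finset.range K, (∫ ω, ‖M.Z S 0 c k v ω‖ ^ 2 ∂μ) * (r₀ ^ k) ^ 2 =
            M.vr v 0 * (Real.exp (-(3 * M.l v)) *
              ∑ k ∈ Finset.range K, ((M.l v ^ k / k.factorial) * r₀ ^ k) ^ 2) := by
          rw [Finset.mul_sum, Finset.mul_sum]
          refine Finset.sum_congr rfl fun k _ => ?_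
          rw [h5]
          ring
        rw [h9]
        set X := ∑ k ∈ Finset.range K, ((M.l v ^ k / k.factorial) * r₀ ^ k) ^ 2 with hX
        have hX0 : 0 ≤ X := Finset.sum_nonneg fun k _ => sq_nonneg _
        have hE := Real.exp_pos (-(3 * M.l v))
        have h10 : (∑ k ∈ Finset.range K, M.l v ^ k / k.factorial) ^ 2 ≤ X * κ :=
          h6.trans (mul_le_mul_of_nonneg_left h7 hX0)
        calc Real.exp (-(3 * M.l v)) * (∑ k ∈ Finset.range K, M.l v ^ k / k.factorial) ^ 2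
            ≤ Real.exp (-(3 * M.l v)) * (X * κ) := mul_le_mul_of_nonneg_left h10 hE.le
          _ = 2 * κ * ((1 / 2) * (Real.exp (-(3 * M.l v)) * X)) := by ring
          _ ≤ 2 * κ * (M.vr v 0 * (Real.exp (-(3 * M.l v)) * X)) := by gcongr
      refine (Finset.sum_le_sum h4).trans ?_
      rw [← Finset.mul_sum, Finset.sum_comm]
      refine mul_le_mul_of_nonneg_left ?_ (by positivity)
      have h5 : ∀ k ∈ Finset.range K, ∑ v ∈ T, (∫ ω, ‖M.Z S 0 c k v ω‖ ^ 2 ∂μ) * (r₀ ^ k) ^ 2 ≤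
          A * ρ ^ k := by
        intro k _
        obtain ⟨-, -, -, h6, -⟩ := M.F_facts (S : Set V) hc0 k
        have h7 : ∑ v ∈ T, (∫ ω, ‖M.Z S 0 c k v ω‖ ^ 2 ∂μ) ≤ A * ((r ^ k)⁻¹) ^ 2 :=
          (sum_le_hasSum T (fun v _ => integral_nonneg fun ω => by positivity) h6).trans (hA k)
        rw [← Finset.sum_mul]
        refine (mul_le_mul_of_nonneg_right h7 (by positivity)).trans (le_of_eq ?_)
        have h8 : ((r₀ / r) ^ 2) ^ k = (r₀ ^ k) ^ 2 * ((r ^ k)⁻¹) ^ 2 := by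
          rw [← pow_mul, mul_comm 2 k, pow_mul, div_pow, div_eq_mul_inv, mul_pow]
        rw [hρ, h8]
        ring
      refine (Finset.sum_le_sum h5).trans ?_
      rw [← Finset.mul_sum, hm2]
      refine mul_le_mul_of_nonneg_left ?_ hA0
      have h9 := (summable_geometric_of_lt_one hρ0 hρ1).sum_le_tsum
        (Finset.range K) fun k _ => by positivity
      rwa [tsum_geometric_of_lt_one hρ0 hρ1] at h9
    have h4 : Tendsto (fun K : ℕ => ∑ v ∈ T, Real.exp (-(3 * M.l v)) *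
        (∑ k ∈ Finset.range K, M.l v ^ k / k.factorial) ^ 2) atTop
        (𝓝 (∑ v ∈ T, Real.exp (-(3 * M.l v)) * Real.exp (M.l v) ^ 2)) := by
      refine tendsto_finsetSum T fun v _ => ?_
      refine Tendsto.const_mul _ (Tendsto.pow ?_ 2)
      have := (NormedSpace.expSeries_div_hasSum_exp (𝔸 := ℝ) (M.l v)).tendsto_sum_nat
      rwa [← Real.exp_eq_exp_ℝ] at this
    have h5 := le_of_tendsto' h4 h3
    refine le_trans (le_of_eq ?_) h5
    refine Finset.sum_congr rfl fun v _ => ?_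
    rw [← Real.exp_nat_mul, ← Real.exp_add]
    have : -(3 * M.l v) + ((2 : ℕ) : ℝ) * M.l v = -M.l v := by push_cast; ring
    rw [this, Real.exp_neg]
    unfold l
    rw [Real.exp_log (M.q_pos v)]
  refine M.div ?_
  have h3 : Summable fun v : {v // v ∉ S} => (M.q v.1)⁻¹ := by
    refine summable_of_sum_le (c := 2 * κ * m2) (fun v => inv_nonneg.2 (M.q_pos v.1).le) fun T => ?_
    have h4 := main (T.map (Function.Embedding.subtype _)) (by
      rw [Finset.disjoint_left]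
      intro v hv hvS
      obtain ⟨w, -, rfl⟩ := Finset.mem_map.1 hv
      exact w.2 hvS)
    rw [Finset.sum_map] at h4
    exact h4
  exact (S.summable_compl_iff (f := fun v => (M.q v)⁻¹)).1 h3

/-- the fourth moments of the centred terms -/
theorem kurt (S : Set V) (hS : ∀ v, v ∉ S → 1 / 2 ≤ M.vr v 0) (c : ℂ) (k : ℕ) (v : V) :
    ∫ ω, ‖M.Z S 0 c k v ω‖ ^ 4 ∂μ ≤
      (8 * M.B ^ 2 + 3) * (∫ ω, ‖M.Z S 0 c k v ω‖ ^ 2 ∂μ) ^ 2 := by
  by_cases hv : v ∈ S
  · have h1 : ∀ ω, M.Z S 0 c k v ω = 0 := fun ω => by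
      unfold Z
      rw [if_pos hv]
    simp [h1]
  · set e : ℝ := ‖ct ((((0 : ℕ) : ℝ) + 1) * M.l v) c k‖ / (((0 : ℕ) : ℝ) + 1) with he
    have hvr : ∫ ω, (M.τ v 0 ω - M.mn v 0) ^ 2 ∂μ = M.vr v 0 := rfl
    have h2 : ∫ ω, ‖M.Z S 0 c k v ω‖ ^ 2 ∂μ = M.vr v 0 * e ^ 2 := M.Z_sq (j := 0) c k hv 1
    have h4 : ∫ ω, ‖M.Z S 0 c k v ω‖ ^ 4 ∂μ = (∫ ω, (M.τ v 0 ω - M.mn v 0) ^ 4 ∂μ) * e ^ 4 :=
      M.Z_sq (j := 0) c k hv 2
    rw [h2, h4]
    have h5 : ∫ ω, (M.τ v 0 ω - M.mn v 0) ^ 4 ∂μ ≤ (4 * M.B ^ 2) * M.vr v 0 := by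
      rw [← hvr, ← integral_const_mul]
      have hb : ∀ ω, (M.τ v 0 ω - M.mn v 0) ^ 2 ≤ 4 * M.B ^ 2 := fun ω => by
        have h6 : |M.τ v 0 ω - M.mn v 0| ≤ 2 * M.B := by
          have h7 := M.bd v 0 ω
          have h8 := M.mn_bd v 0
          refine (abs_sub _ _).trans ?_
          linarith
        rw [← sq_abs]
        refine (pow_le_pow_left₀ (abs_nonneg _) h6 2).trans (le_of_eq (by ring))
      refine integral_mono_of_nonneg (ae_of_all _ fun ω => by positivity) ?_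
        (ae_of_all _ fun ω => ?_)
      · refine (int_of_bd (((M.meas v 0).sub_const _).pow_const 2) (C := 4 * M.B ^ 2)
          fun ω => ?_).const_mul _
        rw [Real.norm_eq_abs, abs_of_nonneg (sq_nonneg _)]
        exact hb ω
      · show (M.τ v 0 ω - M.mn v 0) ^ 4 ≤ 4 * M.B ^ 2 * (M.τ v 0 ω - M.mn v 0) ^ 2
        have h7 : (M.τ v 0 ω - M.mn v 0) ^ 4 = (M.τ v 0 ω - M.mn v 0) ^ 2 *
          (M.τ v 0 ω - M.mn v 0) ^ 2 := by ring
        rw [h7]
        exact mul_le_mul_of_nonneg_right (hb ω) (sq_nonneg _)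
    have h6 := hS v hv
    have h7 : 4 * M.B ^ 2 * M.vr v 0 ≤ (8 * M.B ^ 2 + 3) * M.vr v 0 ^ 2 := by
      nlinarith [sq_nonneg M.B, mul_nonneg (sq_nonneg M.B) (by linarith : (0 : ℝ) ≤ M.vr v 0)]
    have h8 : 0 ≤ e ^ 4 := by positivity
    calc (∫ ω, (M.τ v 0 ω - M.mn v 0) ^ 4 ∂μ) * e ^ 4 ≤
        ((8 * M.B ^ 2 + 3) * M.vr v 0 ^ 2) * e ^ 4 :=
          mul_le_mul_of_nonneg_right (h5.trans h7) h8
      _ = (8 * M.B ^ 2 + 3) * (M.vr v 0 * e ^ 2) ^ 2 := by ring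

/-- Chebyshev -/
theorem cheb {F : Ω → ℂ} (hF : Measurable F) {b : ℝ} (hb : ∀ ω, ‖F ω‖ ≤ b) {A t : ℝ} (ht : 0 < t)
    (hA : ∫ ω, ‖F ω‖ ^ 2 ∂μ ≤ A) : μ.real {ω | t < ‖F ω‖} ≤ A / t ^ 2 := by
  have hi : Integrable (fun ω => ‖F ω‖ ^ 2) μ :=
    int_of_bd (hF.norm.pow_const 2) (C := b ^ 2) fun ω => by
      rw [norm_pow, norm_norm]
      exact pow_le_pow_left₀ (norm_nonneg _) (hb ω) 2
  have h1 := mul_meas_ge_le_integral_of_nonneg (ae_of_all μ fun ω => sq_nonneg ‖F ω‖) hi (t ^ 2)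
  rw [le_div_iff₀ (by positivity), mul_comm]
  refine le_trans (mul_le_mul_of_nonneg_left ?_ (by positivity)) (h1.trans hA)
  refine measureReal_mono fun ω hω => ?_
  exact pow_le_pow_left₀ ht.le (le_of_lt hω) 2

/-- **The natural boundary**: the radius of convergence is not larger. -/
theorem Ev_null {c : ℂ} (hc : c.re = 3 / 2) {r : ℝ} (hr : 1 < r) (hr2 : r < 7 / 6) :
    μ (M.Ev c r) = 0 := by
  classical
  have hc1 : 1 < c.re := by rw [hc]; norm_num
  have hr0 : 0 < r := by linarith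
  rcases M.zero_one hc1 hr0 (by rw [hc]; linarith) with h | hone
  · exact h
  exfalso
  -- the exceptional places
  have hfin : {v | ¬ (1 / 2 ≤ M.vr v 0)}.Finite := M.var
  set S : Finset V := hfin.toFinset with hS
  have hSv : ∀ v, v ∉ S → 1 / 2 ≤ M.vr v 0 := fun v hv => by
    by_contra h0
    exact hv (hfin.mem_toFinset.2 h0)
  obtain ⟨y, hy1, hy2⟩ := exists_between hr2
  have hy0 : 0 < y := hr0.trans hy1
  have hj0 : 1 < c.re * ((0 : ℕ) + 1) := by push_cast; linarith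
  have hj1 : 1 < c.re * ((1 : ℕ) + 1) := by rw [hc]; norm_num
  -- the constants
  set κ : ℝ := 8 * M.B ^ 2 + 3 with hκ
  have hκ3 : 3 ≤ κ := by rw [hκ]; nlinarith [sq_nonneg M.B]
  have hκs : 0 < √κ := Real.sqrt_pos.2 (by linarith)
  set u : ℝ := (8 * √κ)⁻¹ with hu
  have hu0 : 0 < u := by positivity
  have hκu : 8 * √κ * u ≤ 1 := by
    rw [hu, mul_inv_cancel₀ (by positivity)]
  -- the fluctuation of index one
  obtain ⟨A₁, hA10, hA1⟩ := M.F_sq ∅ (j := 1) (c := c) hj1 hy0 (by rw [hc]; push_cast; linarith)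
  set t₁ : ℝ := √(2 * A₁ + 1) / u with ht1
  have ht10 : 0 < t₁ := by
    have : 0 < √(2 * A₁ + 1) := Real.sqrt_pos.2 (by linarith)
    positivity
  have ht1A : A₁ / t₁ ^ 2 ≤ u ^ 2 / 2 := by
    rw [ht1, div_pow, Real.sq_sqrt (by linarith), div_div_eq_mul_div, div_le_div_iff₀ (by linarith)
      two_pos]
    have : 0 < u ^ 2 := by positivity
    nlinarith
  -- the rest
  set A₂ : ℝ := M.B * ∑' p : V × ℕ, Real.exp (-((c.re - y) * M.fr 2 p)) with hA2
  have hD2 := fun (k : ℕ) (ω : Ω) => M.D_bd (j := 2) (c := c) hy0 (by rw [hc]; linarith)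
    (by rw [hc]; push_cast; linarith) k ω
  -- the exceptional places
  obtain ⟨A₃, hA3⟩ : ∃ A₃ : ℝ, ∀ (k : ℕ) (ω : Ω), ‖∑ v ∈ S, ((M.τ v 0 ω - M.mn v 0 : ℝ) : ℂ) /
      ((0 : ℕ) + 1) * ct (((0 : ℕ) + 1) * M.l v) c k‖ ≤ A₃ * (y ^ k)⁻¹ := by
    refine ⟨∑ v ∈ S, 2 * M.B * Real.exp (-((c.re - y) * (((0 : ℕ) + 1) * M.l v))), fun k ω => ?_⟩
    rw [Finset.sum_mul]
    refine (norm_sum_le _ _).trans (Finset.sum_le_sum fun v _ => ?_)
    have h7 := M.bd v 0 ω
    have h8 := M.mn_bd v 0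
    have h9 : |M.τ v 0 ω - M.mn v 0| ≤ 2 * M.B := (abs_sub _ _).trans (by linarith)
    refine (term_bd h9 0 _).trans ?_
    refine (mul_le_mul_of_nonneg_left (M.ctl_le (c := c) (j := 0) hy0 v k) ?_).trans
      (le_of_eq (by ring))
    linarith [abs_nonneg (M.mn v 0)]
  -- a large event
  set G : ℕ → Set Ω := fun N => {ω | ∀ k, ‖M.D 0 c k ω‖ * r ^ k ≤ N} with hG
  have hDm : ∀ k, Measurable (M.D 0 c k) := by
    intro k
    have h1 := M.co_meas Set.univ ∅ hc1 (fun v _ => Set.mem_univ v) k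
    have h2 : (fun ω => co (M.fr 0) (M.cS ∅ ω) c k) = M.D 0 c k := by
      funext ω
      unfold D co cS
      simp
    rw [h2] at h1
    exact h1.mono (M.sgT_le _) le_rfl
  have hGm : ∀ N, MeasurableSet (G N) := by
    intro N
    have h1 : G N = ⋂ k : ℕ, {ω | ‖M.D 0 c k ω‖ * r ^ k ≤ N} := by
      ext ω
      simp only [hG, Set.mem_iInter, Set.mem_ofPred_eq]
    rw [h1]
    exact MeasurableSet.iInter fun k => measurableSet_le ((hDm k).norm.mul_const _) measurable_const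
  obtain ⟨N, hN⟩ : ∃ N : ℕ, μ.real (G N)ᶜ ≤ u ^ 2 / 2 := by
    have h1 : Monotone G := by
      intro N N' h ω hω k
      exact (hω k).trans (by exact_mod_cast h)
    have h2 : M.Ev c r ⊆ ⋃ N, G N := by
      rintro ω ⟨C, hC⟩
      obtain ⟨N, hN⟩ := exists_nat_ge C
      exact Set.mem_iUnion.2 ⟨N, fun k => (hC k).trans hN⟩
    have h3 : μ (⋃ N, G N) = 1 := le_antisymm prob_le_one (hone ▸ measure_mono h2)
    have h4 := tendsto_measure_iUnion_atTop (μ := μ) h1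
    rw [h3] at h4
    have h5 : Tendsto (fun N => μ.real (G N)) atTop (𝓝 1) := by
      have h7 := (ENNReal.tendsto_toReal ENNReal.one_ne_top).comp h4
      rw [ENNReal.toReal_one] at h7
      exact h7
    have h6 : (1 : ℝ) - u ^ 2 / 2 < 1 := by
      have : 0 < u ^ 2 := by positivity
      linarith
    obtain ⟨N, hN⟩ := (h5.eventually (lt_mem_nhds h6)).exists
    refine ⟨N, ?_⟩
    rw [probReal_compl_eq_one_sub (hGm N)]
    linarith
  -- the conclusion
  refine M.div_low (S := S) hSv hc hr (A := 16 * (N + |A₃| + t₁ + |A₂|) ^ 2) fun k => ?_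
  obtain ⟨f1, ⟨b, f2⟩, f3, -, f5⟩ := M.F_facts (S : Set V) hj0 k
  obtain ⟨g1, ⟨b', g2⟩, -, -, -⟩ := M.F_facts ∅ hj1 k
  have hyk : 0 < (y ^ k)⁻¹ := by positivity
  have hrk : 0 < (r ^ k)⁻¹ := by positivity
  have hyr : (y ^ k)⁻¹ ≤ (r ^ k)⁻¹ :=
    inv_anti₀ (pow_pos hr0 k) (pow_le_pow_left₀ hr0.le hy1.le k)
  have hk4 := f5 κ hκ3 fun v => M.kurt (S : Set V) (fun v hv => hSv v fun h => hv
    (Finset.mem_coe.2 h)) c k v
  set H : Set Ω := G N ∩ {ω | t₁ * (y ^ k)⁻¹ < ‖M.F ∅ 1 c k ω‖}ᶜ with hH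
  have hHm : MeasurableSet H :=
    (hGm N).inter (measurableSet_lt measurable_const g1.norm).compl
  have hHc : μ.real Hᶜ ≤ u ^ 2 := by
    have h1 := cheb (μ := μ) g1 g2 (t := t₁ * (y ^ k)⁻¹) (by positivity) (hA1 k)
    have h2 : A₁ * ((y ^ k)⁻¹) ^ 2 / (t₁ * (y ^ k)⁻¹) ^ 2 = A₁ / t₁ ^ 2 := by
      field_simp
    rw [h2] at h1
    have h3 : Hᶜ ⊆ (G N)ᶜ ∪ {ω | t₁ * (y ^ k)⁻¹ < ‖M.F ∅ 1 c k ω‖} := by
      rw [hH, Set.compl_inter, compl_compl]
    refine (measureReal_mono h3).trans ((measureReal_union_le _ _).trans ?_)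
    linarith
  have hfin := non_conc (μ := μ) f1 f2 f3 (κ := κ) (by linarith) hk4 hHm hu0.le hHc hκu
    (m := M.Mp 0 c k + M.Mp 1 c k) (ε := (N + |A₃| + t₁ + |A₂|) * (r ^ k)⁻¹) (by positivity) ?_
  · refine hfin.trans (le_of_eq ?_)
    ring
  · intro ω hω
    have hω1 := hω.1 k
    have hω2 : ‖M.F ∅ 1 c k ω‖ ≤ t₁ * (y ^ k)⁻¹ := not_lt.1 hω.2
    have e1 : M.F S 0 c k ω + (M.Mp 0 c k + M.Mp 1 c k) = M.D 0 c k ω -
        (∑ v ∈ S, ((M.τ v 0 ω - M.mn v 0 : ℝ) : ℂ) / ((0 : ℕ) + 1) *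
          ct (((0 : ℕ) + 1) * M.l v) c k) - M.F ∅ 1 c k ω - M.D 2 c k ω := by
      have e2 := M.Q_eq hj1 k ∅ ω
      rw [Finset.sum_empty, Finset.coe_empty, add_zero] at e2
      rw [M.D_succ hj0, M.D_succ hj1, M.Q_eq hj0 k S ω, e2]
      ring
    have h1 : ‖M.D 0 c k ω‖ ≤ N * (r ^ k)⁻¹ := by
      rw [← div_eq_mul_inv, le_div_iff₀ (pow_pos hr0 k)]
      exact hω1
    have h2 := hA3 k ω
    have h3 := hD2 k ω
    rw [e1]
    have h4 : A₃ * (y ^ k)⁻¹ ≤ |A₃| * (r ^ k)⁻¹ :=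
      mul_le_mul (le_abs_self _) hyr hyk.le (abs_nonneg _)
    have h5 : A₂ * (y ^ k)⁻¹ ≤ |A₂| * (r ^ k)⁻¹ :=
      mul_le_mul (le_abs_self _) hyr hyk.le (abs_nonneg _)
    have h6 : t₁ * (y ^ k)⁻¹ ≤ t₁ * (r ^ k)⁻¹ := mul_le_mul_of_nonneg_left hyr ht10.le
    refine (norm_sub_le _ _).trans ?_
    refine (add_le_add ((norm_sub_le _ _).trans (add_le_add (norm_sub_le _ _) le_rfl)) le_rfl).trans ?_
    rw [add_mul, add_mul, add_mul]
    linarith

end Mdl

end Pool.Agent.W5h88.NB
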